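import Pool.Agent.Helper55.UNF.Layout

/-!
Cell curves: a local description of a closed curve on the surface that runs only to the east, to
the north and to the south, up to a half turn of the frame.
-/

namespace Pool.Agent.Helper55.UNF

section Search

variable {X : Type*} (π : Equiv.Perm X) (stop : X → Prop)

/-- the number of steps of `π` from `s` to the first element with `stop` -/
noncomputable def srch (s : X) : ℕ := sInf {j : ℕ | stop ((π ^ j) s)}

variable {π stop}

lemma srch_spec {s : X} (h : ∃ j : ℕ, stop ((π ^ j) s)) : stop ((π ^ (srch π stop s)) s) :=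
  Nat.sInf_mem (s := {j : ℕ | stop ((π ^ j) s)}) h

lemma srch_not {s : X} {j : ℕ} (h : j < srch π stop s) : ¬ stop ((π ^ j) s) := by
  intro h'
  exact Nat.notMem_of_lt_sInf h h'

lemma srch_zero {s : X} (h : stop s) : srch π stop s = 0 := by
  by_contra h'
  exact srch_not (j := 0) (Nat.pos_of_ne_zero h') (by simpa using h)

lemma srch_pos {s : X} (h : ¬ stop s) (hex : ∃ j : ℕ, stop ((π ^ j) s)) :
    0 < srch π stop s := by
  by_contra h'
  have h0 : srch π stop s = 0 := by omega
  have := srch_spec hex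
  rw [h0] at this
  exact h (by simpa using this)

lemma srch_step {s : X} (h : ¬ stop s) (hex : ∃ j : ℕ, stop ((π ^ j) s)) :
    srch π stop s = srch π stop (π s) + 1 := by
  have hp := srch_pos h hex
  have hpow : ∀ j : ℕ, (π ^ j) (π s) = (π ^ (j + 1)) s := by
    intro j; rw [pow_succ]; rfl
  have hex' : ∃ j : ℕ, stop ((π ^ j) (π s)) := by
    refine ⟨srch π stop s - 1, ?_⟩
    rw [hpow, Nat.sub_add_cancel hp]
    exact srch_spec hex
  apply le_antisymm
  · by_contra hlt
    have h1 := srch_spec hex'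
    rw [hpow] at h1
    exact srch_not (by omega) h1
  · by_contra hlt
    have h1 := srch_spec hex
    have h2 : srch π stop s = (srch π stop s - 1) + 1 := by omega
    rw [h2, ← hpow] at h1
    exact srch_not (by omega) h1

end Search

/-- The types of a cell: not on the curve, straight through, start / middle / end of a run to the
north, start / middle / end of a run to the south. -/
inductive Ty
  | o | H | N1 | N2 | N3 | S1 | S2 | S3
  deriving DecidableEq

namespace Ty

/-- the curve uses the west side -/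
def wp : Ty → Bool
  | H => true
  | N1 => true
  | S1 => true
  | _ => false

/-- the curve uses the east side -/
def ep : Ty → Bool
  | H => true
  | N3 => true
  | S3 => true
  | _ => false

/-- the curve goes on to the north -/
def goN : Ty → Bool
  | N1 => true
  | N2 => true
  | _ => false

/-- the curve comes from the south -/
def frS : Ty → Bool
  | N2 => true
  | N3 => true
  | _ => false

/-- the curve goes on to the south -/
def goS : Ty → Bool
  | S1 => true
  | S2 => true
  | _ => false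

/-- the curve comes from the north -/
def frN : Ty → Bool
  | S2 => true
  | S3 => true
  | _ => false

lemma frN_not (t : Ty) (h : t.frN = true) : ¬ (t = Ty.o ∨ t.frS = true) := by
  revert h; cases t <;> simp [frN, frS]

end Ty

namespace GridSolid

variable (P : GridSolid)

/-- A cell curve. -/
structure CellCurve where
  can : P.Facet → P.FSt
  can_facet : ∀ f, (can f).facet = f
  τ : P.Facet → Ty
  hN : ∀ f, (τ f).goN = true → ∃ g, (can f).stN = can g ∧ (τ g).frS = true
  hN' : ∀ f, (τ f).frS = true → ∃ g, (can g).stN = can f ∧ (τ g).goN = true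
  hS : ∀ f, (τ f).frN = true → ∃ g, (can f).stN = can g ∧ (τ g).goS = true
  hS' : ∀ f, (τ f).goS = true → ∃ g, (can g).stN = can f ∧ (τ g).frN = true
  hE : ∀ f, (τ f).ep = true → (∃ g, (can f).stE = can g ∧ (τ g).wp = true) ∨
    (∃ g, (can f).stE = (can g).r2 ∧ (τ g).ep = true)
  hW : ∀ f, (τ f).wp = true → (∃ g, (can g).stE = can f ∧ (τ g).ep = true) ∨
    (∃ g, (can f).r2.stE = can g ∧ (τ g).wp = true)
  cov : ∀ f, ∃ z : ℤ, (∀ y ∈ Set.uIcc 0 z, ∃ g, (pN ^ y) (can f) = can g) ∧
    ∃ g, (pN ^ z) (can f) = can g ∧ (τ g).wp = true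
  conn : ∀ φ : P.Facet → Prop,
    (∀ f g, (can f).stN = can g → (τ f).goN = true → (φ f ↔ φ g)) →
    (∀ f g, (can f).stN = can g → (τ f).frN = true → (φ f ↔ φ g)) →
    (∀ f g, (can f).stE = can g → (τ f).ep = true → (φ f ↔ φ g)) →
    (∀ f g, (can f).stE = (can g).r2 → (τ f).ep = true → (φ f ↔ φ g)) →
    (∀ f g, (can f).r2.stE = can g → (τ f).wp = true → (φ f ↔ φ g)) →
    ∀ f g, τ f ≠ Ty.o → τ g ≠ Ty.o → (φ f ↔ φ g)
  ne : Nonempty P.Facet

namespace CellCurve

variable {P} (A : P.CellCurve)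

/-- the oriented facet is the canonical one -/
def cn (s : P.FSt) : Prop := s = A.can s.facet

lemma cn_can (f : P.Facet) : A.cn (A.can f) := by
  unfold cn; rw [A.can_facet]

lemma can_inj {f g : P.Facet} (h : A.can f = A.can g) : f = g := by
  rw [← A.can_facet f, ← A.can_facet g, h]

lemma cn_iff {s : P.FSt} {g : P.Facet} (h : s = A.can g) : s.facet = g := by
  rw [h, A.can_facet]

/-- the type of an oriented facet -/
def ty (s : P.FSt) : Ty := A.τ s.facet

lemma ty_can (f : P.Facet) : A.ty (A.can f) = A.τ f := by unfold ty; rw [A.can_facet]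

/-- where the search to the south stops -/
def stopD (s : P.FSt) : Prop := ¬ (A.cn s ∧ (A.ty s = Ty.o ∨ (A.ty s).frS = true))

/-- where the search to the north stops -/
def stopU (s : P.FSt) : Prop := ¬ (A.cn s ∧ (A.ty s = Ty.o ∨ (A.ty s).frN = true))

/-- the number of steps to the south -/
noncomputable def jD (s : P.FSt) : ℕ := srch (pN⁻¹ : Equiv.Perm P.FSt) A.stopD s

/-- the number of steps to the north -/
noncomputable def jU (s : P.FSt) : ℕ := srch (pN : Equiv.Perm P.FSt) A.stopU s

lemma exists_pow (s : P.FSt) (z : ℤ) (stop : P.FSt → Prop) (h : stop ((pN ^ z) s)) :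
    (∃ j : ℕ, stop ((pN ^ j) s)) ∧ ∃ j : ℕ, stop (((pN⁻¹ : Equiv.Perm P.FSt) ^ j) s) := by
  have ho : 0 < orderOf (pN : Equiv.Perm P.FSt) := orderOf_pos _
  set n := orderOf (pN : Equiv.Perm P.FSt) with hn
  have hn1 : (pN : Equiv.Perm P.FSt) ^ n = 1 := pow_orderOf_eq_one _
  constructor
  · refine ⟨(z + n * |z|).toNat, ?_⟩
    have h0 : 0 ≤ z + n * |z| := by
      have h1 : (1 : ℤ) ≤ n := by exact_mod_cast ho
      have h2 := neg_abs_le z
      nlinarith [abs_nonneg z]
    rw [← zpow_natCast, Int.toNat_of_nonneg h0, zpow_add, zpow_mul, zpow_natCast, hn1, one_zpow,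
      mul_one]
    exact h
  · refine ⟨(-z + n * |z|).toNat, ?_⟩
    have h0 : 0 ≤ -z + n * |z| := by
      have h1 : (1 : ℤ) ≤ n := by exact_mod_cast ho
      have h2 := le_abs_self z
      nlinarith [abs_nonneg z]
    have h3 : (pN⁻¹ : Equiv.Perm P.FSt) ^ n = 1 := by rw [inv_pow, hn1, inv_one]
    rw [← zpow_natCast, Int.toNat_of_nonneg h0, zpow_add, zpow_mul, zpow_natCast, h3, one_zpow,
      mul_one, inv_zpow', neg_neg]
    exact h

lemma ex_stop (f : P.Facet) :
    (∃ j : ℕ, A.stopU ((pN ^ j) (A.can f))) ∧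
      ∃ j : ℕ, A.stopD (((pN⁻¹ : Equiv.Perm P.FSt) ^ j) (A.can f)) := by
  obtain ⟨z, h1, g, h2, h3⟩ := A.cov f
  have hty : A.ty ((pN ^ z) (A.can f)) = A.τ g := by rw [h2, A.ty_can]
  refine ⟨(exists_pow (A.can f) z A.stopU ?_).1, (exists_pow (A.can f) z A.stopD ?_).2⟩
  · intro hh
    rw [hty] at hh
    rcases hh.2 with h | h <;> revert h3 <;> cases hτ : A.τ g <;> simp_all [Ty.wp, Ty.frN]
  · intro hh
    rw [hty] at hh
    rcases hh.2 with h | h <;> revert h3 <;> cases hτ : A.τ g <;> simp_all [Ty.wp, Ty.frS]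

/-- the facet at the south step -/
lemma south_eq {s : P.FSt} {g : P.Facet} (h : pN⁻¹ s = A.can g) : (A.can g).stN = s := by
  rw [← h]
  show pN (pN⁻¹ s) = s
  simp

/-- the facet is hung on its southern neighbour -/
def PD (f : P.Facet) : Prop :=
  (A.τ f = Ty.o ∨ (A.τ f).frS = true) ∧
    A.cn (((pN⁻¹ : Equiv.Perm P.FSt) ^ A.jD (A.can f)) (A.can f))

open Classical in
/-- the west end of the run of a facet -/
noncomputable def ρ (f : P.Facet) : P.Facet :=
  if A.PD f then (((pN⁻¹ : Equiv.Perm P.FSt) ^ A.jD (A.can f)) (A.can f)).facet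
  else ((pN ^ A.jU (A.can f)) (A.can f)).facet

open Classical in
/-- the offset of a facet -/
noncomputable def ζ (f : P.Facet) : ℤ :=
  if A.PD f then (A.jD (A.can f) : ℤ) else -(A.jU (A.can f) : ℤ)

lemma not_stopD {f : P.Facet} (h : A.τ f = Ty.o ∨ (A.τ f).frS = true) :
    ¬ A.stopD (A.can f) := by
  unfold stopD
  rw [not_not, A.ty_can]
  exact ⟨A.cn_can f, h⟩

lemma not_stopU {f : P.Facet} (h : A.τ f = Ty.o ∨ (A.τ f).frN = true) :
    ¬ A.stopU (A.can f) := by
  unfold stopU
  rw [not_not, A.ty_can]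
  exact ⟨A.cn_can f, h⟩

lemma stopU_of_wp {f : P.Facet} (h : (A.τ f).wp = true) : A.stopU (A.can f) := by
  intro hh
  rw [A.ty_can] at hh
  rcases hh.2 with h' | h' <;> revert h <;> cases hτ : A.τ f <;> simp_all [Ty.wp, Ty.frN]

lemma stopD_of_wp {f : P.Facet} (h : (A.τ f).wp = true) : A.stopD (A.can f) := by
  intro hh
  rw [A.ty_can] at hh
  rcases hh.2 with h' | h' <;> revert h <;> cases hτ : A.τ f <;> simp_all [Ty.wp, Ty.frS]

lemma not_PD_of_wp {f : P.Facet} (h : (A.τ f).wp = true) : ¬ A.PD f := by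
  intro hh
  rcases hh.1 with h' | h' <;> revert h <;> cases hτ : A.τ f <;> simp_all [Ty.wp, Ty.frS]

lemma base_of_wp {f : P.Facet} (h : (A.τ f).wp = true) : A.ρ f = f ∧ A.ζ f = 0 := by
  have h0 : A.jU (A.can f) = 0 := srch_zero (A.stopU_of_wp h)
  unfold ρ ζ
  rw [if_neg (A.not_PD_of_wp h), if_neg (A.not_PD_of_wp h), h0]
  simp [A.can_facet]

/-- A canonical oriented facet below a facet of type `o`, `N2`, `N3` is again of this kind or has a
west port. -/
lemma below {f g : P.Facet} (hf : A.τ f = Ty.o ∨ (A.τ f).frS = true)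
    (hg : (A.can g).stN = A.can f) :
    (A.τ g = Ty.o ∨ (A.τ g).frS = true) ∨ (A.τ g).wp = true := by
  by_cases h : (A.τ g).frN = true
  · obtain ⟨f', h1, h2⟩ := A.hS g h
    have : f' = f := A.can_inj (by rw [← h1, hg])
    subst this
    rcases hf with h' | h' <;> revert h2 <;> cases hτ : A.τ f' <;> simp_all [Ty.goS, Ty.frS]
  · revert h
    cases hτ : A.τ g <;> simp [Ty.frN, Ty.frS, Ty.wp]

/-- A canonical oriented facet above a facet of type `o`, `S2`, `S3` is again of this kind or has a
west port. -/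
lemma above {f g : P.Facet} (hf : A.τ f = Ty.o ∨ (A.τ f).frN = true)
    (hg : (A.can f).stN = A.can g) :
    (A.τ g = Ty.o ∨ (A.τ g).frN = true) ∨ (A.τ g).wp = true := by
  by_cases h : (A.τ g).frS = true
  · obtain ⟨f', h1, h2⟩ := A.hN' g h
    have : f' = f := A.can_inj (pN.injective (by show (A.can f').stN = (A.can f).stN; rw [h1, hg]))
    subst this
    rcases hf with h' | h' <;> revert h2 <;> cases hτ : A.τ f' <;> simp_all [Ty.goN, Ty.frN]
  · revert h
    cases hτ : A.τ g <;> simp [Ty.frN, Ty.frS, Ty.wp]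

lemma pow_step (π : Equiv.Perm P.FSt) (j : ℕ) (s : P.FSt) : (π ^ (j + 1)) s = (π ^ j) (π s) := by
  rw [pow_succ]; rfl

/-- hanging on the southern neighbour -/
lemma stepD {f : P.Facet} (h : A.PD f) :
    ∃ g, (A.can g).stN = A.can f ∧ A.ρ g = A.ρ f ∧ A.ζ g = A.ζ f - 1 := by
  obtain ⟨h1, h2⟩ := h
  have hex := (A.ex_stop f).2
  have hns := A.not_stopD h1
  have hstep : A.jD (A.can f) = A.jD (pN⁻¹ (A.can f)) + 1 := srch_step hns hex
  have hpf : ((pN⁻¹ : Equiv.Perm P.FSt) ^ A.jD (A.can f)) (A.can f) =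
      ((pN⁻¹ : Equiv.Perm P.FSt) ^ A.jD (pN⁻¹ (A.can f))) (pN⁻¹ (A.can f)) := by
    rw [hstep, pow_step]
  have hρ : A.ρ f = (((pN⁻¹ : Equiv.Perm P.FSt) ^ A.jD (A.can f)) (A.can f)).facet := by
    unfold ρ; rw [if_pos ⟨h1, h2⟩]
  have hζ : A.ζ f = A.jD (A.can f) := by unfold ζ; rw [if_pos ⟨h1, h2⟩]
  -- the southern neighbour is canonical
  have hcn : A.cn (pN⁻¹ (A.can f)) := by
    by_cases hs : A.stopD (pN⁻¹ (A.can f))
    · have h0 : A.jD (pN⁻¹ (A.can f)) = 0 := srch_zero hs
      rw [hpf, h0] at h2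
      simpa using h2
    · unfold stopD at hs
      rw [not_not] at hs
      exact hs.1
  set g := (pN⁻¹ (A.can f)).facet with hg
  have hcan : pN⁻¹ (A.can f) = A.can g := hcn
  have hst := A.south_eq hcan
  refine ⟨g, hst, ?_⟩
  rcases A.below h1 hst with hb | hb
  · have hPD : A.PD g := by
      refine ⟨hb, ?_⟩
      rw [← hcan, ← hpf]; exact h2
    constructor
    · rw [hρ, hpf]
      unfold ρ
      rw [if_pos hPD, hcan]
    · rw [hζ, hstep, hcan]
      unfold ζ
      rw [if_pos hPD]
      push_cast; ring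
  · obtain ⟨b1, b2⟩ := A.base_of_wp hb
    have h0 : A.jD (pN⁻¹ (A.can f)) = 0 := by rw [hcan]; exact srch_zero (A.stopD_of_wp hb)
    rw [b1, b2, hρ, hζ, hpf, hstep, h0]
    simp [hcan, A.can_facet]

/-- hanging on the northern neighbour -/
lemma stepU {f : P.Facet} (h : ¬ A.PD f) (hw : (A.τ f).wp = false) :
    ∃ g, (A.can f).stN = A.can g ∧ A.ρ g = A.ρ f ∧ A.ζ g = A.ζ f + 1 := by
  have hex := (A.ex_stop f).1
  have hexD := (A.ex_stop f).2
  -- the type of `f`
  have hD2 : ∀ f : P.Facet, (A.τ f).frS = true → A.PD f := by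
    intro f hf
    refine ⟨Or.inr hf, ?_⟩
    -- all facets on the way are canonical and come from the south
    have hexD := (A.ex_stop f).2
    have key : ∀ j ≤ A.jD (A.can f), ∃ g, ((pN⁻¹ : Equiv.Perm P.FSt) ^ j) (A.can f) = A.can g ∧
        ((A.τ g).frS = true ∨ (A.τ g).goN = true) := by
      intro j
      induction j with
      | zero => intro _; exact ⟨f, by simp, Or.inl hf⟩
      | succ j ih =>
        intro hj
        obtain ⟨g, g1, g2⟩ := ih (by omega)
        have hns := srch_not (show j < srch (pN⁻¹ : Equiv.Perm P.FSt) A.stopD (A.can f) from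
          by unfold jD at hj; omega)
        rw [g1] at hns
        unfold stopD at hns
        rw [not_not, A.ty_can] at hns
        have hfr : (A.τ g).frS = true := by
          rcases hns.2 with h' | h'
          · rw [h'] at g2; simp [Ty.frS, Ty.goN] at g2
          · exact h'
        obtain ⟨g', k1, k2⟩ := A.hN' g hfr
        refine ⟨g', ?_, Or.inr k2⟩
        rw [pow_succ', Equiv.Perm.mul_apply, g1, ← k1]
        exact (pN : Equiv.Perm P.FSt).symm_apply_apply (A.can g')
    obtain ⟨g, g1, -⟩ := key _ le_rfl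
    rw [g1]; exact A.cn_can g
  have h1 : A.τ f = Ty.o ∨ (A.τ f).frN = true := by
    by_cases h' : (A.τ f).frS = true
    · exact absurd (hD2 f h') h
    · revert h' hw; cases hτ : A.τ f <;> simp [Ty.frS, Ty.frN, Ty.wp]
  have hns := A.not_stopU h1
  have hstep : A.jU (A.can f) = A.jU (pN (A.can f)) + 1 := srch_step hns hex
  have hpf : ((pN : Equiv.Perm P.FSt) ^ A.jU (A.can f)) (A.can f) =
      ((pN : Equiv.Perm P.FSt) ^ A.jU (pN (A.can f))) (pN (A.can f)) := by
    rw [hstep, pow_step]
  have hρ : A.ρ f = ((pN ^ A.jU (A.can f)) (A.can f)).facet := by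
    unfold ρ; rw [if_neg h]
  have hζ : A.ζ f = -(A.jU (A.can f) : ℤ) := by unfold ζ; rw [if_neg h]
  -- the northern neighbour is canonical
  have hcn : A.cn (pN (A.can f)) := by
    rcases h1 with h1 | h1
    · -- type o: by coverage
      have hD : ¬ A.cn (((pN⁻¹ : Equiv.Perm P.FSt) ^ A.jD (A.can f)) (A.can f)) := by
        intro hh; exact h ⟨Or.inl h1, hh⟩
      obtain ⟨z, z1, g, z2, z3⟩ := A.cov f
      rcases le_or_gt z 0 with hz | hz
      · exfalso
        have hst : A.stopD (((pN⁻¹ : Equiv.Perm P.FSt) ^ (-z).toNat) (A.can f)) := by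
          rw [← zpow_natCast, Int.toNat_of_nonneg (by omega), inv_zpow', neg_neg, z2]
          exact A.stopD_of_wp z3
        have hle : A.jD (A.can f) ≤ (-z).toNat := Nat.sInf_le hst
        apply hD
        obtain ⟨g', hg'⟩ := z1 (-(A.jD (A.can f) : ℤ)) (by
          rw [Set.mem_uIcc]; right; constructor <;> omega)
        have : ((pN⁻¹ : Equiv.Perm P.FSt) ^ A.jD (A.can f)) (A.can f) = A.can g' := by
          rw [← zpow_natCast, inv_zpow', hg']
        rw [this]; exact A.cn_can g'
      · obtain ⟨g', hg'⟩ := z1 1 (by rw [Set.mem_uIcc]; left; constructor <;> omega)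
        rw [zpow_one] at hg'
        rw [hg']; exact A.cn_can g'
    · obtain ⟨g, g1, g2⟩ := A.hS f h1
      show A.cn ((A.can f).stN)
      rw [g1]; exact A.cn_can g
  set g := (pN (A.can f)).facet with hg
  have hcan : pN (A.can f) = A.can g := hcn
  have hst : (A.can f).stN = A.can g := hcan
  refine ⟨g, hst, ?_⟩
  rcases A.above h1 hst with hb | hb
  · have hPD : ¬ A.PD g := by
      intro hPg
      rcases hb with hb | hb
      · -- τ g = o, so τ f = o, and the search from `g` passes through `f`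
        have hfo : A.τ f = Ty.o := by
          rcases h1 with h1 | h1
          · exact h1
          · obtain ⟨g', k1, k2⟩ := A.hS f h1
            have : g' = g := A.can_inj (by rw [← k1, hst])
            subst this
            rw [hb] at k2; simp [Ty.goS] at k2
        have hns' := A.not_stopD (f := g) (Or.inl hb)
        have hback : pN⁻¹ (A.can g) = A.can f := by
          rw [← hst]; exact (pN : Equiv.Perm P.FSt).symm_apply_apply (A.can f)
        have hs' : A.jD (A.can g) = A.jD (pN⁻¹ (A.can g)) + 1 := srch_step hns' (A.ex_stop g).2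
        have h2 := hPg.2
        rw [hs', pow_step, hback] at h2
        exact h ⟨Or.inl hfo, h2⟩
      · exact Ty.frN_not _ hb hPg.1
    constructor
    · rw [hρ, hpf]
      unfold ρ
      rw [if_neg hPD, hcan]
    · rw [hζ, hstep, hcan]
      unfold ζ
      rw [if_neg hPD]
      push_cast; ring
  · obtain ⟨b1, b2⟩ := A.base_of_wp hb
    have h0 : A.jU (pN (A.can f)) = 0 := by rw [hcan]; exact srch_zero (A.stopU_of_wp hb)
    rw [b1, b2, hρ, hζ, hpf, hstep, h0]
    simp [hcan, A.can_facet]

end CellCurve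

end GridSolid

end Pool.Agent.Helper55.UNF
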