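import Pool.Agent.Helper55.UNF.Pat

/-!
Crossing systems: every facet is crossed by at most one strand from west to east and at most one
lane from south to north; at a crossing the two are smoothed according to the type of the lane.
A crossing system gives a pattern curve on the 5 by 5 refinement.
-/

namespace Pool.Agent.Helper55.UNF

/-- Types of lanes: none, to the north, to the south. -/
inductive Ln
  | z | n | s
  deriving DecidableEq

instance : Fintype Ln := ⟨{Ln.z, Ln.n, Ln.s}, by intro a; cases a <;> simp⟩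

/-- The sides of a facet. -/
inductive Prt
  | W | E | N | S
  deriving DecidableEq

instance : Fintype Prt := ⟨{Prt.W, Prt.E, Prt.N, Prt.S}, by intro a; cases a <;> simp⟩

/-- the possible configurations: west side used, east side used, lane over the north side, lane
over the south side -/
def okc : Bool → Bool → Ln → Ln → Bool
  | false, false, Ln.z, Ln.z => true
  | true, true, Ln.z, Ln.z => true
  | false, false, Ln.n, Ln.n => true
  | false, false, Ln.s, Ln.s => true
  | true, false, Ln.n, Ln.z => true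
  | true, false, Ln.z, Ln.s => true
  | false, true, Ln.s, Ln.z => true
  | false, true, Ln.z, Ln.n => true
  | true, true, Ln.n, Ln.n => true
  | true, true, Ln.s, Ln.s => true
  | _, _, _, _ => false

/-- a side is used -/
def usd (a b : Bool) (u v : Ln) : Prt → Bool
  | Prt.W => a
  | Prt.E => b
  | Prt.N => u != Ln.z
  | Prt.S => v != Ln.z

/-- the other end of the strand that uses a side -/
def mate : Bool → Bool → Ln → Ln → Prt → Prt
  | true, true, Ln.z, Ln.z, Prt.W => Prt.E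
  | true, true, Ln.z, Ln.z, Prt.E => Prt.W
  | false, false, Ln.n, Ln.n, Prt.N => Prt.S
  | false, false, Ln.n, Ln.n, Prt.S => Prt.N
  | false, false, Ln.s, Ln.s, Prt.N => Prt.S
  | false, false, Ln.s, Ln.s, Prt.S => Prt.N
  | true, false, Ln.n, Ln.z, Prt.W => Prt.N
  | true, false, Ln.n, Ln.z, Prt.N => Prt.W
  | true, false, Ln.z, Ln.s, Prt.W => Prt.S
  | true, false, Ln.z, Ln.s, Prt.S => Prt.W
  | false, true, Ln.s, Ln.z, Prt.N => Prt.E
  | false, true, Ln.s, Ln.z, Prt.E => Prt.N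
  | false, true, Ln.z, Ln.n, Prt.S => Prt.E
  | false, true, Ln.z, Ln.n, Prt.E => Prt.S
  | true, true, Ln.n, Ln.n, Prt.W => Prt.N
  | true, true, Ln.n, Ln.n, Prt.N => Prt.W
  | true, true, Ln.n, Ln.n, Prt.S => Prt.E
  | true, true, Ln.n, Ln.n, Prt.E => Prt.S
  | true, true, Ln.s, Ln.s, Prt.W => Prt.S
  | true, true, Ln.s, Ln.s, Prt.S => Prt.W
  | true, true, Ln.s, Ln.s, Prt.N => Prt.E
  | true, true, Ln.s, Ln.s, Prt.E => Prt.N
  | _, _, _, _, p => p

/-- the pattern of a configuration -/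
def pat : Bool → Bool → Ln → Ln → ℕ → ℕ → Ty
  -- straight
  | true, true, Ln.z, Ln.z, _, 2 => Ty.H
  -- lanes
  | false, false, Ln.n, Ln.n, 2, _ => Ty.N2
  | false, false, Ln.s, Ln.s, 2, _ => Ty.S2
  -- west to north
  | true, false, Ln.n, Ln.z, 0, 2 => Ty.H
  | true, false, Ln.n, Ln.z, 1, 2 => Ty.H
  | true, false, Ln.n, Ln.z, 2, 2 => Ty.N1
  | true, false, Ln.n, Ln.z, 2, 3 => Ty.N2
  | true, false, Ln.n, Ln.z, 2, 4 => Ty.N2
  -- west to south
  | true, false, Ln.z, Ln.s, 0, 2 => Ty.H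
  | true, false, Ln.z, Ln.s, 1, 2 => Ty.H
  | true, false, Ln.z, Ln.s, 2, 2 => Ty.S1
  | true, false, Ln.z, Ln.s, 2, 1 => Ty.S2
  | true, false, Ln.z, Ln.s, 2, 0 => Ty.S2
  -- north to east
  | false, true, Ln.s, Ln.z, 2, 4 => Ty.S2
  | false, true, Ln.s, Ln.z, 2, 3 => Ty.S2
  | false, true, Ln.s, Ln.z, 2, 2 => Ty.S3
  | false, true, Ln.s, Ln.z, 3, 2 => Ty.H
  | false, true, Ln.s, Ln.z, 4, 2 => Ty.H
  -- south to east
  | false, true, Ln.z, Ln.n, 2, 0 => Ty.N2
  | false, true, Ln.z, Ln.n, 2, 1 => Ty.N2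
  | false, true, Ln.z, Ln.n, 2, 2 => Ty.N3
  | false, true, Ln.z, Ln.n, 3, 2 => Ty.H
  | false, true, Ln.z, Ln.n, 4, 2 => Ty.H
  -- crossing with a lane to the north
  | true, true, Ln.n, Ln.n, 0, 2 => Ty.H
  | true, true, Ln.n, Ln.n, 1, 2 => Ty.N1
  | true, true, Ln.n, Ln.n, 1, 3 => Ty.N3
  | true, true, Ln.n, Ln.n, 2, 3 => Ty.N1
  | true, true, Ln.n, Ln.n, 2, 4 => Ty.N2
  | true, true, Ln.n, Ln.n, 2, 0 => Ty.N2
  | true, true, Ln.n, Ln.n, 2, 1 => Ty.N3
  | true, true, Ln.n, Ln.n, 3, 1 => Ty.N1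
  | true, true, Ln.n, Ln.n, 3, 2 => Ty.N3
  | true, true, Ln.n, Ln.n, 4, 2 => Ty.H
  -- crossing with a lane to the south
  | true, true, Ln.s, Ln.s, 0, 2 => Ty.H
  | true, true, Ln.s, Ln.s, 1, 2 => Ty.S1
  | true, true, Ln.s, Ln.s, 1, 1 => Ty.S3
  | true, true, Ln.s, Ln.s, 2, 1 => Ty.S1
  | true, true, Ln.s, Ln.s, 2, 0 => Ty.S2
  | true, true, Ln.s, Ln.s, 2, 4 => Ty.S2
  | true, true, Ln.s, Ln.s, 2, 3 => Ty.S3
  | true, true, Ln.s, Ln.s, 3, 3 => Ty.S1
  | true, true, Ln.s, Ln.s, 3, 2 => Ty.S3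
  | true, true, Ln.s, Ln.s, 4, 2 => Ty.H
  | _, _, _, _, _, _ => Ty.o

lemma pat_vN : ∀ a b u v, okc a b u v = true → ∀ x < 5, ∀ y < 4,
    (pat a b u v x y).goN = (pat a b u v x (y + 1)).frS := by decide

lemma pat_vS : ∀ a b u v, okc a b u v = true → ∀ x < 5, ∀ y < 4,
    (pat a b u v x y).frN = (pat a b u v x (y + 1)).goS := by decide

lemma pat_h : ∀ a b u v, okc a b u v = true → ∀ x < 4, ∀ y < 5,
    (pat a b u v x y).ep = (pat a b u v (x + 1) y).wp := by decide

lemma pat_N : ∀ a b u v, okc a b u v = true → ∀ x < 5,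
    (pat a b u v x 4).goN = decide (x = 2 ∧ u = Ln.n) ∧
    (pat a b u v x 4).frN = decide (x = 2 ∧ u = Ln.s) := by decide

lemma pat_S : ∀ a b u v, okc a b u v = true → ∀ x < 5,
    (pat a b u v x 0).frS = decide (x = 2 ∧ v = Ln.n) ∧
    (pat a b u v x 0).goS = decide (x = 2 ∧ v = Ln.s) := by decide

lemma pat_W : ∀ a b u v, okc a b u v = true → ∀ y < 5,
    (pat a b u v 0 y).wp = decide (y = 2 ∧ a = true) := by decide

lemma pat_E : ∀ a b u v, okc a b u v = true → ∀ y < 5,
    (pat a b u v 4 y).ep = decide (y = 2 ∧ b = true) := by decide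

lemma pat_cov : ∀ u v, okc true true u v = true → ∀ x < 5, ∃ y < 5,
    (pat true true u v x y).wp = true := by decide

/-- the cell at the middle of a side -/
def prtX : Prt → ℕ
  | Prt.W => 0
  | Prt.E => 4
  | _ => 2

/-- the cell at the middle of a side -/
def prtY : Prt → ℕ
  | Prt.S => 0
  | Prt.N => 4
  | _ => 2

lemma usd_mate : ∀ a b u v, okc a b u v = true → ∀ p, usd a b u v p = true →
    usd a b u v (mate a b u v p) = true ∧ mate a b u v (mate a b u v p) = p ∧
    mate a b u v p ≠ p := by decide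

/-- The strands inside a facet: cells on the same strand are linked. -/
lemma pat_links (a b : Bool) (u v : Ln) (hok : okc a b u v = true) (ψ : ℕ → ℕ → Prop)
    (hN : ∀ x < 5, ∀ y < 4, (pat a b u v x y).goN = true → (ψ x y ↔ ψ x (y + 1)))
    (hS : ∀ x < 5, ∀ y < 4, (pat a b u v x y).frN = true → (ψ x y ↔ ψ x (y + 1)))
    (hE : ∀ x < 4, ∀ y < 5, (pat a b u v x y).ep = true → (ψ x y ↔ ψ (x + 1) y)) :
    (∀ p, usd a b u v p = true → (ψ (prtX p) (prtY p) ↔
      ψ (prtX (mate a b u v p)) (prtY (mate a b u v p)))) ∧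
    (∀ x < 5, ∀ y < 5, pat a b u v x y ≠ Ty.o → ∃ p, usd a b u v p = true ∧
      (ψ x y ↔ ψ (prtX p) (prtY p))) := by
  have l5 : (0 : ℕ) < 5 ∧ (1 : ℕ) < 5 ∧ (2 : ℕ) < 5 ∧ (3 : ℕ) < 5 ∧ (4 : ℕ) < 5 := by decide
  have l4 : (0 : ℕ) < 4 ∧ (1 : ℕ) < 4 ∧ (2 : ℕ) < 4 ∧ (3 : ℕ) < 4 := by decide
  obtain ⟨a0, a1, a2, a3, a4⟩ := l5
  obtain ⟨b0, b1, b2, b3⟩ := l4
  cases a <;> cases b <;> cases u <;> cases v <;> first
    | exact absurd hok (by decide)
    | skip
  -- false false z z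
  · refine ⟨?_, ?_⟩
    · intro p hp; cases p <;> exact absurd hp (by decide)
    · intro x hx y hy h
      interval_cases x <;> interval_cases y <;> exact absurd rfl h
  -- false false n n
  · have h0 := hN 2 a2 0 b0 rfl
    have h1 := hN 2 a2 1 b1 rfl
    have h2 := hN 2 a2 2 b2 rfl
    have h3 := hN 2 a2 3 b3 rfl
    norm_num at h0 h1 h2 h3
    refine ⟨?_, ?_⟩
    · intro p hp
      cases p <;> first | exact absurd hp (by decide) | exact Iff.rfl | (simp only [mate, prtX, prtY]; tauto)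
    · intro x hx y hy h
      interval_cases x <;> interval_cases y <;> first
        | exact absurd rfl h
        | exact ⟨Prt.N, rfl, Iff.rfl⟩
        | exact ⟨Prt.N, rfl, by simp only [prtX, prtY]; tauto⟩
  -- false false s s
  · have h0 := hS 2 a2 0 b0 rfl
    have h1 := hS 2 a2 1 b1 rfl
    have h2 := hS 2 a2 2 b2 rfl
    have h3 := hS 2 a2 3 b3 rfl
    norm_num at h0 h1 h2 h3
    refine ⟨?_, ?_⟩
    · intro p hp
      cases p <;> first | exact absurd hp (by decide) | exact Iff.rfl | (simp only [mate, prtX, prtY]; tauto)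
    · intro x hx y hy h
      interval_cases x <;> interval_cases y <;> first
        | exact absurd rfl h
        | exact ⟨Prt.N, rfl, Iff.rfl⟩
        | exact ⟨Prt.N, rfl, by simp only [prtX, prtY]; tauto⟩
  -- false true z n
  · have h0 := hN 2 a2 0 b0 rfl
    have h1 := hN 2 a2 1 b1 rfl
    have h2 := hE 2 b2 2 a2 rfl
    have h3 := hE 3 b3 2 a2 rfl
    norm_num at h0 h1 h2 h3
    refine ⟨?_, ?_⟩
    · intro p hp
      cases p <;> first | exact absurd hp (by decide) | exact Iff.rfl | (simp only [mate, prtX, prtY]; tauto)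
    · intro x hx y hy h
      interval_cases x <;> interval_cases y <;> first
        | exact absurd rfl h
        | exact ⟨Prt.E, rfl, Iff.rfl⟩
        | exact ⟨Prt.E, rfl, by simp only [prtX, prtY]; tauto⟩
  -- false true s z
  · have h0 := hS 2 a2 2 b2 rfl
    have h1 := hS 2 a2 3 b3 rfl
    have h2 := hE 2 b2 2 a2 rfl
    have h3 := hE 3 b3 2 a2 rfl
    norm_num at h0 h1 h2 h3
    refine ⟨?_, ?_⟩
    · intro p hp
      cases p <;> first | exact absurd hp (by decide) | exact Iff.rfl | (simp only [mate, prtX, prtY]; tauto)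
    · intro x hx y hy h
      interval_cases x <;> interval_cases y <;> first
        | exact absurd rfl h
        | exact ⟨Prt.E, rfl, Iff.rfl⟩
        | exact ⟨Prt.E, rfl, by simp only [prtX, prtY]; tauto⟩
  -- true false z s
  · have h0 := hS 2 a2 0 b0 rfl
    have h1 := hS 2 a2 1 b1 rfl
    have h2 := hE 0 b0 2 a2 rfl
    have h3 := hE 1 b1 2 a2 rfl
    norm_num at h0 h1 h2 h3
    refine ⟨?_, ?_⟩
    · intro p hp
      cases p <;> first | exact absurd hp (by decide) | exact Iff.rfl | (simp only [mate, prtX, prtY]; tauto)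
    · intro x hx y hy h
      interval_cases x <;> interval_cases y <;> first
        | exact absurd rfl h
        | exact ⟨Prt.W, rfl, Iff.rfl⟩
        | exact ⟨Prt.W, rfl, by simp only [prtX, prtY]; tauto⟩
  -- true false n z
  · have h0 := hN 2 a2 2 b2 rfl
    have h1 := hN 2 a2 3 b3 rfl
    have h2 := hE 0 b0 2 a2 rfl
    have h3 := hE 1 b1 2 a2 rfl
    norm_num at h0 h1 h2 h3
    refine ⟨?_, ?_⟩
    · intro p hp
      cases p <;> first | exact absurd hp (by decide) | exact Iff.rfl | (simp only [mate, prtX, prtY]; tauto)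
    · intro x hx y hy h
      interval_cases x <;> interval_cases y <;> first
        | exact absurd rfl h
        | exact ⟨Prt.W, rfl, Iff.rfl⟩
        | exact ⟨Prt.W, rfl, by simp only [prtX, prtY]; tauto⟩
  -- true true z z
  · have h0 := hE 0 b0 2 a2 rfl
    have h1 := hE 1 b1 2 a2 rfl
    have h2 := hE 2 b2 2 a2 rfl
    have h3 := hE 3 b3 2 a2 rfl
    norm_num at h0 h1 h2 h3
    refine ⟨?_, ?_⟩
    · intro p hp
      cases p <;> first | exact absurd hp (by decide) | exact Iff.rfl | (simp only [mate, prtX, prtY]; tauto)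
    · intro x hx y hy h
      interval_cases x <;> interval_cases y <;> first
        | exact absurd rfl h
        | exact ⟨Prt.W, rfl, Iff.rfl⟩
        | exact ⟨Prt.W, rfl, by simp only [prtX, prtY]; tauto⟩
  -- true true n n
  · have h0 := hE 0 b0 2 a2 rfl
    have h1 := hN 1 a1 2 b2 rfl
    have h2 := hE 1 b1 3 a3 rfl
    have h3 := hN 2 a2 3 b3 rfl
    have k0 := hN 2 a2 0 b0 rfl
    have k1 := hE 2 b2 1 a1 rfl
    have k2 := hN 3 a3 1 b1 rfl
    have k3 := hE 3 b3 2 a2 rfl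
    norm_num at h0 h1 h2 h3 k0 k1 k2 k3
    refine ⟨?_, ?_⟩
    · intro p hp
      cases p <;> first
        | exact absurd hp (by decide)
        | (clear k0 k1 k2 k3; simp only [mate, prtX, prtY]; tauto)
        | (clear h0 h1 h2 h3; simp only [mate, prtX, prtY]; tauto)
    · intro x hx y hy h
      interval_cases x <;> interval_cases y <;> first
        | exact absurd rfl h
        | exact ⟨Prt.W, rfl, Iff.rfl⟩
        | exact ⟨Prt.W, rfl, by clear k0 k1 k2 k3; simp only [prtX, prtY]; tauto⟩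
        | exact ⟨Prt.E, rfl, Iff.rfl⟩
        | exact ⟨Prt.E, rfl, by clear h0 h1 h2 h3; simp only [prtX, prtY]; tauto⟩
  -- true true s s
  · have h0 := hE 0 b0 2 a2 rfl
    have h1 := hS 1 a1 1 b1 rfl
    have h2 := hE 1 b1 1 a1 rfl
    have h3 := hS 2 a2 0 b0 rfl
    have k0 := hS 2 a2 3 b3 rfl
    have k1 := hE 2 b2 3 a3 rfl
    have k2 := hS 3 a3 2 b2 rfl
    have k3 := hE 3 b3 2 a2 rfl
    norm_num at h0 h1 h2 h3 k0 k1 k2 k3
    refine ⟨?_, ?_⟩
    · intro p hp
      cases p <;> first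
        | exact absurd hp (by decide)
        | (clear k0 k1 k2 k3; simp only [mate, prtX, prtY]; tauto)
        | (clear h0 h1 h2 h3; simp only [mate, prtX, prtY]; tauto)
    · intro x hx y hy h
      interval_cases x <;> interval_cases y <;> first
        | exact absurd rfl h
        | exact ⟨Prt.W, rfl, Iff.rfl⟩
        | exact ⟨Prt.W, rfl, by clear k0 k1 k2 k3; simp only [prtX, prtY]; tauto⟩
        | exact ⟨Prt.E, rfl, Iff.rfl⟩
        | exact ⟨Prt.E, rfl, by clear h0 h1 h2 h3; simp only [prtX, prtY]; tauto⟩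

namespace GridSolid

variable (P : GridSolid)

/-- A crossing system. -/
structure Cross where
  can : P.Facet → P.FSt
  can_facet : ∀ f, (can f).facet = f
  /-- the west side is used -/
  a : P.Facet → Bool
  /-- the east side is used -/
  b : P.Facet → Bool
  /-- the lane over the north side -/
  u : P.Facet → Ln
  /-- the lane over the south side -/
  v : P.Facet → Ln
  ok : ∀ f, okc (a f) (b f) (u f) (v f) = true
  gN : ∀ f g, (can f).stN = can g → u f = v g
  gN' : ∀ f, (∀ g, (can f).stN ≠ can g) → u f = Ln.z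
  gS' : ∀ g, (∀ f, (can f).stN ≠ can g) → v g = Ln.z
  gE : ∀ f g, (can f).stE = can g → b f = a g
  gEr : ∀ f g, (can f).stE = (can g).r2 → b f = b g
  gWr : ∀ f g, (can f).r2.stE = can g → a f = a g
  gE' : ∀ f, (∀ g, (can f).stE ≠ can g ∧ (can f).stE ≠ (can g).r2) → b f = false
  gW' : ∀ f, (∀ g, (can f).r2.stE ≠ can g ∧ (can f).r2.stE ≠ (can g).r2) → a f = false
  cov : ∀ f, ∃ z : ℤ, (∀ y ∈ Set.uIcc 0 z, ∃ g, (pN ^ y) (can f) = can g) ∧
    ∃ g, (pN ^ z) (can f) = can g ∧ a g = true ∧ b g = true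
  conn : ∀ φ : P.Facet → Prt → Prop,
    (∀ f p, usd (a f) (b f) (u f) (v f) p = true →
      (φ f p ↔ φ f (mate (a f) (b f) (u f) (v f) p))) →
    (∀ f g, (can f).stN = can g → u f ≠ Ln.z → (φ f Prt.N ↔ φ g Prt.S)) →
    (∀ f g, (can f).stE = can g → b f = true → (φ f Prt.E ↔ φ g Prt.W)) →
    (∀ f g, (can f).stE = (can g).r2 → b f = true → (φ f Prt.E ↔ φ g Prt.E)) →
    (∀ f g, (can f).r2.stE = can g → a f = true → (φ f Prt.W ↔ φ g Prt.W)) →
    ∀ f p g q, usd (a f) (b f) (u f) (v f) p = true → usd (a g) (b g) (u g) (v g) q = true →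
      (φ f p ↔ φ g q)
  ne : Nonempty P.Facet

namespace Cross

variable {P} (A : P.Cross)

/-- the pattern table -/
def T (f : P.Facet) (x y : ℕ) : Ty := pat (A.a f) (A.b f) (A.u f) (A.v f) x y

/-- the pattern curve of a crossing system -/
def toPat : P.Pat 5 where
  hk := by norm_num
  can := A.can
  can_facet := A.can_facet
  T := A.T
  vN := fun f x y hx hy => pat_vN _ _ _ _ (A.ok f) x hx y (by omega)
  vS := fun f x y hx hy => pat_vS _ _ _ _ (A.ok f) x hx y (by omega)
  hh := fun f x y hx hy => pat_h _ _ _ _ (A.ok f) x (by omega) y hy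
  bN := fun f g h x hx => by
    show (pat (A.a f) (A.b f) (A.u f) (A.v f) x 4).goN = (pat (A.a g) (A.b g) (A.u g) (A.v g) x 0).frS
    rw [(pat_N _ _ _ _ (A.ok f) x hx).1, (pat_S _ _ _ _ (A.ok g) x hx).1, A.gN f g h]
  bS := fun f g h x hx => by
    show (pat (A.a f) (A.b f) (A.u f) (A.v f) x 4).frN = (pat (A.a g) (A.b g) (A.u g) (A.v g) x 0).goS
    rw [(pat_N _ _ _ _ (A.ok f) x hx).2, (pat_S _ _ _ _ (A.ok g) x hx).2, A.gN f g h]
  bN' := fun f h x hx => by
    show (pat (A.a f) (A.b f) (A.u f) (A.v f) x 4).goN = false ∧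
      (pat (A.a f) (A.b f) (A.u f) (A.v f) x 4).frN = false
    rw [(pat_N _ _ _ _ (A.ok f) x hx).1, (pat_N _ _ _ _ (A.ok f) x hx).2, A.gN' f h]
    simp
  bS' := fun g h x hx => by
    show (pat (A.a g) (A.b g) (A.u g) (A.v g) x 0).frS = false ∧
      (pat (A.a g) (A.b g) (A.u g) (A.v g) x 0).goS = false
    rw [(pat_S _ _ _ _ (A.ok g) x hx).1, (pat_S _ _ _ _ (A.ok g) x hx).2, A.gS' g h]
    simp
  bE := fun f g h y hy => by
    show (pat (A.a f) (A.b f) (A.u f) (A.v f) 4 y).ep = (pat (A.a g) (A.b g) (A.u g) (A.v g) 0 y).wp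
    rw [pat_E _ _ _ _ (A.ok f) y hy, pat_W _ _ _ _ (A.ok g) y hy, A.gE f g h]
  bEr := fun f g h y hy => by
    show (pat (A.a f) (A.b f) (A.u f) (A.v f) 4 y).ep =
      (pat (A.a g) (A.b g) (A.u g) (A.v g) 4 (5 - 1 - y)).ep
    rw [pat_E _ _ _ _ (A.ok f) y hy, pat_E _ _ _ _ (A.ok g) _ (by omega), A.gEr f g h]
    have : (y = 2) ↔ (5 - 1 - y = 2) := by omega
    simp only [this]
  bWr := fun f g h y hy => by
    show (pat (A.a f) (A.b f) (A.u f) (A.v f) 0 y).wp =
      (pat (A.a g) (A.b g) (A.u g) (A.v g) 0 (5 - 1 - y)).wp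
    rw [pat_W _ _ _ _ (A.ok f) y hy, pat_W _ _ _ _ (A.ok g) _ (by omega), A.gWr f g h]
    have : (y = 2) ↔ (5 - 1 - y = 2) := by omega
    simp only [this]
  bE' := fun f h y hy => by
    show (pat (A.a f) (A.b f) (A.u f) (A.v f) 4 y).ep = false
    rw [pat_E _ _ _ _ (A.ok f) y hy, A.gE' f h]
    simp
  bW' := fun f h y hy => by
    show (pat (A.a f) (A.b f) (A.u f) (A.v f) 0 y).wp = false
    rw [pat_W _ _ _ _ (A.ok f) y hy, A.gW' f h]
    simp
  cov := fun f x hx => by
    obtain ⟨z, h1, g, h2, h3, h4⟩ := A.cov f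
    refine ⟨z, h1, g, h2, ?_⟩
    have hok := A.ok g
    rw [h3, h4] at hok
    obtain ⟨y, hy, h5⟩ := pat_cov _ _ hok x hx
    refine ⟨y, hy, ?_⟩
    show (pat (A.a g) (A.b g) (A.u g) (A.v g) x y).wp = true
    rw [h3, h4]
    exact h5
  conn := fun ψ c1 c2 c3 c4 c5 c6 c7 c8 => by
    have hl : ∀ f, _ := fun f => pat_links (A.a f) (A.b f) (A.u f) (A.v f) (A.ok f) (ψ f)
      (fun x hx y hy h => c1 f x y hx (by omega) h)
      (fun x hx y hy h => c2 f x y hx (by omega) h)
      (fun x hx y hy h => c3 f x y (by omega) hy h)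
    have main := A.conn (fun f p => ψ f (prtX p) (prtY p)) (fun f p hp => (hl f).1 p hp) ?_ ?_ ?_ ?_
    · intro f x y g x' y' hx hy hx' hy' hf hg
      obtain ⟨p, hp, h1⟩ := (hl f).2 x hx y hy hf
      obtain ⟨q, hq, h2⟩ := (hl g).2 x' hx' y' hy' hg
      rw [h1, h2]
      exact main f p g q hp hq
    · intro f g h hu
      show ψ f 2 4 ↔ ψ g 2 0
      have hcase : A.u f = Ln.n ∨ A.u f = Ln.s := by
        revert hu; cases A.u f <;> simp
      rcases hcase with hc | hc
      · apply c4 f g h 2 (by norm_num)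
        show (pat (A.a f) (A.b f) (A.u f) (A.v f) 2 4).goN = true
        rw [(pat_N _ _ _ _ (A.ok f) 2 (by norm_num)).1, hc]
        simp
      · apply c5 f g h 2 (by norm_num)
        show (pat (A.a f) (A.b f) (A.u f) (A.v f) 2 4).frN = true
        rw [(pat_N _ _ _ _ (A.ok f) 2 (by norm_num)).2, hc]
        simp
    · intro f g h hb
      show ψ f 4 2 ↔ ψ g 0 2
      apply c6 f g h 2 (by norm_num)
      show (pat (A.a f) (A.b f) (A.u f) (A.v f) 4 2).ep = true
      rw [pat_E _ _ _ _ (A.ok f) 2 (by norm_num), hb]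
      simp
    · intro f g h hb
      show ψ f 4 2 ↔ ψ g 4 2
      apply c7 f g h 2 (by norm_num)
      show (pat (A.a f) (A.b f) (A.u f) (A.v f) 4 2).ep = true
      rw [pat_E _ _ _ _ (A.ok f) 2 (by norm_num), hb]
      simp
    · intro f g h ha
      show ψ f 0 2 ↔ ψ g 0 2
      apply c8 f g h 2 (by norm_num)
      show (pat (A.a f) (A.b f) (A.u f) (A.v f) 0 2).wp = true
      rw [pat_W _ _ _ _ (A.ok f) 2 (by norm_num), ha]
      simp
  ne := A.ne

/-- **A crossing system gives an edge unfolding of the 5 by 5 refinement.** -/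
theorem hasEdgeUnfolding (A : P.Cross) : (P.refine 5 (by norm_num)).HasEdgeUnfolding :=
  A.toPat.hasEdgeUnfolding

end Cross

end GridSolid

end Pool.Agent.Helper55.UNF
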