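import Mathlib

/-!
Orthogonal polyhedra in grid form, their refinements and their edge unfoldings.

A solid is a finite union of boxes of a (non uniform) box grid.  Cells are indexed by integer
triples; the box with index `c` is the product of the intervals `[crd a (c a), crd a (c a + 1)]`.
-/

namespace Pool.Agent.Helper55.UNF

/-- A finite union of boxes of a grid in space: `crd a i` is the position of the `i`-th grid plane
orthogonal to the axis `a`, and `cells` is the set of (indices of) solid boxes. -/
structure GridSolid where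
  crd : Fin 3 → ℤ → ℝ
  mono : ∀ a, StrictMono (crd a)
  cells : Finset (Fin 3 → ℤ)

/-- The six axis directions: an axis and a sign (`true` is the positive direction). -/
abbrev Dir := Fin 3 × Bool

/-- The neighbouring cell in direction `d`. -/
def shift (c : Fin 3 → ℤ) (d : Dir) : Fin 3 → ℤ :=
  Function.update c d.1 (c d.1 + (if d.2 then 1 else -1))

namespace GridSolid

variable (P : GridSolid)

/-- `(c, d)` is a facet of the surface: the box `c` is solid and its neighbour in direction `d`
is not.  The outward normal of the facet is `d`. -/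
def IsFacet (t : (Fin 3 → ℤ) × Dir) : Prop :=
  t.1 ∈ P.cells ∧ shift t.1 t.2 ∉ P.cells

instance : DecidablePred P.IsFacet := fun t => by unfold IsFacet; infer_instance

/-- The rectangles of the grid that make up the surface of the solid. -/
def Facet := {t : (Fin 3 → ℤ) × Dir // P.IsFacet t}

instance : DecidableEq P.Facet :=
  inferInstanceAs (DecidableEq {t : (Fin 3 → ℤ) × Dir // P.IsFacet t})

/-- The closed rectangle in space of a facet. -/
def rect (t : (Fin 3 → ℤ) × Dir) : Set (EuclideanSpace ℝ (Fin 3)) :=
  {p | p t.2.1 = P.crd t.2.1 (t.1 t.2.1 + (if t.2.2 then 1 else 0)) ∧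
    ∀ b, b ≠ t.2.1 → P.crd b (t.1 b) ≤ p b ∧ p b ≤ P.crd b (t.1 b + 1)}

/-- The closed grid edge parallel to the axis `a` that starts at the grid point `v`. -/
def gridEdge (a : Fin 3) (v : Fin 3 → ℤ) : Set (EuclideanSpace ℝ (Fin 3)) :=
  {p | (P.crd a (v a) ≤ p a ∧ p a ≤ P.crd a (v a + 1)) ∧ ∀ b, b ≠ a → p b = P.crd b (v b)}

/-- Two facets are adjacent: they are different and share a grid edge. -/
def Adjacent (f g : P.Facet) : Prop :=
  f ≠ g ∧ ∃ a v, P.gridEdge a v ⊆ P.rect f.1 ∩ P.rect g.1

/-- The adjacency graph of the facets of the surface. -/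
def surfaceGraph : SimpleGraph P.Facet where
  Adj := P.Adjacent
  symm := ⟨fun f g h => ⟨h.1.symm, by
    obtain ⟨a, v, hv⟩ := h.2
    exact ⟨a, v, fun p hp => ⟨(hv hp).2, (hv hp).1⟩⟩⟩⟩
  loopless := ⟨fun f h => h.1 rfl⟩

/-- The eight boxes around the grid point `v`: `corner v ε` is the box on the negative side of the
plane `a` through `v` if `ε a = false`, and on the positive side if `ε a = true`. -/
def corner (v : Fin 3 → ℤ) (ε : Fin 3 → Bool) : Fin 3 → ℤ :=
  fun a => if ε a then v a else v a - 1

/-- The graph of the cube: two sign vectors are adjacent if they differ in exactly one place. -/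
def cubeGraph : SimpleGraph (Fin 3 → Bool) where
  Adj := fun ε δ => ∃ a, ε a ≠ δ a ∧ ∀ b, b ≠ a → ε b = δ b
  symm := ⟨fun ε δ h => by
    obtain ⟨a, h1, h2⟩ := h
    exact ⟨a, h1.symm, fun b hb => (h2 b hb).symm⟩⟩
  loopless := ⟨fun ε h => by obtain ⟨a, h1, -⟩ := h; exact h1 rfl⟩

/-- The surface is a closed 2-manifold.  At every grid edge the four boxes around it are never
alternately solid and void, and at every grid point the solid ones among the eight boxes around it
are connected through common faces, and so are the void ones. -/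
def IsManifold : Prop :=
  (∀ (c : Fin 3 → ℤ) (a b : Fin 3) (s t : Bool), a ≠ b →
    c ∈ P.cells → shift (shift c (a, s)) (b, t) ∈ P.cells →
      shift c (a, s) ∈ P.cells ∨ shift c (b, t) ∈ P.cells) ∧
  (∀ v : Fin 3 → ℤ,
    (cubeGraph.induce {ε | corner v ε ∈ P.cells}).Preconnected ∧
    (cubeGraph.induce {ε | corner v ε ∉ P.cells}).Preconnected)

/-- An orthogonal polyhedron in grid form: the surface is a connected closed 2-manifold. -/
def IsOrthogonalPolyhedron : Prop :=
  P.IsManifold ∧ P.surfaceGraph.Connected

/-- The grid point `v` is a vertex of the polyhedron: the solid pattern of the eight boxes around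
`v` depends on all three coordinates (so that at least three faces meet at `v`). -/
def IsVertex (v : Fin 3 → ℤ) : Prop :=
  ∀ a : Fin 3, ∃ ε : Fin 3 → Bool,
    ¬ (corner v (Function.update ε a true) ∈ P.cells ↔
       corner v (Function.update ε a false) ∈ P.cells)

/-- The grid is the vertex grid of the polyhedron: every grid plane that touches the solid passes
through a vertex of the polyhedron. -/
def IsVertexGrid : Prop :=
  ∀ (a : Fin 3) (i : ℤ), (∃ c ∈ P.cells, c a = i ∨ c a + 1 = i) → ∃ v, P.IsVertex v ∧ v a = i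

/-- The `k` by `k` refinement: every interval of the grid is divided into `k` equal parts. -/
noncomputable def refine (k : ℕ) (hk : 0 < k) : GridSolid where
  crd := fun a n => P.crd a (n / (k : ℤ)) +
    ((n % (k : ℤ) : ℤ) : ℝ) / (k : ℝ) * (P.crd a (n / (k : ℤ) + 1) - P.crd a (n / (k : ℤ)))
  mono := by
    intro a m n hmn
    have hk' : (0 : ℤ) < k := by exact_mod_cast hk
    have hkR : (0 : ℝ) < k := by exact_mod_cast hk
    have hm0 := Int.emod_nonneg m hk'.ne'
    have hm1 := Int.emod_lt_of_pos m hk'
    have hn0 := Int.emod_nonneg n hk'.ne'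
    have hn1 := Int.emod_lt_of_pos n hk'
    have hdm := Int.mul_ediv_add_emod m k
    have hdn := Int.mul_ediv_add_emod n k
    have step : ∀ i : ℤ, P.crd a i < P.crd a (i + 1) := fun i => P.mono a (by omega)
    rcases lt_trichotomy (m / (k : ℤ)) (n / (k : ℤ)) with h | h | h
    · have h1 : P.crd a (m / (k : ℤ) + 1) ≤ P.crd a (n / (k : ℤ)) :=
        (P.mono a).monotone (by omega)
      have h2 : ((m % (k : ℤ) : ℤ) : ℝ) / (k : ℝ) < 1 := by
        rw [div_lt_one hkR]; exact_mod_cast hm1
      have h3 : (0 : ℝ) ≤ ((n % (k : ℤ) : ℤ) : ℝ) / (k : ℝ) := by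
        apply div_nonneg _ hkR.le; exact_mod_cast hn0
      have h4 := step (m / (k : ℤ))
      have h5 := step (n / (k : ℤ))
      have h6 : ((m % (k : ℤ) : ℤ) : ℝ) / (k : ℝ) *
          (P.crd a (m / (k : ℤ) + 1) - P.crd a (m / (k : ℤ))) <
          (P.crd a (m / (k : ℤ) + 1) - P.crd a (m / (k : ℤ))) := by
        nlinarith
      have h7 : 0 ≤ ((n % (k : ℤ) : ℤ) : ℝ) / (k : ℝ) *
          (P.crd a (n / (k : ℤ) + 1) - P.crd a (n / (k : ℤ))) := by
        apply mul_nonneg h3; linarith
      show _ < _
      linarith
    · have hlt : m % (k : ℤ) < n % (k : ℤ) := by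
        rw [h] at hdm; omega
      have h2 : ((m % (k : ℤ) : ℤ) : ℝ) / (k : ℝ) < ((n % (k : ℤ) : ℤ) : ℝ) / (k : ℝ) := by
        apply div_lt_div_of_pos_right _ hkR; exact_mod_cast hlt
      have h4 := step (n / (k : ℤ))
      show P.crd a (m / (k : ℤ)) + ((m % (k : ℤ) : ℤ) : ℝ) / (k : ℝ) *
        (P.crd a (m / (k : ℤ) + 1) - P.crd a (m / (k : ℤ))) < _
      rw [h]
      nlinarith
    · exfalso
      have := Int.ediv_le_ediv hk' hmn.le
      omega
  cells := P.cells.biUnion fun c =>
    Fintype.piFinset fun a => Finset.Ico ((k : ℤ) * c a) ((k : ℤ) * c a + k)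

/-- An edge unfolding: a spanning tree `T` of the adjacency graph of the facets (the surface is cut
along all grid edges not crossed by `T`) and, for every facet, an isometric placement in the plane,
such that facets adjacent in `T` stay glued along their common edge and different facets have
disjoint interiors in the plane. -/
def HasEdgeUnfolding : Prop :=
  ∃ (T : SimpleGraph P.Facet)
    (u : P.Facet → EuclideanSpace ℝ (Fin 3) → EuclideanSpace ℝ (Fin 2)),
    T.IsTree ∧ T ≤ P.surfaceGraph ∧
    (∀ f, ∀ p ∈ P.rect f.1, ∀ q ∈ P.rect f.1, dist (u f p) (u f q) = dist p q) ∧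
    (∀ f g, T.Adj f g → ∀ p ∈ P.rect f.1 ∩ P.rect g.1, u f p = u g p) ∧
    (∀ f g, f ≠ g → Disjoint (interior (u f '' P.rect f.1)) (interior (u g '' P.rect g.1)))

end GridSolid

end Pool.Agent.Helper55.UNF
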