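import Pool.Agent.Helper55.UNF.Place

/-!
The permutations of the oriented facets of a solid given by the steps east, north and by turning
the frame.
-/

namespace Pool.Agent.Helper55.UNF

namespace GridSolid

variable (P : GridSolid)

lemma stepE_isFacet (s : St) (hs : P.IsFacet (s.c, s.d)) (hde : s.d.1 ≠ s.e.1) :
    P.IsFacet ((s.stepE P).c, (s.stepE P).d) := by
  obtain ⟨h1, h2⟩ := hs
  simp only at h1 h2
  unfold St.stepE
  split_ifs with a b
  · refine ⟨a, ?_⟩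
    simp only
    rw [shift_comm _ (show s.e.1 ≠ s.d.1 from hde.symm)]
    rw [shift_opp]
    exact h2
  · exact ⟨b, a⟩
  · exact ⟨h1, b⟩

lemma stepW_stepE (s : St) (hs : P.IsFacet (s.c, s.d)) (hde : s.d.1 ≠ s.e.1) :
    ((s.stepE P).rot2).stepE P = s.rot2 := by
  obtain ⟨h1, h2⟩ := hs
  simp only at h1 h2
  obtain ⟨c, d, e⟩ := s
  simp only at h1 h2 hde
  have hed : e.1 ≠ d.1 := hde.symm
  unfold St.stepE St.rot2
  by_cases a : shift (shift c e) d ∈ P.cells
  · simp only [if_pos a]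
    have k1 : shift (shift (shift (shift c e) d) (opp d)) (opp e) = c := by
      rw [shift_opp, shift_opp]
    rw [if_pos (by rw [k1]; exact h1), k1, opp_opp]
  · simp only [if_neg a]
    by_cases b : shift c e ∈ P.cells
    · simp only [if_pos b]
      have k1 : shift (shift (shift c e) (opp e)) d = shift c d := by rw [shift_opp]
      rw [if_neg (by rw [k1]; exact h2), shift_opp, if_pos h1]
    · simp only [if_neg b]
      have k1 : shift (shift c (opp (opp d))) e = shift (shift c e) d := by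
        rw [opp_opp, shift_comm _ hde]
      have k2 : shift c (opp (opp d)) = shift c d := by rw [opp_opp]
      rw [if_neg (by rw [k1]; exact a), if_neg (by rw [k2]; exact h2), opp_opp]

/-- oriented facets -/
def FSt := {s : St // P.IsFacet (s.c, s.d) ∧ s.d.1 ≠ s.e.1}

instance : DecidableEq P.FSt :=
  inferInstanceAs (DecidableEq {s : St // P.IsFacet (s.c, s.d) ∧ s.d.1 ≠ s.e.1})

variable {P}

/-- the facet of an oriented facet -/
def FSt.facet (s : P.FSt) : P.Facet := ⟨(s.1.c, s.1.d), s.2.1⟩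

lemma FSt.ext' {s t : P.FSt} (h : s.1 = t.1) : s = t := Subtype.ext h

/-- turn by a half turn -/
def FSt.r2 (s : P.FSt) : P.FSt := ⟨s.1.rot2, s.2.1, s.2.2⟩

/-- turn to the left -/
def FSt.rL (s : P.FSt) : P.FSt := ⟨s.1.rotL, s.2.1, (cross_axis_left _ _ s.2.2).symm⟩

/-- turn to the right -/
def FSt.rR (s : P.FSt) : P.FSt := ⟨s.1.rotR, s.2.1, (cross_axis_left _ _ s.2.2).symm⟩

@[simp] lemma FSt.r2_r2 (s : P.FSt) : s.r2.r2 = s := by
  apply FSt.ext'
  obtain ⟨⟨c, d, e⟩, h⟩ := s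
  simp [FSt.r2, St.rot2]

lemma cross_cross' (d e : Dir) (h : d.1 ≠ e.1) : opp (cross d (cross d e)) = e := by
  rw [cross_cross _ _ h, opp_opp]

@[simp] lemma FSt.rL_rR (s : P.FSt) : s.rL.rR = s := by
  apply FSt.ext'
  obtain ⟨⟨c, d, e⟩, h⟩ := s
  simp only [FSt.rL, FSt.rR, St.rotL, St.rotR]
  rw [cross_cross' d e h.2]

@[simp] lemma FSt.rR_rL (s : P.FSt) : s.rR.rL = s := by
  apply FSt.ext'
  obtain ⟨⟨c, d, e⟩, h⟩ := s
  simp only [FSt.rL, FSt.rR, St.rotL, St.rotR]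
  rw [cross_opp_cross d e h.2]

lemma FSt.rL_rL (s : P.FSt) : s.rL.rL = s.r2 := by
  apply FSt.ext'
  obtain ⟨⟨c, d, e⟩, h⟩ := s
  simp only [FSt.rL, FSt.r2, St.rotL, St.rot2]
  rw [cross_cross d e h.2]

lemma FSt.rR_rR (s : P.FSt) : s.rR.rR = s.r2 := by
  have := FSt.rL_rL s.rR.rR
  rw [FSt.rR_rL, FSt.rR_rL] at this
  rw [← FSt.r2_r2 s.rR.rR, ← this]

lemma FSt.rL_r2 (s : P.FSt) : s.rL.r2 = s.rR := by
  rw [← FSt.rR_rR, FSt.rL_rR]

lemma FSt.rR_r2 (s : P.FSt) : s.rR.r2 = s.rL := by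
  rw [← FSt.rL_rL, FSt.rR_rL]

lemma FSt.r2_rL (s : P.FSt) : s.r2.rL = s.rR := by
  rw [← FSt.rR_rR, FSt.rR_rL]

lemma FSt.r2_rR (s : P.FSt) : s.r2.rR = s.rL := by
  rw [← FSt.rL_rL, FSt.rL_rR]

@[simp] lemma FSt.facet_r2 (s : P.FSt) : s.r2.facet = s.facet := rfl
@[simp] lemma FSt.facet_rL (s : P.FSt) : s.rL.facet = s.facet := rfl
@[simp] lemma FSt.facet_rR (s : P.FSt) : s.rR.facet = s.facet := rfl

/-- the east step -/
def FSt.stE (s : P.FSt) : P.FSt :=
  ⟨s.1.stepE P, P.stepE_isFacet s.1 s.2.1 s.2.2, P.stepE_perp s.1 s.2.2⟩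

lemma FSt.stE_inv (s : P.FSt) : s.stE.r2.stE = s.r2 :=
  FSt.ext' (P.stepW_stepE s.1 s.2.1 s.2.2)

/-- the east step as a permutation -/
def pE : Equiv.Perm P.FSt where
  toFun := FSt.stE
  invFun := fun s => s.r2.stE.r2
  left_inv := fun s => by simp [FSt.stE_inv]
  right_inv := fun s => by
    show (s.r2.stE.r2).stE = s
    rw [FSt.stE_inv]; simp

/-- the north step -/
def FSt.stN (s : P.FSt) : P.FSt := s.rL.stE.rR

/-- the north step as a permutation -/
def pN : Equiv.Perm P.FSt where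
  toFun := FSt.stN
  invFun := fun s => s.r2.stN.r2
  left_inv := fun s => by
    show (s.rL.stE.rR).r2.rL.stE.rR.r2 = s
    rw [FSt.r2_rL, FSt.rR_rR, FSt.stE_inv, FSt.rR_r2, FSt.r2_rL, FSt.rL_rR]
  right_inv := fun s => by
    show ((s.r2).rL.stE.rR.r2).rL.stE.rR = s
    rw [FSt.rR_r2, FSt.rL_rL, FSt.stE_inv, FSt.r2_rR, FSt.r2_rL, FSt.rR_rL]

lemma FSt.stN_inv (s : P.FSt) : s.stN.r2.stN = s.r2 := by
  have h2 : s.stN.r2.stN.r2 = s := pN.left_inv s
  have h3 := congrArg FSt.r2 h2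
  simpa using h3

@[simp] lemma pE_apply (s : P.FSt) : pE s = s.stE := rfl
@[simp] lemma pN_apply (s : P.FSt) : pN s = s.stN := rfl
lemma pE_symm_apply (s : P.FSt) : pE.symm s = s.r2.stE.r2 := rfl
lemma pN_symm_apply (s : P.FSt) : pN.symm s = s.r2.stN.r2 := rfl

/-- the north step keeps the east direction -/
lemma FSt.stN_e (s : P.FSt) : s.stN.1.e = s.1.e := by
  have h3 := P.stepE_n s.1.rotL (cross_axis_left _ _ s.2.2).symm
  show opp (cross (s.1.rotL.stepE P).d (s.1.rotL.stepE P).e) = s.1.e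
  have : cross (s.1.rotL.stepE P).d (s.1.rotL.stepE P).e = cross s.1.rotL.d s.1.rotL.e := h3
  rw [this]
  exact cross_cross' _ _ s.2.2

/-- the north step keeps the coordinate in the east direction -/
lemma FSt.stN_c (s : P.FSt) : s.stN.1.c s.1.e.1 = s.1.c s.1.e.1 := by
  have g2 := P.stepE_third s.1.rotL (a := s.1.e.1) s.2.2.symm (cross_axis_right _ _ s.2.2).symm
  exact g2

lemma FSt.stE_facet_ne (s : P.FSt) : s.stE.facet ≠ s.facet := by
  intro h
  have h1 := (P.stepE_share s.1 s.2.2).1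
  apply h1
  have := congrArg Subtype.val h
  exact this.symm

lemma FSt.stN_facet_ne (s : P.FSt) : s.stN.facet ≠ s.facet := by
  intro h
  have h1 : s.rL.stE.facet ≠ s.rL.facet := FSt.stE_facet_ne s.rL
  exact h1 h

lemma FSt.adj_stE (s : P.FSt) : P.Adjacent s.facet s.stE.facet := by
  obtain ⟨h1, a, v, hv⟩ := P.stepE_share s.1 s.2.2
  exact ⟨(FSt.stE_facet_ne s).symm, a, v, hv⟩

instance : Finite P.FSt := by
  apply Finite.of_injective (β := P.Facet × Dir) (fun s => (s.facet, s.1.e))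
  intro s t h
  simp only [Prod.mk.injEq] at h
  apply FSt.ext'
  obtain ⟨⟨c, d, e⟩, hs⟩ := s
  obtain ⟨⟨c', d', e'⟩, ht⟩ := t
  have h1 := congrArg Subtype.val h.1
  simp only [FSt.facet, Prod.mk.injEq] at h1
  obtain ⟨rfl, rfl⟩ := h1
  obtain rfl := h.2
  rfl

end GridSolid

end Pool.Agent.Helper55.UNF
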