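import Pool.Agent.Helper55.UNF.Layout

/-!
Layouts in which some facets are attached to their eastern or western neighbour.
-/

namespace Pool.Agent.Helper55.UNF

namespace GridSolid

variable {P : GridSolid}

/-- neighbours in the east direction have the same length in the north direction -/
lemma lenN_stE (s : P.FSt) : lenN s.stE = lenN s := by
  unfold lenN
  have hn : s.stE.1.n = s.1.n := P.stepE_n s.1 s.2.2
  rw [hn]
  apply P.len_congr
  have h1 : s.1.n.1 ≠ s.1.d.1 := cross_axis_left _ _ s.2.2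
  have h2 : s.1.n.1 ≠ s.1.e.1 := cross_axis_right _ _ s.2.2
  exact P.stepE_third s.1 h1 h2

/-- Parallel vertical lines have the same heights. -/
lemma hgt_par {s t : P.FSt} {z : ℤ}
    (h : ∀ i ∈ Set.uIcc 0 z, ((pN ^ i) s).stE = (pN ^ i) t) : hgt s z = hgt t z := by
  have key : ∀ i ∈ Set.uIcc 0 z, lenN ((pN ^ i) s) = lenN ((pN ^ i) t) := by
    intro i hi
    rw [← h i hi, lenN_stE]
  unfold hgt
  congr 1
  · apply Finset.sum_congr rfl
    intro i hi
    rw [Finset.mem_Ico] at hi
    apply key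
    rw [Set.mem_uIcc]
    left; constructor <;> omega
  · apply Finset.sum_congr rfl
    intro i hi
    rw [Finset.mem_Ico] at hi
    apply key
    rw [Set.mem_uIcc]
    right; constructor <;> omega

variable (P)

/-- A layout with lateral attachments. -/
structure LLayout where
  n : ℕ
  pos : 0 < n
  w : ℕ → P.FSt
  ex : ℕ → ℤ
  glue : ∀ i, i + 1 < n → ((pN ^ ex i) (w i)).stE = w (i + 1)
  b : P.Facet → ℕ
  hb : ∀ f, b f < n
  z : P.Facet → ℤ
  hz : ∀ f, ((pN ^ z f) (w (b f))).facet = f
  base : ∀ i < n, b (w i).facet = i ∧ z (w i).facet = 0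
  exit : ∀ i < n, b ((pN ^ ex i) (w i)).facet = i ∧ z ((pN ^ ex i) (w i)).facet = ex i
  /-- the lean facets -/
  le : P.Facet → Prop
  ld : P.Facet → ℕ
  exit_le : ∀ i < n, ¬ le ((pN ^ ex i) (w i)).facet
  down : ∀ f, ¬ le f → 0 < z f → ∃ g, ¬ le g ∧ b g = b f ∧ z g = z f - 1
  up : ∀ f, ¬ le f → z f < 0 → ∃ g, ¬ le g ∧ b g = b f ∧ z g = z f + 1
  att : ∀ f, le f → ∃ g, (le g → ld g < ld f) ∧
    ((b g = b f + 1 ∧ z g = z f ∧ ex (b f) = 0 ∧
        ∀ i ∈ Set.uIcc 0 (z f), ((pN ^ i) (w (b f))).stE = (pN ^ i) (w (b g))) ∨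
      (b f = b g + 1 ∧ z g = z f ∧ ex (b g) = 0 ∧
        ∀ i ∈ Set.uIcc 0 (z f), ((pN ^ i) (w (b g))).stE = (pN ^ i) (w (b f))))

namespace LLayout

variable {P} (A : P.LLayout)

/-- the oriented facet of a facet -/
noncomputable def or (f : P.Facet) : P.FSt := (pN ^ A.z f) (A.w (A.b f))

lemma or_facet (f : P.Facet) : (A.or f).facet = f := A.hz f

lemma or_eq {f : P.Facet} {i : ℕ} {z : ℤ} (h1 : A.b f = i) (h2 : A.z f = z) :
    A.or f = (pN ^ z) (A.w i) := by
  unfold or; rw [h1, h2]

/-- the height of the zeroth facet of a line -/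
noncomputable def Y : ℕ → ℝ
  | 0 => 0
  | i + 1 => Y i + hgt (A.w i) (A.ex i)

/-- the width of a line -/
noncomputable def wid (i : ℕ) : ℝ := P.len (A.w i).1.c (A.w i).1.e

lemma or_c (f : P.Facet) : (A.or f).1.c = f.1.1 := congrArg (fun g : P.Facet => g.1.1) (A.hz f)
lemma or_d (f : P.Facet) : (A.or f).1.d = f.1.2 := congrArg (fun g : P.Facet => g.1.2) (A.hz f)
lemma or_e (f : P.Facet) : (A.or f).1.e = (A.w (A.b f)).1.e := pN_zpow_e _ _

lemma or_st (f : P.Facet) : P.st f (A.or f).1.e = (A.or f).1 := by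
  apply St.ext
  · exact (A.or_c f).symm
  · exact (A.or_d f).symm
  · rfl

lemma len_or (f : P.Facet) : P.len f.1.1 (P.st f (A.or f).1.e).n = lenN (A.or f) := by
  rw [or_st]
  unfold lenN
  rw [or_c]

/-- the placement of a layout -/
noncomputable def placement : P.Placement where
  e := fun f => (A.or f).1.e
  perp := fun f => by
    have := (A.or f).2.2
    rw [or_d] at this
    exact this
  col := fun f => (A.b f : ℤ)
  x0 := fun j => ∑ i ∈ Finset.range j.toNat, A.wid i
  x0_mono := by
    intro j k hjk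
    apply Finset.sum_le_sum_of_subset_of_nonneg
    · intro x hx
      simp only [Finset.mem_range] at hx ⊢
      have := Int.toNat_le_toNat hjk
      omega
    · intro i _ _
      exact (P.len_pos _ _).le
  y := fun f => A.Y (A.b f) + hgt (A.w (A.b f)) (A.z f)
  width := fun f => by
    have h1 : ((A.b f : ℤ) + 1).toNat = A.b f + 1 := by omega
    have h2 : ((A.b f : ℤ)).toNat = A.b f := by omega
    rw [h1, h2, Finset.sum_range_succ]
    congr 1
    unfold wid
    rw [A.or_e]
    apply P.len_congr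
    rw [← A.or_c]
    exact (pN_zpow_c (A.w (A.b f)) (A.z f)).symm
  disj := by
    intro f g hfg hcol
    have hb : A.b f = A.b g := by exact_mod_cast hcol
    have hz : A.z f ≠ A.z g := by
      intro h
      apply hfg
      rw [← A.hz f, ← A.hz g, h, hb]
    rw [A.len_or, A.len_or]
    rcases lt_or_gt_of_ne hz with h | h
    · left
      have h1 := hgt_succ (A.w (A.b f)) (A.z f)
      have h2 := (hgt_strictMono (A.w (A.b f))).monotone (show A.z f + 1 ≤ A.z g by omega)
      unfold or
      rw [← hb]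
      linarith
    · right
      have h1 := hgt_succ (A.w (A.b g)) (A.z g)
      have h2 := (hgt_strictMono (A.w (A.b g))).monotone (show A.z g + 1 ≤ A.z f by omega)
      unfold or
      rw [hb]
      linarith

lemma relN {f g : P.Facet} (h1 : A.b g = A.b f) (h2 : A.z g = A.z f + 1) :
    A.placement.RelN f g := by
  have key : (A.or f).stN = A.or g := by
    unfold or
    rw [h1, h2, pN_zpow_succ]
  refine ⟨?_, ?_, ?_⟩
  · show (P.st f (A.or f).1.e).stepN P = P.st g (A.or g).1.e
    rw [or_st, or_st, ← key]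
    rfl
  · show (A.b g : ℤ) = A.b f
    rw [h1]
  · show A.Y (A.b g) + hgt (A.w (A.b g)) (A.z g) = A.Y (A.b f) + hgt (A.w (A.b f)) (A.z f) +
      P.len f.1.1 (P.st f (A.or f).1.e).n
    rw [A.len_or, h1, h2, hgt_succ]
    unfold or
    ring

lemma relE' {f g : P.Facet} (h1 : A.b g = A.b f + 1) (h2 : (A.or f).stE = A.or g)
    (h3 : A.Y (A.b g) + hgt (A.w (A.b g)) (A.z g) = A.Y (A.b f) + hgt (A.w (A.b f)) (A.z f)) :
    A.placement.RelE f g := by
  refine ⟨?_, ?_, h3⟩
  · show (P.st f (A.or f).1.e).stepE P = P.st g (A.or g).1.e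
    rw [or_st, or_st, ← h2]
    rfl
  · show (A.b g : ℤ) = A.b f + 1
    rw [h1]; push_cast; ring

lemma relE (i : ℕ) (hi : i + 1 < A.n) :
    A.placement.RelE ((pN ^ A.ex i) (A.w i)).facet (A.w (i + 1)).facet := by
  obtain ⟨e1, e2⟩ := A.exit i (by omega)
  obtain ⟨w1, w2⟩ := A.base (i + 1) hi
  apply A.relE'
  · rw [w1, e1]
  · rw [A.or_eq e1 e2, A.or_eq w1 w2, zpow_zero, A.glue i hi]
    rfl
  · rw [w1, w2, e1, e2, hgt_zero, add_zero]
    rfl

/-- lateral attachment -/
lemma relE_side {f g : P.Facet} (h1 : A.b g = A.b f + 1) (h2 : A.z g = A.z f)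
    (h3 : A.ex (A.b f) = 0)
    (h4 : ∀ i ∈ Set.uIcc 0 (A.z f), ((pN ^ i) (A.w (A.b f))).stE = (pN ^ i) (A.w (A.b g))) :
    A.placement.RelE f g := by
  apply A.relE' h1
  · unfold or
    rw [h2]
    exact h4 _ Set.right_mem_uIcc
  · rw [h2, ← hgt_par h4, h1]
    show A.Y (A.b f) + hgt (A.w (A.b f)) (A.ex (A.b f)) + hgt (A.w (A.b f)) (A.z f) = _
    rw [h3, hgt_zero, add_zero]

lemma adj_of_relN {f g : P.Facet} (h : A.placement.RelN f g) : A.placement.graph.Adj f g :=
  ⟨(A.placement.relN_adj h).1, Or.inr (Or.inl h)⟩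

lemma adj_of_relE {f g : P.Facet} (h : A.placement.RelE f g) : A.placement.graph.Adj f g :=
  ⟨(A.placement.relE_adj h).1, Or.inl h⟩

/-- every regular facet is connected to the base of its line -/
lemma reach_reg : ∀ (m : ℕ) (f : P.Facet), ¬ A.le f → (A.z f).natAbs = m →
    A.placement.graph.Reachable f (A.w (A.b f)).facet := by
  intro m
  induction m with
  | zero =>
    intro f _ hf
    have h0 : A.z f = 0 := by omega
    have := A.hz f
    rw [h0, zpow_zero] at this
    have h1 : (A.w (A.b f)).facet = f := this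
    rw [h1]
  | succ m ih =>
    intro f hl hf
    rcases lt_or_gt_of_ne (show A.z f ≠ 0 by omega) with h | h
    · obtain ⟨g, g1, u1, u2⟩ := A.up f hl h
      have h1 : A.placement.graph.Adj f g := A.adj_of_relN (A.relN u1 u2)
      have h2 := ih g g1 (by omega)
      rw [u1] at h2
      exact h1.reachable.trans h2
    · obtain ⟨g, g1, u1, u2⟩ := A.down f hl h
      have h1 : A.placement.graph.Adj g f := A.adj_of_relN (A.relN u1.symm (by omega))
      have h2 := ih g g1 (by omega)
      rw [u1] at h2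
      exact h1.symm.reachable.trans h2

/-- every facet is connected to the base of some line -/
lemma reach_base : ∀ (m : ℕ) (f : P.Facet), A.ld f = m →
    ∃ i < A.n, A.placement.graph.Reachable f (A.w i).facet := by
  intro m
  induction m using Nat.strong_induction_on with
  | _ m ih =>
    intro f hf
    by_cases hl : A.le f
    · obtain ⟨g, g1, g2⟩ := A.att f hl
      have h1 : A.placement.graph.Reachable f g := by
        rcases g2 with ⟨g3, g4, g5, g6⟩ | ⟨g3, g4, g5, g6⟩
        · exact (A.adj_of_relE (A.relE_side g3 g4 g5 g6)).reachable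
        · refine (A.adj_of_relE (A.relE_side g3 g4.symm g5 ?_)).symm.reachable
          rw [g4]; exact g6
      by_cases hg : A.le g
      · obtain ⟨i, hi, hr⟩ := ih (A.ld g) (by have := g1 hg; omega) g rfl
        exact ⟨i, hi, h1.trans hr⟩
      · exact ⟨A.b g, A.hb g, h1.trans (A.reach_reg _ g hg rfl)⟩
    · exact ⟨A.b f, A.hb f, A.reach_reg _ f hl rfl⟩

lemma reach_zero : ∀ i, i < A.n → A.placement.graph.Reachable (A.w i).facet (A.w 0).facet := by
  intro i
  induction i with
  | zero => intro _; exact SimpleGraph.Reachable.refl _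
  | succ i ih =>
    intro hi
    have h1 := A.adj_of_relE (A.relE i hi)
    have h2 := A.reach_reg _ ((pN ^ A.ex i) (A.w i)).facet (A.exit_le i (by omega)) rfl
    rw [(A.exit i (by omega)).1] at h2
    exact (h1.symm.reachable.trans h2).trans (ih (by omega))

/-- **A layout gives an edge unfolding.** -/
theorem hasEdgeUnfolding (A : P.LLayout) : P.HasEdgeUnfolding := by
  apply A.placement.hasEdgeUnfolding
  haveI : Nonempty P.Facet := ⟨(A.w 0).facet⟩
  refine SimpleGraph.Connected.mk ?_
  intro f g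
  obtain ⟨i, hi, h1⟩ := A.reach_base _ f rfl
  obtain ⟨j, hj, h2⟩ := A.reach_base _ g rfl
  exact (h1.trans (A.reach_zero i hi)).trans (h2.trans (A.reach_zero j hj)).symm

end LLayout

end GridSolid

end Pool.Agent.Helper55.UNF
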