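import Pool.Agent.Helper55.UNF.Cell
import Pool.Agent.Helper55.UNF.LLayout

/-!
Cell curves with lean facets: unoccupied facets that are attached to their eastern or western
neighbour.
-/

namespace Pool.Agent.Helper55.UNF

namespace GridSolid

variable (P : GridSolid)

/-- A cell curve with lean facets. -/
structure LCurve where
  can : P.Facet → P.FSt
  can_facet : ∀ f, (can f).facet = f
  τ : P.Facet → Ty
  hN : ∀ f, (τ f).goN = true → ∃ g, (can f).stN = can g ∧ (τ g).frS = true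
  hN' : ∀ f, (τ f).frS = true → ∃ g, (can g).stN = can f ∧ (τ g).goN = true
  hS : ∀ f, (τ f).frN = true → ∃ g, (can f).stN = can g ∧ (τ g).goS = true
  hS' : ∀ f, (τ f).goS = true → ∃ g, (can g).stN = can f ∧ (τ g).frN = true
  hE : ∀ f, (τ f).ep = true → (∃ g, (can f).stE = can g ∧ (τ g).wp = true) ∨
    (∃ g, (can f).stE = (can g).r2 ∧ (τ g).ep = true)
  hW : ∀ f, (τ f).wp = true → (∃ g, (can g).stE = can f ∧ (τ g).ep = true) ∨
    (∃ g, (can f).r2.stE = can g ∧ (τ g).wp = true)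
  /-- the lean facets -/
  L : P.Facet → Prop
  hL : ∀ f, L f → τ f = Ty.o
  cov : ∀ f, ¬ L f → ∃ z : ℤ, (∀ y ∈ Set.uIcc 0 z, ∃ g, ¬ L g ∧ (pN ^ y) (can f) = can g) ∧
    ∃ g, (pN ^ z) (can f) = can g ∧ (τ g).wp = true
  /-- base and height of the lean facets -/
  lb : P.Facet → P.Facet
  lz : P.Facet → ℕ
  ld : P.Facet → ℕ
  lean : ∀ f, L f → 0 < lz f ∧ τ (lb f) = Ty.H ∧ ((pN ^ (lz f : ℤ)) (can (lb f))).facet = f ∧
    ∃ b', τ b' = Ty.H ∧
      ((∀ i : ℕ, i ≤ lz f → ((pN ^ (i : ℤ)) (can (lb f))).stE = (pN ^ (i : ℤ)) (can b')) ∨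
        (∀ i : ℕ, i ≤ lz f → ((pN ^ (i : ℤ)) (can b')).stE = (pN ^ (i : ℤ)) (can (lb f)))) ∧
      ((∃ g, L g ∧ lb g = b' ∧ lz g = lz f ∧ ld g < ld f) ∨
        (∀ i : ℕ, 1 ≤ i → i ≤ lz f → ∃ h, ¬ L h ∧ (pN ^ (i : ℤ)) (can b') = can h ∧ τ h = Ty.o))
  cut : ∀ f, L f → ∃ g, τ g ≠ Ty.o ∧ τ g ≠ Ty.H
  conn : ∀ φ : P.Facet → Prop,
    (∀ f g, (can f).stN = can g → (τ f).goN = true → (φ f ↔ φ g)) →
    (∀ f g, (can f).stN = can g → (τ f).frN = true → (φ f ↔ φ g)) →
    (∀ f g, (can f).stE = can g → (τ f).ep = true → (φ f ↔ φ g)) →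
    (∀ f g, (can f).stE = (can g).r2 → (τ f).ep = true → (φ f ↔ φ g)) →
    (∀ f g, (can f).r2.stE = can g → (τ f).wp = true → (φ f ↔ φ g)) →
    ∀ f g, τ f ≠ Ty.o → τ g ≠ Ty.o → (φ f ↔ φ g)
  ne : Nonempty P.Facet

namespace LCurve

variable {P} (A : P.LCurve)

/-- the oriented facet is the canonical one of a regular facet -/
def cn (s : P.FSt) : Prop := s = A.can s.facet ∧ ¬ A.L s.facet

lemma cn_can {f : P.Facet} (hf : ¬ A.L f) : A.cn (A.can f) := by
  unfold cn; rw [A.can_facet]; exact ⟨rfl, hf⟩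

lemma reg_of {f : P.Facet} (h : A.τ f ≠ Ty.o) : ¬ A.L f := fun hf => h (A.hL f hf)

lemma reg_wp {f : P.Facet} (h : (A.τ f).wp = true) : ¬ A.L f :=
  A.reg_of (fun h' => by rw [h'] at h; simp [Ty.wp] at h)

lemma reg_frS {f : P.Facet} (h : (A.τ f).frS = true) : ¬ A.L f :=
  A.reg_of (fun h' => by rw [h'] at h; simp [Ty.frS] at h)

lemma reg_frN {f : P.Facet} (h : (A.τ f).frN = true) : ¬ A.L f :=
  A.reg_of (fun h' => by rw [h'] at h; simp [Ty.frN] at h)

lemma reg_goN {f : P.Facet} (h : (A.τ f).goN = true) : ¬ A.L f :=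
  A.reg_of (fun h' => by rw [h'] at h; simp [Ty.goN] at h)

lemma reg_goS {f : P.Facet} (h : (A.τ f).goS = true) : ¬ A.L f :=
  A.reg_of (fun h' => by rw [h'] at h; simp [Ty.goS] at h)

lemma can_inj {f g : P.Facet} (h : A.can f = A.can g) : f = g := by
  rw [← A.can_facet f, ← A.can_facet g, h]

lemma cn_iff {s : P.FSt} {g : P.Facet} (h : s = A.can g) : s.facet = g := by
  rw [h, A.can_facet]

/-- the type of an oriented facet -/
def ty (s : P.FSt) : Ty := A.τ s.facet

lemma ty_can (f : P.Facet) : A.ty (A.can f) = A.τ f := by unfold ty; rw [A.can_facet]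

/-- where the search to the south stops -/
def stopD (s : P.FSt) : Prop := ¬ (A.cn s ∧ (A.ty s = Ty.o ∨ (A.ty s).frS = true))

/-- where the search to the north stops -/
def stopU (s : P.FSt) : Prop := ¬ (A.cn s ∧ (A.ty s = Ty.o ∨ (A.ty s).frN = true))

/-- the number of steps to the south -/
noncomputable def jD (s : P.FSt) : ℕ := srch (pN⁻¹ : Equiv.Perm P.FSt) A.stopD s

/-- the number of steps to the north -/
noncomputable def jU (s : P.FSt) : ℕ := srch (pN : Equiv.Perm P.FSt) A.stopU s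

lemma exists_pow (s : P.FSt) (z : ℤ) (stop : P.FSt → Prop) (h : stop ((pN ^ z) s)) :
    (∃ j : ℕ, stop ((pN ^ j) s)) ∧ ∃ j : ℕ, stop (((pN⁻¹ : Equiv.Perm P.FSt) ^ j) s) := by
  have ho : 0 < orderOf (pN : Equiv.Perm P.FSt) := orderOf_pos _
  set n := orderOf (pN : Equiv.Perm P.FSt) with hn
  have hn1 : (pN : Equiv.Perm P.FSt) ^ n = 1 := pow_orderOf_eq_one _
  constructor
  · refine ⟨(z + n * |z|).toNat, ?_⟩
    have h0 : 0 ≤ z + n * |z| := by
      have h1 : (1 : ℤ) ≤ n := by exact_mod_cast ho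
      have h2 := neg_abs_le z
      nlinarith [abs_nonneg z]
    rw [← zpow_natCast, Int.toNat_of_nonneg h0, zpow_add, zpow_mul, zpow_natCast, hn1, one_zpow,
      mul_one]
    exact h
  · refine ⟨(-z + n * |z|).toNat, ?_⟩
    have h0 : 0 ≤ -z + n * |z| := by
      have h1 : (1 : ℤ) ≤ n := by exact_mod_cast ho
      have h2 := le_abs_self z
      nlinarith [abs_nonneg z]
    have h3 : (pN⁻¹ : Equiv.Perm P.FSt) ^ n = 1 := by rw [inv_pow, hn1, inv_one]
    rw [← zpow_natCast, Int.toNat_of_nonneg h0, zpow_add, zpow_mul, zpow_natCast, h3, one_zpow,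
      mul_one, inv_zpow', neg_neg]
    exact h

lemma ex_stop {f : P.Facet} (hf : ¬ A.L f) :
    (∃ j : ℕ, A.stopU ((pN ^ j) (A.can f))) ∧
      ∃ j : ℕ, A.stopD (((pN⁻¹ : Equiv.Perm P.FSt) ^ j) (A.can f)) := by
  obtain ⟨z, h1, g, h2, h3⟩ := A.cov f hf
  have hty : A.ty ((pN ^ z) (A.can f)) = A.τ g := by rw [h2, A.ty_can]
  refine ⟨(exists_pow (A.can f) z A.stopU ?_).1, (exists_pow (A.can f) z A.stopD ?_).2⟩
  · intro hh
    rw [hty] at hh
    rcases hh.2 with h | h <;> revert h3 <;> cases hτ : A.τ g <;> simp_all [Ty.wp, Ty.frN]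
  · intro hh
    rw [hty] at hh
    rcases hh.2 with h | h <;> revert h3 <;> cases hτ : A.τ g <;> simp_all [Ty.wp, Ty.frS]

/-- the facet at the south step -/
lemma south_eq {s : P.FSt} {g : P.Facet} (h : pN⁻¹ s = A.can g) : (A.can g).stN = s := by
  rw [← h]
  show pN (pN⁻¹ s) = s
  simp

/-- the facet is hung on its southern neighbour -/
def PD (f : P.Facet) : Prop :=
  (A.τ f = Ty.o ∨ (A.τ f).frS = true) ∧
    A.cn (((pN⁻¹ : Equiv.Perm P.FSt) ^ A.jD (A.can f)) (A.can f))

open Classical in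
/-- the west end of the run of a facet -/
noncomputable def ρ (f : P.Facet) : P.Facet :=
  if A.PD f then (((pN⁻¹ : Equiv.Perm P.FSt) ^ A.jD (A.can f)) (A.can f)).facet
  else ((pN ^ A.jU (A.can f)) (A.can f)).facet

open Classical in
/-- the offset of a facet -/
noncomputable def ζ (f : P.Facet) : ℤ :=
  if A.PD f then (A.jD (A.can f) : ℤ) else -(A.jU (A.can f) : ℤ)

lemma not_stopD {f : P.Facet} (hf : ¬ A.L f) (h : A.τ f = Ty.o ∨ (A.τ f).frS = true) :
    ¬ A.stopD (A.can f) := by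
  unfold stopD
  rw [not_not, A.ty_can]
  exact ⟨A.cn_can hf, h⟩

lemma not_stopU {f : P.Facet} (hf : ¬ A.L f) (h : A.τ f = Ty.o ∨ (A.τ f).frN = true) :
    ¬ A.stopU (A.can f) := by
  unfold stopU
  rw [not_not, A.ty_can]
  exact ⟨A.cn_can hf, h⟩

lemma stopU_of_wp {f : P.Facet} (h : (A.τ f).wp = true) : A.stopU (A.can f) := by
  intro hh
  rw [A.ty_can] at hh
  rcases hh.2 with h' | h' <;> revert h <;> cases hτ : A.τ f <;> simp_all [Ty.wp, Ty.frN]

lemma stopD_of_wp {f : P.Facet} (h : (A.τ f).wp = true) : A.stopD (A.can f) := by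
  intro hh
  rw [A.ty_can] at hh
  rcases hh.2 with h' | h' <;> revert h <;> cases hτ : A.τ f <;> simp_all [Ty.wp, Ty.frS]

lemma not_PD_of_wp {f : P.Facet} (h : (A.τ f).wp = true) : ¬ A.PD f := by
  intro hh
  rcases hh.1 with h' | h' <;> revert h <;> cases hτ : A.τ f <;> simp_all [Ty.wp, Ty.frS]

lemma base_of_wp {f : P.Facet} (h : (A.τ f).wp = true) : A.ρ f = f ∧ A.ζ f = 0 := by
  have h0 : A.jU (A.can f) = 0 := srch_zero (A.stopU_of_wp h)
  unfold ρ ζ
  rw [if_neg (A.not_PD_of_wp h), if_neg (A.not_PD_of_wp h), h0]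
  simp [A.can_facet]

/-- A canonical oriented facet below a facet of type `o`, `N2`, `N3` is again of this kind or has a
west port. -/
lemma below {f g : P.Facet} (hf : A.τ f = Ty.o ∨ (A.τ f).frS = true)
    (hg : (A.can g).stN = A.can f) :
    (A.τ g = Ty.o ∨ (A.τ g).frS = true) ∨ (A.τ g).wp = true := by
  by_cases h : (A.τ g).frN = true
  · obtain ⟨f', h1, h2⟩ := A.hS g h
    have : f' = f := A.can_inj (by rw [← h1, hg])
    subst this
    rcases hf with h' | h' <;> revert h2 <;> cases hτ : A.τ f' <;> simp_all [Ty.goS, Ty.frS]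
  · revert h
    cases hτ : A.τ g <;> simp [Ty.frN, Ty.frS, Ty.wp]

/-- A canonical oriented facet above a facet of type `o`, `S2`, `S3` is again of this kind or has a
west port. -/
lemma above {f g : P.Facet} (hf : A.τ f = Ty.o ∨ (A.τ f).frN = true)
    (hg : (A.can f).stN = A.can g) :
    (A.τ g = Ty.o ∨ (A.τ g).frN = true) ∨ (A.τ g).wp = true := by
  by_cases h : (A.τ g).frS = true
  · obtain ⟨f', h1, h2⟩ := A.hN' g h
    have : f' = f := A.can_inj (pN.injective (by show (A.can f').stN = (A.can f).stN; rw [h1, hg]))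
    subst this
    rcases hf with h' | h' <;> revert h2 <;> cases hτ : A.τ f' <;> simp_all [Ty.goN, Ty.frN]
  · revert h
    cases hτ : A.τ g <;> simp [Ty.frN, Ty.frS, Ty.wp]

lemma pow_step (π : Equiv.Perm P.FSt) (j : ℕ) (s : P.FSt) : (π ^ (j + 1)) s = (π ^ j) (π s) := by
  rw [pow_succ]; rfl

/-- hanging on the southern neighbour -/
lemma stepD {f : P.Facet} (hf : ¬ A.L f) (h : A.PD f) :
    ∃ g, ¬ A.L g ∧ (A.can g).stN = A.can f ∧ A.ρ g = A.ρ f ∧ A.ζ g = A.ζ f - 1 := by
  obtain ⟨h1, h2⟩ := h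
  have hex := (A.ex_stop hf).2
  have hns := A.not_stopD hf h1
  have hstep : A.jD (A.can f) = A.jD (pN⁻¹ (A.can f)) + 1 := srch_step hns hex
  have hpf : ((pN⁻¹ : Equiv.Perm P.FSt) ^ A.jD (A.can f)) (A.can f) =
      ((pN⁻¹ : Equiv.Perm P.FSt) ^ A.jD (pN⁻¹ (A.can f))) (pN⁻¹ (A.can f)) := by
    rw [hstep, pow_step]
  have hρ : A.ρ f = (((pN⁻¹ : Equiv.Perm P.FSt) ^ A.jD (A.can f)) (A.can f)).facet := by
    unfold ρ; rw [if_pos ⟨h1, h2⟩]
  have hζ : A.ζ f = A.jD (A.can f) := by unfold ζ; rw [if_pos ⟨h1, h2⟩]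
  -- the southern neighbour is canonical
  have hcn : A.cn (pN⁻¹ (A.can f)) := by
    by_cases hs : A.stopD (pN⁻¹ (A.can f))
    · have h0 : A.jD (pN⁻¹ (A.can f)) = 0 := srch_zero hs
      rw [hpf, h0] at h2
      simpa using h2
    · unfold stopD at hs
      rw [not_not] at hs
      exact hs.1
  set g := (pN⁻¹ (A.can f)).facet with hg
  have hcan : pN⁻¹ (A.can f) = A.can g := hcn.1
  have hst := A.south_eq hcan
  refine ⟨g, hcn.2, hst, ?_⟩
  rcases A.below h1 hst with hb | hb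
  · have hPD : A.PD g := by
      refine ⟨hb, ?_⟩
      rw [← hcan, ← hpf]; exact h2
    constructor
    · rw [hρ, hpf]
      unfold ρ
      rw [if_pos hPD, hcan]
    · rw [hζ, hstep, hcan]
      unfold ζ
      rw [if_pos hPD]
      push_cast; ring
  · obtain ⟨b1, b2⟩ := A.base_of_wp hb
    have h0 : A.jD (pN⁻¹ (A.can f)) = 0 := by rw [hcan]; exact srch_zero (A.stopD_of_wp hb)
    rw [b1, b2, hρ, hζ, hpf, hstep, h0]
    simp [hcan, A.can_facet]

lemma PD_of_frS {f : P.Facet} (hf : (A.τ f).frS = true) : A.PD f := by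
  refine ⟨Or.inr hf, ?_⟩
  have key : ∀ j ≤ A.jD (A.can f), ∃ g, ((pN⁻¹ : Equiv.Perm P.FSt) ^ j) (A.can f) = A.can g ∧
      ((A.τ g).frS = true ∨ (A.τ g).goN = true) := by
    intro j
    induction j with
    | zero => intro _; exact ⟨f, by simp, Or.inl hf⟩
    | succ j ih =>
      intro hj
      obtain ⟨g, g1, g2⟩ := ih (by omega)
      have hns := srch_not (show j < srch (pN⁻¹ : Equiv.Perm P.FSt) A.stopD (A.can f) from
        by unfold jD at hj; omega)
      rw [g1] at hns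
      unfold stopD at hns
      rw [not_not, A.ty_can] at hns
      have hfr : (A.τ g).frS = true := by
        rcases hns.2 with h' | h'
        · rw [h'] at g2; simp [Ty.frS, Ty.goN] at g2
        · exact h'
      obtain ⟨g', k1, k2⟩ := A.hN' g hfr
      refine ⟨g', ?_, Or.inr k2⟩
      rw [pow_succ', Equiv.Perm.mul_apply, g1, ← k1]
      exact (pN : Equiv.Perm P.FSt).symm_apply_apply (A.can g')
  obtain ⟨g, g1, g2⟩ := key _ le_rfl
  rw [g1]
  exact A.cn_can (by rcases g2 with g2 | g2; exacts [A.reg_frS g2, A.reg_goN g2])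

/-- hanging on the northern neighbour -/
lemma stepU {f : P.Facet} (hf : ¬ A.L f) (h : ¬ A.PD f) (hw : (A.τ f).wp = false) :
    ∃ g, ¬ A.L g ∧ (A.can f).stN = A.can g ∧ A.ρ g = A.ρ f ∧ A.ζ g = A.ζ f + 1 := by
  have hex := (A.ex_stop hf).1
  have hexD := (A.ex_stop hf).2
  -- the type of `f`
  have h1 : A.τ f = Ty.o ∨ (A.τ f).frN = true := by
    by_cases h' : (A.τ f).frS = true
    · exact absurd (A.PD_of_frS h') h
    · revert h' hw; cases hτ : A.τ f <;> simp [Ty.frS, Ty.frN, Ty.wp]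
  have hns := A.not_stopU hf h1
  have hstep : A.jU (A.can f) = A.jU (pN (A.can f)) + 1 := srch_step hns hex
  have hpf : ((pN : Equiv.Perm P.FSt) ^ A.jU (A.can f)) (A.can f) =
      ((pN : Equiv.Perm P.FSt) ^ A.jU (pN (A.can f))) (pN (A.can f)) := by
    rw [hstep, pow_step]
  have hρ : A.ρ f = ((pN ^ A.jU (A.can f)) (A.can f)).facet := by
    unfold ρ; rw [if_neg h]
  have hζ : A.ζ f = -(A.jU (A.can f) : ℤ) := by unfold ζ; rw [if_neg h]
  -- the northern neighbour is canonical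
  have hcn : A.cn (pN (A.can f)) := by
    rcases h1 with h1 | h1
    · -- type o: by coverage
      have hD : ¬ A.cn (((pN⁻¹ : Equiv.Perm P.FSt) ^ A.jD (A.can f)) (A.can f)) := by
        intro hh; exact h ⟨Or.inl h1, hh⟩
      obtain ⟨z, z1, g, z2, z3⟩ := A.cov f hf
      rcases le_or_gt z 0 with hz | hz
      · exfalso
        have hst : A.stopD (((pN⁻¹ : Equiv.Perm P.FSt) ^ (-z).toNat) (A.can f)) := by
          rw [← zpow_natCast, Int.toNat_of_nonneg (by omega), inv_zpow', neg_neg, z2]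
          exact A.stopD_of_wp z3
        have hle : A.jD (A.can f) ≤ (-z).toNat := Nat.sInf_le hst
        apply hD
        obtain ⟨g', hL', hg'⟩ := z1 (-(A.jD (A.can f) : ℤ)) (by
          rw [Set.mem_uIcc]; right; constructor <;> omega)
        have : ((pN⁻¹ : Equiv.Perm P.FSt) ^ A.jD (A.can f)) (A.can f) = A.can g' := by
          rw [← zpow_natCast, inv_zpow', hg']
        rw [this]; exact A.cn_can hL'
      · obtain ⟨g', hL', hg'⟩ := z1 1 (by rw [Set.mem_uIcc]; left; constructor <;> omega)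
        rw [zpow_one] at hg'
        rw [hg']; exact A.cn_can hL'
    · obtain ⟨g, g1, g2⟩ := A.hS f h1
      show A.cn ((A.can f).stN)
      rw [g1]; exact A.cn_can (A.reg_goS g2)
  set g := (pN (A.can f)).facet with hg
  have hcan : pN (A.can f) = A.can g := hcn.1
  have hst : (A.can f).stN = A.can g := hcan
  refine ⟨g, hcn.2, hst, ?_⟩
  rcases A.above h1 hst with hb | hb
  · have hPD : ¬ A.PD g := by
      intro hPg
      rcases hb with hb | hb
      · -- τ g = o, so τ f = o, and the search from `g` passes through `f`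
        have hfo : A.τ f = Ty.o := by
          rcases h1 with h1 | h1
          · exact h1
          · obtain ⟨g', k1, k2⟩ := A.hS f h1
            have : g' = g := A.can_inj (by rw [← k1, hst])
            subst this
            rw [hb] at k2; simp [Ty.goS] at k2
        have hns' := A.not_stopD (f := g) hcn.2 (Or.inl hb)
        have hback : pN⁻¹ (A.can g) = A.can f := by
          rw [← hst]; exact (pN : Equiv.Perm P.FSt).symm_apply_apply (A.can f)
        have hs' : A.jD (A.can g) = A.jD (pN⁻¹ (A.can g)) + 1 :=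
          srch_step hns' (A.ex_stop hcn.2).2
        have h2 := hPg.2
        rw [hs', pow_step, hback] at h2
        exact h ⟨Or.inl hfo, h2⟩
      · exact Ty.frN_not _ hb hPg.1
    constructor
    · rw [hρ, hpf]
      unfold ρ
      rw [if_neg hPD, hcan]
    · rw [hζ, hstep, hcan]
      unfold ζ
      rw [if_neg hPD]
      push_cast; ring
  · obtain ⟨b1, b2⟩ := A.base_of_wp hb
    have h0 : A.jU (pN (A.can f)) = 0 := by rw [hcan]; exact srch_zero (A.stopU_of_wp hb)
    rw [b1, b2, hρ, hζ, hpf, hstep, h0]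
    simp [hcan, A.can_facet]

/-- position of a facet above a facet with a west port, all facets between are unoccupied -/
lemma pos_above {b' : P.Facet} (hb : (A.τ b').wp = true) : ∀ n : ℕ,
    (∀ i : ℕ, 1 ≤ i → i ≤ n → ∃ h, ¬ A.L h ∧ (pN ^ (i : ℤ)) (A.can b') = A.can h ∧
      A.τ h = Ty.o) →
    ∃ g, (pN ^ (n : ℤ)) (A.can b') = A.can g ∧ ¬ A.L g ∧ A.ρ g = b' ∧ A.ζ g = n := by
  intro n hn
  -- the search to the south
  have key : ∀ m : ℕ, m ≤ n → ∀ g, (pN ^ (m : ℤ)) (A.can b') = A.can g → ¬ A.L g →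
      A.jD (A.can g) = m := by
    intro m
    induction m with
    | zero =>
      intro _ g hg _
      have : b' = g := A.can_inj (by simpa using hg)
      subst this
      exact srch_zero (A.stopD_of_wp hb)
    | succ m ih =>
      intro hm g hg hLg
      obtain ⟨h, h1, h2, h3⟩ := hn (m + 1) (by omega) hm
      have hgh : g = h := A.can_inj (by rw [← hg, ← h2])
      subst hgh
      have hns := A.not_stopD hLg (Or.inl h3)
      have hstep : A.jD (A.can g) = A.jD (pN⁻¹ (A.can g)) + 1 := srch_step hns (A.ex_stop hLg).2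
      have hprev : pN⁻¹ (A.can g) = (pN ^ (m : ℤ)) (A.can b') := by
        rw [← hg, ← zpow_neg_one, ← Equiv.Perm.mul_apply, ← zpow_add]
        congr 2
        push_cast; ring
      rw [hstep, hprev]
      rcases Nat.eq_zero_or_pos m with h0 | h0
      · subst h0
        have := ih (by omega) b' (by simp) (A.reg_wp hb)
        rw [show ((pN ^ ((0 : ℕ) : ℤ)) (A.can b') : P.FSt) = A.can b' by simp, this]
      · obtain ⟨h', k1, k2, -⟩ := hn m h0 (by omega)
        rw [k2, ih (by omega) h' k2 k1]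
  rcases Nat.eq_zero_or_pos n with h0 | h0
  · subst h0
    obtain ⟨b1, b2⟩ := A.base_of_wp hb
    exact ⟨b', by simp, A.reg_wp hb, b1, by simpa using b2⟩
  · obtain ⟨g, k1, k2, k3⟩ := hn n h0 le_rfl
    have hj := key n le_rfl g k2 k1
    have hback : ((pN⁻¹ : Equiv.Perm P.FSt) ^ n) (A.can g) = A.can b' := by
      rw [← k2, ← zpow_natCast, inv_zpow', ← Equiv.Perm.mul_apply, ← zpow_add]
      simp
    have hPD : A.PD g := by
      refine ⟨Or.inl k3, ?_⟩
      rw [hj, hback]; exact A.cn_can (A.reg_wp hb)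
    refine ⟨g, k2, k1, ?_, ?_⟩
    · unfold ρ
      rw [if_pos hPD, hj, hback, A.can_facet]
    · unfold ζ
      rw [if_pos hPD, hj]

end LCurve

end GridSolid

end Pool.Agent.Helper55.UNF
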