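import Pool.Agent.Helper55.UNF.Sub

/-!
Pattern curves: a cell curve on the `k` by `k` refinement of a solid given by a `k` by `k` pattern
of types on every facet of the solid.
-/

namespace Pool.Agent.Helper55.UNF

namespace GridSolid

variable {P : GridSolid} {k : ℕ}

/-- the coordinate in direction `w` of a cell inside its box -/
def ix (k : ℕ) (w : Dir) (c : Fin 3 → ℤ) : ℕ :=
  if w.2 then (c w.1 % (k : ℤ)).toNat else ((k : ℤ) - 1 - c w.1 % (k : ℤ)).toNat

lemma ix_lt (hk : 0 < k) (w : Dir) (c : Fin 3 → ℤ) : ix k w c < k := by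
  have hk' : (0 : ℤ) < k := by exact_mod_cast hk
  have h4 := Int.emod_nonneg (c w.1) hk'.ne'
  have h5 := Int.emod_lt_of_pos (c w.1) hk'
  unfold ix
  split_ifs <;> omega

lemma ix_eq (hk : 0 < k) (w : Dir) (c : Fin 3 → ℤ) :
    c w.1 = (k : ℤ) * (c w.1 / (k : ℤ)) + pos k w (ix k w c) := by
  have hk' : (0 : ℤ) < k := by exact_mod_cast hk
  have h3 := Int.mul_ediv_add_emod (c w.1) k
  have h4 := Int.emod_nonneg (c w.1) hk'.ne'
  have h5 := Int.emod_lt_of_pos (c w.1) hk'
  unfold ix pos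
  split_ifs
  · rw [Int.toNat_of_nonneg h4]; omega
  · rw [Int.toNat_of_nonneg (by omega)]; omega

lemma pos_inj {w : Dir} {x y : ℕ} (h : pos k w x = pos k w y) : x = y := by
  unfold pos at h
  split_ifs at h <;> omega

lemma ix_subC_e (s : St) (h : s.d.1 ≠ s.e.1) {x y : ℕ} (hx : x < k) (hy : y < k) :
    ix k s.e (subC k s x y) = x := by
  have hk : 0 < k := by omega
  have h1 := ix_eq hk s.e (subC k s x y)
  have h2 := subC_e (k := k) s h x y
  have h3 := congrFun (subC_div s hx hy) s.e.1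
  rw [h3, h2] at h1
  apply pos_inj (k := k) (w := s.e)
  omega

lemma ix_subC_n (s : St) (h : s.d.1 ≠ s.e.1) {x y : ℕ} (hx : x < k) (hy : y < k) :
    ix k s.n (subC k s x y) = y := by
  have hk : 0 < k := by omega
  have h1 := ix_eq hk s.n (subC k s x y)
  have h2 := subC_n (k := k) s h x y
  have h3 := congrFun (subC_div s hx hy) s.n.1
  rw [h3, h2] at h1
  apply pos_inj (k := k) (w := s.n)
  omega

/-- In a facet of the refinement the cell is at the end of its box. -/
lemma out_eq (hk : 0 < k) (f : (P.refine k hk).Facet) :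
    f.1.1 f.1.2.1 = (k : ℤ) * (f.1.1 f.1.2.1 / (k : ℤ)) + pos k f.1.2 (k - 1) := by
  have h1 := ix_eq hk f.1.2 f.1.1
  by_cases h : ix k f.1.2 f.1.1 = k - 1
  · rw [h] at h1; exact h1
  · exfalso
    have hlt := ix_lt hk f.1.2 f.1.1
    have h2 := shift_div_mid (k := k) f.1.2 f.1.1 _ (ix k f.1.2 f.1.1) (by omega) h1
    apply f.2.2
    rw [mem_refine, h2, ← mem_refine hk]
    exact f.2.1

/-- the facet of `P` that contains a facet of the refinement -/
def co (hk : 0 < k) (f : (P.refine k hk).Facet) : P.Facet :=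
  ⟨(fun a => f.1.1 a / (k : ℤ), f.1.2), by
    refine ⟨?_, ?_⟩
    · have := f.2.1
      rw [mem_refine] at this
      exact this
    · have := f.2.2
      rw [mem_refine, shift_div_end hk f.1.2 f.1.1 _ (out_eq hk f)] at this
      exact this⟩

lemma co_sub (hk : 0 < k) (s : P.FSt) {x y : ℕ} (hx : x < k) (hy : y < k) :
    co hk (sub hk s x y hx hy).facet = s.facet := by
  apply Subtype.ext
  show ((fun a => subC k s.1 x y a / (k : ℤ)), s.1.d) = (s.1.c, s.1.d)
  rw [subC_div _ hx hy]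

lemma sub_ix (hk : 0 < k) (s : P.FSt) (f : (P.refine k hk).Facet) (h : co hk f = s.facet) :
    (sub hk s (ix k s.1.e f.1.1) (ix k s.1.n f.1.1) (ix_lt hk _ _) (ix_lt hk _ _)).facet = f := by
  have hc : (fun a => f.1.1 a / (k : ℤ)) = s.1.c := congrArg (fun g : P.Facet => g.1.1) h
  have hd : f.1.2 = s.1.d := congrArg (fun g : P.Facet => g.1.2) h
  apply Subtype.ext
  show (subC k s.1 _ _, s.1.d) = f.1
  have key : subC k s.1 (ix k s.1.e f.1.1) (ix k s.1.n f.1.1) = f.1.1 := by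
    apply ext_frame s.2.2
    · rw [subC_d, ← hc, ← hd]
      exact (out_eq hk f).symm
    · rw [subC_e _ s.2.2, ← hc]
      exact (ix_eq hk s.1.e f.1.1).symm
    · refine (subC_n s.1 s.2.2 _ _).trans ?_
      rw [← hc]
      exact (ix_eq hk s.1.n f.1.1).symm
  rw [key, ← hd]

/-- the oriented facets over a vertical line of `P` -/
noncomputable def subZ (hk : 0 < k) (s : P.FSt) (x : ℕ) (hx : x < k) (t : ℤ) : (P.refine k hk).FSt :=
  sub hk ((pN ^ (t / (k : ℤ))) s) x (t % (k : ℤ)).toNat hx (by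
    have hk' : (0 : ℤ) < k := by exact_mod_cast hk
    have h4 := Int.emod_nonneg t hk'.ne'
    have h5 := Int.emod_lt_of_pos t hk'
    omega)

lemma subZ_eq (hk : 0 < k) (s : P.FSt) {x y : ℕ} (hx : x < k) (hy : y < k) (q : ℤ) :
    subZ hk s x hx ((k : ℤ) * q + y) = sub hk ((pN ^ q) s) x y hx hy := by
  have hk' : (0 : ℤ) < k := by exact_mod_cast hk
  have e1 : ((k : ℤ) * q + y) / (k : ℤ) = q := by
    rw [Int.add_comm, Int.add_mul_ediv_left _ _ hk'.ne',
      Int.ediv_eq_zero_of_lt (by omega) (by omega), zero_add]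
  have e2 : ((k : ℤ) * q + y) % (k : ℤ) = y := by
    rw [Int.add_comm, Int.add_mul_emod_self_left, Int.emod_eq_of_lt (by omega) (by omega)]
  unfold subZ
  exact sub_congr _ _ (by rw [e1]) rfl (by rw [e2]; simp)

lemma subZ_stN (hk : 0 < k) (s : P.FSt) {x : ℕ} (hx : x < k) (t : ℤ) :
    (subZ hk s x hx t).stN = subZ hk s x hx (t + 1) := by
  have hk' : (0 : ℤ) < k := by exact_mod_cast hk
  have h3 := Int.mul_ediv_add_emod t k
  have h4 := Int.emod_nonneg t hk'.ne'
  have h5 := Int.emod_lt_of_pos t hk'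
  obtain ⟨y, hy⟩ : ∃ y : ℕ, (y : ℤ) = t % (k : ℤ) := ⟨(t % (k : ℤ)).toNat, by omega⟩
  have hyk : y < k := by omega
  have ht : t = (k : ℤ) * (t / (k : ℤ)) + y := by omega
  by_cases h : y + 1 < k
  · rw [ht, subZ_eq hk s hx hyk, sub_stN_mid _ hx h]
    have : (k : ℤ) * (t / (k : ℤ)) + y + 1 = (k : ℤ) * (t / (k : ℤ)) + ((y + 1 : ℕ) : ℤ) := by
      push_cast; ring
    rw [this, subZ_eq hk s hx h]
  · have hy1 : y = k - 1 := by omega
    rw [ht, subZ_eq hk s hx hyk]
    have e1 : (k : ℤ) * (t / (k : ℤ)) + y + 1 = (k : ℤ) * (t / (k : ℤ) + 1) + ((0 : ℕ) : ℤ) := by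
      rw [hy1]
      push_cast [Nat.cast_sub (show 1 ≤ k by omega)]
      ring
    rw [e1, subZ_eq hk s hx hk, pN_zpow_succ]
    have e2 := sub_stN_end (hk := hk) ((pN ^ (t / (k : ℤ))) s) hx
    rw [← e2]
    congr 1
    exact sub_congr _ _ rfl rfl hy1

lemma subZ_pow (hk : 0 < k) (s : P.FSt) {x : ℕ} (hx : x < k) (t m : ℤ) :
    (pN ^ m) (subZ hk s x hx t) = subZ hk s x hx (t + m) := by
  induction m using Int.induction_on with
  | zero => simp
  | succ i ih =>
    rw [pN_zpow_succ, ih, subZ_stN]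
    congr 1; ring
  | pred i ih =>
    have h1 := pN_zpow_succ (subZ hk s x hx t) (-(i : ℤ) - 1)
    rw [sub_add_cancel, ih] at h1
    have h2 := subZ_stN hk s hx (t + (-(i : ℤ) - 1))
    have h3 : t + (-(i : ℤ) - 1) + 1 = t + -(i : ℤ) := by ring
    rw [h3] at h2
    apply pN.injective
    show FSt.stN _ = FSt.stN _
    rw [h2, ← h1]

variable (P k)

/-- A pattern curve. -/
structure Pat where
  hk : 0 < k
  can : P.Facet → P.FSt
  can_facet : ∀ f, (can f).facet = f
  T : P.Facet → ℕ → ℕ → Ty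
  /-- vertical steps inside a facet -/
  vN : ∀ f x y, x < k → y + 1 < k → (T f x y).goN = (T f x (y + 1)).frS
  vS : ∀ f x y, x < k → y + 1 < k → (T f x y).frN = (T f x (y + 1)).goS
  /-- horizontal steps inside a facet -/
  hh : ∀ f x y, x + 1 < k → y < k → (T f x y).ep = (T f (x + 1) y).wp
  /-- vertical steps to the next facet -/
  bN : ∀ f g, (can f).stN = can g → ∀ x < k, (T f x (k - 1)).goN = (T g x 0).frS
  bS : ∀ f g, (can f).stN = can g → ∀ x < k, (T f x (k - 1)).frN = (T g x 0).goS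
  bN' : ∀ f, (∀ g, (can f).stN ≠ can g) → ∀ x < k,
    (T f x (k - 1)).goN = false ∧ (T f x (k - 1)).frN = false
  bS' : ∀ g, (∀ f, (can f).stN ≠ can g) → ∀ x < k, (T g x 0).frS = false ∧ (T g x 0).goS = false
  /-- horizontal steps to the next facet -/
  bE : ∀ f g, (can f).stE = can g → ∀ y < k, (T f (k - 1) y).ep = (T g 0 y).wp
  bEr : ∀ f g, (can f).stE = (can g).r2 → ∀ y < k, (T f (k - 1) y).ep = (T g (k - 1) (k - 1 - y)).ep
  bWr : ∀ f g, (can f).r2.stE = can g → ∀ y < k, (T f 0 y).wp = (T g 0 (k - 1 - y)).wp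
  bE' : ∀ f, (∀ g, (can f).stE ≠ can g ∧ (can f).stE ≠ (can g).r2) → ∀ y < k,
    (T f (k - 1) y).ep = false
  bW' : ∀ f, (∀ g, (can f).r2.stE ≠ can g ∧ (can f).r2.stE ≠ (can g).r2) → ∀ y < k,
    (T f 0 y).wp = false
  /-- every vertical line meets the curve -/
  cov : ∀ f, ∀ x < k, ∃ z : ℤ, (∀ y ∈ Set.uIcc 0 z, ∃ g, (pN ^ y) (can f) = can g) ∧
    ∃ g, (pN ^ z) (can f) = can g ∧ ∃ y < k, (T g x y).wp = true
  /-- the curve is connected -/
  conn : ∀ ψ : P.Facet → ℕ → ℕ → Prop,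
    (∀ f x y, x < k → y + 1 < k → (T f x y).goN = true → (ψ f x y ↔ ψ f x (y + 1))) →
    (∀ f x y, x < k → y + 1 < k → (T f x y).frN = true → (ψ f x y ↔ ψ f x (y + 1))) →
    (∀ f x y, x + 1 < k → y < k → (T f x y).ep = true → (ψ f x y ↔ ψ f (x + 1) y)) →
    (∀ f g, (can f).stN = can g → ∀ x < k, (T f x (k - 1)).goN = true →
      (ψ f x (k - 1) ↔ ψ g x 0)) →
    (∀ f g, (can f).stN = can g → ∀ x < k, (T f x (k - 1)).frN = true →
      (ψ f x (k - 1) ↔ ψ g x 0)) →
    (∀ f g, (can f).stE = can g → ∀ y < k, (T f (k - 1) y).ep = true →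
      (ψ f (k - 1) y ↔ ψ g 0 y)) →
    (∀ f g, (can f).stE = (can g).r2 → ∀ y < k, (T f (k - 1) y).ep = true →
      (ψ f (k - 1) y ↔ ψ g (k - 1) (k - 1 - y))) →
    (∀ f g, (can f).r2.stE = can g → ∀ y < k, (T f 0 y).wp = true →
      (ψ f 0 y ↔ ψ g 0 (k - 1 - y))) →
    ∀ f x y g x' y', x < k → y < k → x' < k → y' < k → T f x y ≠ Ty.o → T g x' y' ≠ Ty.o →
      (ψ f x y ↔ ψ g x' y')
  ne : Nonempty P.Facet

namespace Pat

variable {P k} (A : P.Pat k)

/-- the facet of the refinement with given coordinates -/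
noncomputable def cell (f : P.Facet) (x y : ℕ) (hx : x < k) (hy : y < k) : (P.refine k A.hk).Facet :=
  (sub A.hk (A.can f) x y hx hy).facet

/-- coordinates of a facet of the refinement -/
noncomputable def X (f : (P.refine k A.hk).Facet) : ℕ := ix k (A.can (co A.hk f)).1.e f.1.1
noncomputable def Y (f : (P.refine k A.hk).Facet) : ℕ := ix k (A.can (co A.hk f)).1.n f.1.1

lemma X_lt (f : (P.refine k A.hk).Facet) : A.X f < k := ix_lt A.hk _ _
lemma Y_lt (f : (P.refine k A.hk).Facet) : A.Y f < k := ix_lt A.hk _ _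

/-- the frame of a facet of the refinement -/
noncomputable def can' (f : (P.refine k A.hk).Facet) : (P.refine k A.hk).FSt :=
  sub A.hk (A.can (co A.hk f)) (A.X f) (A.Y f) (A.X_lt f) (A.Y_lt f)

lemma can'_facet (f : (P.refine k A.hk).Facet) : (A.can' f).facet = f :=
  sub_ix A.hk _ f (A.can_facet _).symm

lemma co_cell (f : P.Facet) {x y : ℕ} (hx : x < k) (hy : y < k) :
    co A.hk (A.cell f x y hx hy) = f := by
  unfold cell; rw [co_sub, A.can_facet]

lemma X_cell (f : P.Facet) {x y : ℕ} (hx : x < k) (hy : y < k) :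
    A.X (A.cell f x y hx hy) = x := by
  unfold X
  rw [A.co_cell]
  exact ix_subC_e _ (A.can f).2.2 hx hy

lemma Y_cell (f : P.Facet) {x y : ℕ} (hx : x < k) (hy : y < k) :
    A.Y (A.cell f x y hx hy) = y := by
  unfold Y
  rw [A.co_cell]
  exact ix_subC_n _ (A.can f).2.2 hx hy

lemma can'_cell (f : P.Facet) {x y : ℕ} (hx : x < k) (hy : y < k) :
    A.can' (A.cell f x y hx hy) = sub A.hk (A.can f) x y hx hy := by
  unfold can'
  exact sub_congr _ _ (by rw [A.co_cell]) (A.X_cell f hx hy) (A.Y_cell f hx hy)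

lemma cell_surj (f : (P.refine k A.hk).Facet) :
    f = A.cell (co A.hk f) (A.X f) (A.Y f) (A.X_lt f) (A.Y_lt f) := (A.can'_facet f).symm

/-- the type of a facet of the refinement -/
noncomputable def ty (f : (P.refine k A.hk).Facet) : Ty := A.T (co A.hk f) (A.X f) (A.Y f)

lemma ty_cell (f : P.Facet) {x y : ℕ} (hx : x < k) (hy : y < k) :
    A.ty (A.cell f x y hx hy) = A.T f x y := by
  unfold ty
  rw [A.co_cell, A.X_cell, A.Y_cell]

lemma link_N_mid (f : P.Facet) {x y : ℕ} (hx : x < k) (hy : y + 1 < k) :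
    (A.can' (A.cell f x y hx (by omega))).stN = A.can' (A.cell f x (y + 1) hx hy) := by
  rw [A.can'_cell, A.can'_cell, sub_stN_mid]

lemma link_N_end {f g : P.Facet} (h : (A.can f).stN = A.can g) {x : ℕ} (hx : x < k) :
    (A.can' (A.cell f x (k - 1) hx (by omega))).stN = A.can' (A.cell g x 0 hx A.hk) := by
  rw [A.can'_cell, A.can'_cell, sub_stN_end]
  exact sub_congr _ _ h rfl rfl

lemma link_E_mid (f : P.Facet) {x y : ℕ} (hx : x + 1 < k) (hy : y < k) :
    (A.can' (A.cell f x y (by omega) hy)).stE = A.can' (A.cell f (x + 1) y hx hy) := by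
  rw [A.can'_cell, A.can'_cell, sub_stE_mid]

lemma link_E_end {f g : P.Facet} (h : (A.can f).stE = A.can g) {y : ℕ} (hy : y < k) :
    (A.can' (A.cell f (k - 1) y (by omega) hy)).stE = A.can' (A.cell g 0 y A.hk hy) := by
  rw [A.can'_cell, A.can'_cell, sub_stE_end]
  exact sub_congr _ _ h rfl rfl

lemma link_E_rev {f g : P.Facet} (h : (A.can f).stE = (A.can g).r2) {y : ℕ} (hy : y < k) :
    (A.can' (A.cell f (k - 1) y (by omega) hy)).stE =
      (A.can' (A.cell g (k - 1) (k - 1 - y) (by omega) (by omega))).r2 := by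
  rw [A.can'_cell, A.can'_cell, sub_stE_end, sub_r2]
  exact sub_congr _ _ h (by omega) (by omega)

lemma link_W_rev {f g : P.Facet} (h : (A.can f).r2.stE = A.can g) {y : ℕ} (hy : y < k) :
    (A.can' (A.cell f 0 y A.hk hy)).r2.stE =
      A.can' (A.cell g 0 (k - 1 - y) A.hk (by omega)) := by
  rw [A.can'_cell, A.can'_cell, sub_r2]
  have h1 := sub_stE_end (hk := A.hk) (A.can f).r2 (y := k - 1 - y) (by omega)
  have h2 : sub A.hk (A.can f).r2 (k - 1 - 0) (k - 1 - y) (by omega) (by omega) =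
      sub A.hk (A.can f).r2 (k - 1) (k - 1 - y) (by omega) (by omega) :=
    sub_congr _ _ rfl (by omega) rfl
  rw [h2, h1]
  exact sub_congr _ _ h rfl rfl

lemma can_inj {f g : P.Facet} (h : A.can f = A.can g) : f = g := by
  rw [← A.can_facet f, ← A.can_facet g, h]

/-- The northern neighbour exists. -/
lemma north {f : (P.refine k A.hk).Facet} (h : (A.ty f).goN = true ∨ (A.ty f).frN = true) :
    ∃ g, (A.can' f).stN = A.can' g ∧ (A.ty f).goN = (A.ty g).frS ∧
      (A.ty f).frN = (A.ty g).goS := by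
  obtain ⟨F, x, y, hx, hy, rfl⟩ : ∃ F x y, ∃ (hx : x < k) (hy : y < k), f = A.cell F x y hx hy :=
    ⟨_, _, _, _, _, A.cell_surj f⟩
  rw [A.ty_cell] at h ⊢
  by_cases hy' : y + 1 < k
  · exact ⟨A.cell F x (y + 1) hx hy', A.link_N_mid F hx hy', by rw [A.ty_cell, A.vN F x y hx hy'],
      by rw [A.ty_cell, A.vS F x y hx hy']⟩
  · have hy1 : y = k - 1 := by omega
    subst hy1
    by_cases hg : ∃ g, (A.can F).stN = A.can g
    · obtain ⟨g, hg⟩ := hg
      exact ⟨A.cell g x 0 hx A.hk, A.link_N_end hg hx, by rw [A.ty_cell, A.bN F g hg x hx],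
        by rw [A.ty_cell, A.bS F g hg x hx]⟩
    · push Not at hg
      have := A.bN' F hg x hx
      rw [this.1, this.2] at h
      simp at h

/-- The southern neighbour exists. -/
lemma south {f : (P.refine k A.hk).Facet} (h : (A.ty f).frS = true ∨ (A.ty f).goS = true) :
    ∃ g, (A.can' g).stN = A.can' f ∧ (A.ty g).goN = (A.ty f).frS ∧
      (A.ty g).frN = (A.ty f).goS := by
  obtain ⟨F, x, y, hx, hy, rfl⟩ : ∃ F x y, ∃ (hx : x < k) (hy : y < k), f = A.cell F x y hx hy :=
    ⟨_, _, _, _, _, A.cell_surj f⟩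
  rw [A.ty_cell] at h ⊢
  by_cases hy' : y = 0
  · subst hy'
    by_cases hg : ∃ g, (A.can g).stN = A.can F
    · obtain ⟨g, hg⟩ := hg
      exact ⟨A.cell g x (k - 1) hx (by omega), A.link_N_end hg hx,
        by rw [A.ty_cell, A.bN g F hg x hx], by rw [A.ty_cell, A.bS g F hg x hx]⟩
    · push Not at hg
      have := A.bS' F hg x hx
      rw [this.1, this.2] at h
      simp at h
  · obtain ⟨y, rfl⟩ : ∃ y', y = y' + 1 := ⟨y - 1, by omega⟩
    exact ⟨A.cell F x y hx (by omega), A.link_N_mid F hx hy, by rw [A.ty_cell, A.vN F x y hx hy],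
      by rw [A.ty_cell, A.vS F x y hx hy]⟩

/-- The eastern neighbour exists. -/
lemma east {f : (P.refine k A.hk).Facet} (h : (A.ty f).ep = true) :
    (∃ g, (A.can' f).stE = A.can' g ∧ (A.ty g).wp = true) ∨
      (∃ g, (A.can' f).stE = (A.can' g).r2 ∧ (A.ty g).ep = true) := by
  obtain ⟨F, x, y, hx, hy, rfl⟩ : ∃ F x y, ∃ (hx : x < k) (hy : y < k), f = A.cell F x y hx hy :=
    ⟨_, _, _, _, _, A.cell_surj f⟩
  rw [A.ty_cell] at h
  by_cases hx' : x + 1 < k
  · left
    exact ⟨A.cell F (x + 1) y hx' hy, A.link_E_mid F hx' hy, by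
      rw [A.ty_cell, ← A.hh F x y hx' hy, h]⟩
  · have hx1 : x = k - 1 := by omega
    subst hx1
    by_cases h1 : ∃ g, (A.can F).stE = A.can g
    · obtain ⟨g, hg⟩ := h1
      left
      exact ⟨A.cell g 0 y A.hk hy, A.link_E_end hg hy, by rw [A.ty_cell, ← A.bE F g hg y hy, h]⟩
    · by_cases h2 : ∃ g, (A.can F).stE = (A.can g).r2
      · obtain ⟨g, hg⟩ := h2
        right
        exact ⟨A.cell g (k - 1) (k - 1 - y) (by omega) (by omega), A.link_E_rev hg hy, by
          rw [A.ty_cell, ← A.bEr F g hg y hy, h]⟩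
      · push Not at h1 h2
        have := A.bE' F (fun g => ⟨h1 g, h2 g⟩) y hy
        rw [this] at h
        exact absurd h (by simp)

/-- The western neighbour exists. -/
lemma west {f : (P.refine k A.hk).Facet} (h : (A.ty f).wp = true) :
    (∃ g, (A.can' g).stE = A.can' f ∧ (A.ty g).ep = true) ∨
      (∃ g, (A.can' f).r2.stE = A.can' g ∧ (A.ty g).wp = true) := by
  obtain ⟨F, x, y, hx, hy, rfl⟩ : ∃ F x y, ∃ (hx : x < k) (hy : y < k), f = A.cell F x y hx hy :=
    ⟨_, _, _, _, _, A.cell_surj f⟩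
  rw [A.ty_cell] at h
  by_cases hx' : x = 0
  · subst hx'
    by_cases h1 : ∃ g, (A.can F).r2.stE = A.can g
    · obtain ⟨g, hg⟩ := h1
      right
      exact ⟨A.cell g 0 (k - 1 - y) A.hk (by omega), A.link_W_rev hg hy, by
        rw [A.ty_cell, ← A.bWr F g hg y hy, h]⟩
    · by_cases h2 : ∃ g, (A.can F).r2.stE = (A.can g).r2
      · obtain ⟨g, hg⟩ := h2
        left
        have hg' : (A.can g).stE = A.can F := by
          have h3 := FSt.stE_inv (A.can F).r2
          rw [hg] at h3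
          simpa using h3
        exact ⟨A.cell g (k - 1) y (by omega) hy, A.link_E_end hg' hy, by
          rw [A.ty_cell, A.bE g F hg' y hy, h]⟩
      · push Not at h1 h2
        have := A.bW' F (fun g => ⟨h1 g, h2 g⟩) y hy
        rw [this] at h
        exact absurd h (by simp)
  · obtain ⟨x, rfl⟩ : ∃ x', x = x' + 1 := ⟨x - 1, by omega⟩
    left
    exact ⟨A.cell F x y (by omega) hy, A.link_E_mid F hx hy, by
      rw [A.ty_cell, A.hh F x y hx hy, h]⟩

open Classical in
/-- the cell curve of a pattern curve -/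
noncomputable def cellCurve : (P.refine k A.hk).CellCurve where
  can := A.can'
  can_facet := A.can'_facet
  τ := A.ty
  hN := fun f h => by
    obtain ⟨g, h1, h2, -⟩ := A.north (Or.inl h)
    exact ⟨g, h1, by rw [← h2, h]⟩
  hN' := fun f h => by
    obtain ⟨g, h1, h2, -⟩ := A.south (Or.inl h)
    exact ⟨g, h1, by rw [h2, h]⟩
  hS := fun f h => by
    obtain ⟨g, h1, -, h2⟩ := A.north (Or.inr h)
    exact ⟨g, h1, by rw [← h2, h]⟩
  hS' := fun f h => by
    obtain ⟨g, h1, -, h2⟩ := A.south (Or.inr h)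
    exact ⟨g, h1, by rw [h2, h]⟩
  hE := fun f h => A.east h
  hW := fun f h => A.west h
  cov := fun f => by
    obtain ⟨F, x, y, hx, hy, rfl⟩ :
        ∃ F x y, ∃ (hx : x < k) (hy : y < k), f = A.cell F x y hx hy :=
      ⟨_, _, _, _, _, A.cell_surj f⟩
    obtain ⟨z, h1, g, h2, y', hy', h3⟩ := A.cov F x hx
    have hk' : (0 : ℤ) < k := by exact_mod_cast A.hk
    rw [A.can'_cell]
    have hs : sub A.hk (A.can F) x y hx hy = subZ A.hk (A.can F) x hx (y : ℤ) := by
      have := subZ_eq A.hk (A.can F) hx hy 0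
      simp only [mul_zero, zero_add, zpow_zero, Equiv.Perm.coe_one, id_eq] at this
      exact this.symm
    rw [hs]
    refine ⟨(k : ℤ) * z + y' - y, ?_, A.cell g x y' hx hy', ?_, ?_⟩
    · intro w hw
      rw [subZ_pow]
      set t := (y : ℤ) + w with ht
      have e3 := Int.mul_ediv_add_emod t k
      have e4 := Int.emod_nonneg t hk'.ne'
      have e5 := Int.emod_lt_of_pos t hk'
      have hq : t / (k : ℤ) ∈ Set.uIcc 0 z := by
        rw [Set.mem_uIcc] at hw ⊢
        rcases hw with ⟨a1, a2⟩ | ⟨a1, a2⟩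
        · left
          constructor
          · by_contra hlt
            push Not at hlt
            nlinarith
          · by_contra hlt
            push Not at hlt
            nlinarith
        · right
          constructor
          · by_contra hlt
            push Not at hlt
            nlinarith
          · by_contra hlt
            push Not at hlt
            nlinarith
      obtain ⟨g', hg'⟩ := h1 _ hq
      obtain ⟨r, hr⟩ : ∃ r : ℕ, (r : ℤ) = t % (k : ℤ) := ⟨(t % (k : ℤ)).toNat, by omega⟩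
      have hrk : r < k := by omega
      have ht' : t = (k : ℤ) * (t / (k : ℤ)) + r := by omega
      refine ⟨A.cell g' x r hx hrk, ?_⟩
      rw [A.can'_cell]
      conv_lhs => rw [ht']
      rw [subZ_eq A.hk _ hx hrk]
      exact sub_congr _ _ hg' rfl rfl
    · rw [subZ_pow, A.can'_cell]
      have : (y : ℤ) + ((k : ℤ) * z + y' - y) = (k : ℤ) * z + y' := by ring
      rw [this, subZ_eq A.hk _ hx hy']
      exact sub_congr _ _ h2 rfl rfl
    · rw [A.ty_cell]; exact h3
  conn := fun φ c1 c2 c3 c4 c5 => by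
    have main := A.conn (fun f x y => if h : x < k ∧ y < k then φ (A.cell f x y h.1 h.2) else True)
      ?_ ?_ ?_ ?_ ?_ ?_ ?_ ?_
    · intro f g hf hg
      obtain ⟨F, x, y, hx, hy, rfl⟩ :
          ∃ F x y, ∃ (hx : x < k) (hy : y < k), f = A.cell F x y hx hy :=
        ⟨_, _, _, _, _, A.cell_surj f⟩
      obtain ⟨G, x', y', hx', hy', rfl⟩ :
          ∃ F x y, ∃ (hx : x < k) (hy : y < k), g = A.cell F x y hx hy :=
        ⟨_, _, _, _, _, A.cell_surj g⟩
      rw [A.ty_cell] at hf hg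
      have := main F x y G x' y' hx hy hx' hy' hf hg
      rw [dif_pos ⟨hx, hy⟩, dif_pos ⟨hx', hy'⟩] at this
      exact this
    · intro f x y hx hy h
      rw [dif_pos ⟨hx, by omega⟩, dif_pos ⟨hx, hy⟩]
      exact c1 _ _ (A.link_N_mid f hx hy) (by rw [A.ty_cell]; exact h)
    · intro f x y hx hy h
      rw [dif_pos ⟨hx, by omega⟩, dif_pos ⟨hx, hy⟩]
      exact c2 _ _ (A.link_N_mid f hx hy) (by rw [A.ty_cell]; exact h)
    · intro f x y hx hy h
      rw [dif_pos ⟨by omega, hy⟩, dif_pos ⟨hx, hy⟩]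
      exact c3 _ _ (A.link_E_mid f hx hy) (by rw [A.ty_cell]; exact h)
    · intro f g hfg x hx h
      have := A.hk
      rw [dif_pos ⟨hx, by omega⟩, dif_pos ⟨hx, A.hk⟩]
      exact c1 _ _ (A.link_N_end hfg hx) (by rw [A.ty_cell]; exact h)
    · intro f g hfg x hx h
      have := A.hk
      rw [dif_pos ⟨hx, by omega⟩, dif_pos ⟨hx, A.hk⟩]
      exact c2 _ _ (A.link_N_end hfg hx) (by rw [A.ty_cell]; exact h)
    · intro f g hfg y hy h
      have := A.hk
      rw [dif_pos ⟨by omega, hy⟩, dif_pos ⟨A.hk, hy⟩]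
      exact c3 _ _ (A.link_E_end hfg hy) (by rw [A.ty_cell]; exact h)
    · intro f g hfg y hy h
      have := A.hk
      rw [dif_pos ⟨by omega, hy⟩, dif_pos ⟨by omega, by omega⟩]
      exact c4 _ _ (A.link_E_rev hfg hy) (by rw [A.ty_cell]; exact h)
    · intro f g hfg y hy h
      have := A.hk
      rw [dif_pos ⟨A.hk, hy⟩, dif_pos ⟨A.hk, by omega⟩]
      exact c5 _ _ (A.link_W_rev hfg hy) (by rw [A.ty_cell]; exact h)
  ne := by
    obtain ⟨f⟩ := A.ne
    exact ⟨A.cell f 0 0 A.hk A.hk⟩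

/-- **A pattern curve gives an edge unfolding of the refinement.** -/
theorem hasEdgeUnfolding (A : P.Pat k) : (P.refine k A.hk).HasEdgeUnfolding :=
  A.cellCurve.hasEdgeUnfolding

end Pat

end GridSolid

end Pool.Agent.Helper55.UNF
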