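import Pool.Agent.Helper55.UNF.LOrbit
import Pool.Agent.Helper55.UNF.Pat

/-!
Pattern curves with lean facets.
-/

namespace Pool.Agent.Helper55.UNF

namespace GridSolid

variable {P : GridSolid} {k : ℕ}

/-- steps to the east between vertical lines inside a facet -/
lemma subZ_stE_mid (hk : 0 < k) (s : P.FSt) {x : ℕ} (hx : x + 1 < k) (t : ℤ) :
    (subZ hk s x (by omega) t).stE = subZ hk s (x + 1) hx t := by
  unfold subZ
  exact sub_stE_mid _ hx _

/-- steps to the east between vertical lines of two facets -/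
lemma subZ_stE_end (hk : 0 < k) (s t : P.FSt) (m : ℤ)
    (h : ((pN ^ (m / (k : ℤ))) s).stE = (pN ^ (m / (k : ℤ))) t) :
    (subZ hk s (k - 1) (by omega) m).stE = subZ hk t 0 hk m := by
  unfold subZ
  rw [sub_stE_end]
  exact sub_congr _ _ h rfl rfl

/-- the data of a lean facet -/
structure PLean (can : P.Facet → P.FSt) (L : P.Facet → Prop) (T : P.Facet → ℕ → ℕ → Ty) (k : ℕ)
    (f : P.Facet) where
  f0 : P.Facet
  g0 : P.Facet
  n : ℕ
  y0 : ℕ
  E : Bool
  hn : 0 < n
  hy : y0 < k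
  row : ∀ x < k, T f0 x y0 = Ty.H
  top : (pN ^ (n : ℤ)) (can f0) = can f
  par : ∀ i : ℕ, i ≤ n → if E then ((pN ^ (i : ℤ)) (can f0)).stE = (pN ^ (i : ℤ)) (can g0)
    else ((pN ^ (i : ℤ)) (can g0)).stE = (pN ^ (i : ℤ)) (can f0)
  s0 : T g0 (if E then 0 else k - 1) y0 = Ty.H
  s1 : ∀ y, y0 < y → y < k → T g0 (if E then 0 else k - 1) y = Ty.o
  s2 : ∀ i : ℕ, 1 ≤ i → i ≤ n → ∃ h, ¬ L h ∧ (pN ^ (i : ℤ)) (can g0) = can h ∧
    ∀ y < k, T h (if E then 0 else k - 1) y = Ty.o

variable (P k)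

/-- A pattern curve with lean facets. -/
structure LPat where
  hk : 0 < k
  can : P.Facet → P.FSt
  can_facet : ∀ f, (can f).facet = f
  T : P.Facet → ℕ → ℕ → Ty
  /-- vertical steps inside a facet -/
  vN : ∀ f x y, x < k → y + 1 < k → (T f x y).goN = (T f x (y + 1)).frS
  vS : ∀ f x y, x < k → y + 1 < k → (T f x y).frN = (T f x (y + 1)).goS
  /-- horizontal steps inside a facet -/
  hh : ∀ f x y, x + 1 < k → y < k → (T f x y).ep = (T f (x + 1) y).wp
  /-- vertical steps to the next facet -/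
  bN : ∀ f g, (can f).stN = can g → ∀ x < k, (T f x (k - 1)).goN = (T g x 0).frS
  bS : ∀ f g, (can f).stN = can g → ∀ x < k, (T f x (k - 1)).frN = (T g x 0).goS
  bN' : ∀ f, (∀ g, (can f).stN ≠ can g) → ∀ x < k,
    (T f x (k - 1)).goN = false ∧ (T f x (k - 1)).frN = false
  bS' : ∀ g, (∀ f, (can f).stN ≠ can g) → ∀ x < k, (T g x 0).frS = false ∧ (T g x 0).goS = false
  /-- horizontal steps to the next facet -/
  bE : ∀ f g, (can f).stE = can g → ∀ y < k, (T f (k - 1) y).ep = (T g 0 y).wp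
  bEr : ∀ f g, (can f).stE = (can g).r2 → ∀ y < k, (T f (k - 1) y).ep = (T g (k - 1) (k - 1 - y)).ep
  bWr : ∀ f g, (can f).r2.stE = can g → ∀ y < k, (T f 0 y).wp = (T g 0 (k - 1 - y)).wp
  bE' : ∀ f, (∀ g, (can f).stE ≠ can g ∧ (can f).stE ≠ (can g).r2) → ∀ y < k,
    (T f (k - 1) y).ep = false
  bW' : ∀ f, (∀ g, (can f).r2.stE ≠ can g ∧ (can f).r2.stE ≠ (can g).r2) → ∀ y < k,
    (T f 0 y).wp = false
  /-- the lean facets -/
  L : P.Facet → Prop
  hL : ∀ f, L f → ∀ x y, x < k → y < k → T f x y = Ty.o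
  /-- every regular vertical line meets the curve -/
  cov : ∀ f, ¬ L f → ∀ x < k, ∃ z : ℤ,
    (∀ y ∈ Set.uIcc 0 z, ∃ g, ¬ L g ∧ (pN ^ y) (can f) = can g) ∧
    ∃ g, (pN ^ z) (can f) = can g ∧ ∃ y < k, (T g x y).wp = true
  lean : ∀ f, L f → Nonempty (PLean can L T k f)
  cut : ∀ f, L f → ∃ g x y, x < k ∧ y < k ∧ T g x y ≠ Ty.o ∧ T g x y ≠ Ty.H
  /-- the curve is connected -/
  conn : ∀ ψ : P.Facet → ℕ → ℕ → Prop,
    (∀ f x y, x < k → y + 1 < k → (T f x y).goN = true → (ψ f x y ↔ ψ f x (y + 1))) →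
    (∀ f x y, x < k → y + 1 < k → (T f x y).frN = true → (ψ f x y ↔ ψ f x (y + 1))) →
    (∀ f x y, x + 1 < k → y < k → (T f x y).ep = true → (ψ f x y ↔ ψ f (x + 1) y)) →
    (∀ f g, (can f).stN = can g → ∀ x < k, (T f x (k - 1)).goN = true →
      (ψ f x (k - 1) ↔ ψ g x 0)) →
    (∀ f g, (can f).stN = can g → ∀ x < k, (T f x (k - 1)).frN = true →
      (ψ f x (k - 1) ↔ ψ g x 0)) →
    (∀ f g, (can f).stE = can g → ∀ y < k, (T f (k - 1) y).ep = true →
      (ψ f (k - 1) y ↔ ψ g 0 y)) →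
    (∀ f g, (can f).stE = (can g).r2 → ∀ y < k, (T f (k - 1) y).ep = true →
      (ψ f (k - 1) y ↔ ψ g (k - 1) (k - 1 - y))) →
    (∀ f g, (can f).r2.stE = can g → ∀ y < k, (T f 0 y).wp = true →
      (ψ f 0 y ↔ ψ g 0 (k - 1 - y))) →
    ∀ f x y g x' y', x < k → y < k → x' < k → y' < k → T f x y ≠ Ty.o → T g x' y' ≠ Ty.o →
      (ψ f x y ↔ ψ g x' y')
  ne : Nonempty P.Facet

namespace LPat

variable {P k} (A : P.LPat k)

/-- the facet of the refinement with given coordinates -/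
noncomputable def cell (f : P.Facet) (x y : ℕ) (hx : x < k) (hy : y < k) : (P.refine k A.hk).Facet :=
  (sub A.hk (A.can f) x y hx hy).facet

/-- coordinates of a facet of the refinement -/
noncomputable def X (f : (P.refine k A.hk).Facet) : ℕ := ix k (A.can (co A.hk f)).1.e f.1.1
noncomputable def Y (f : (P.refine k A.hk).Facet) : ℕ := ix k (A.can (co A.hk f)).1.n f.1.1

lemma X_lt (f : (P.refine k A.hk).Facet) : A.X f < k := ix_lt A.hk _ _
lemma Y_lt (f : (P.refine k A.hk).Facet) : A.Y f < k := ix_lt A.hk _ _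

/-- the frame of a facet of the refinement -/
noncomputable def can' (f : (P.refine k A.hk).Facet) : (P.refine k A.hk).FSt :=
  sub A.hk (A.can (co A.hk f)) (A.X f) (A.Y f) (A.X_lt f) (A.Y_lt f)

lemma can'_facet (f : (P.refine k A.hk).Facet) : (A.can' f).facet = f :=
  sub_ix A.hk _ f (A.can_facet _).symm

lemma co_cell (f : P.Facet) {x y : ℕ} (hx : x < k) (hy : y < k) :
    co A.hk (A.cell f x y hx hy) = f := by
  unfold cell; rw [co_sub, A.can_facet]

lemma X_cell (f : P.Facet) {x y : ℕ} (hx : x < k) (hy : y < k) :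
    A.X (A.cell f x y hx hy) = x := by
  unfold X
  rw [A.co_cell]
  exact ix_subC_e _ (A.can f).2.2 hx hy

lemma Y_cell (f : P.Facet) {x y : ℕ} (hx : x < k) (hy : y < k) :
    A.Y (A.cell f x y hx hy) = y := by
  unfold Y
  rw [A.co_cell]
  exact ix_subC_n _ (A.can f).2.2 hx hy

lemma can'_cell (f : P.Facet) {x y : ℕ} (hx : x < k) (hy : y < k) :
    A.can' (A.cell f x y hx hy) = sub A.hk (A.can f) x y hx hy := by
  unfold can'
  exact sub_congr _ _ (by rw [A.co_cell]) (A.X_cell f hx hy) (A.Y_cell f hx hy)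

lemma cell_surj (f : (P.refine k A.hk).Facet) :
    f = A.cell (co A.hk f) (A.X f) (A.Y f) (A.X_lt f) (A.Y_lt f) := (A.can'_facet f).symm

/-- the type of a facet of the refinement -/
noncomputable def ty (f : (P.refine k A.hk).Facet) : Ty := A.T (co A.hk f) (A.X f) (A.Y f)

lemma ty_cell (f : P.Facet) {x y : ℕ} (hx : x < k) (hy : y < k) :
    A.ty (A.cell f x y hx hy) = A.T f x y := by
  unfold ty
  rw [A.co_cell, A.X_cell, A.Y_cell]

lemma link_N_mid (f : P.Facet) {x y : ℕ} (hx : x < k) (hy : y + 1 < k) :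
    (A.can' (A.cell f x y hx (by omega))).stN = A.can' (A.cell f x (y + 1) hx hy) := by
  rw [A.can'_cell, A.can'_cell, sub_stN_mid]

lemma link_N_end {f g : P.Facet} (h : (A.can f).stN = A.can g) {x : ℕ} (hx : x < k) :
    (A.can' (A.cell f x (k - 1) hx (by omega))).stN = A.can' (A.cell g x 0 hx A.hk) := by
  rw [A.can'_cell, A.can'_cell, sub_stN_end]
  exact sub_congr _ _ h rfl rfl

lemma link_E_mid (f : P.Facet) {x y : ℕ} (hx : x + 1 < k) (hy : y < k) :
    (A.can' (A.cell f x y (by omega) hy)).stE = A.can' (A.cell f (x + 1) y hx hy) := by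
  rw [A.can'_cell, A.can'_cell, sub_stE_mid]

lemma link_E_end {f g : P.Facet} (h : (A.can f).stE = A.can g) {y : ℕ} (hy : y < k) :
    (A.can' (A.cell f (k - 1) y (by omega) hy)).stE = A.can' (A.cell g 0 y A.hk hy) := by
  rw [A.can'_cell, A.can'_cell, sub_stE_end]
  exact sub_congr _ _ h rfl rfl

lemma link_E_rev {f g : P.Facet} (h : (A.can f).stE = (A.can g).r2) {y : ℕ} (hy : y < k) :
    (A.can' (A.cell f (k - 1) y (by omega) hy)).stE =
      (A.can' (A.cell g (k - 1) (k - 1 - y) (by omega) (by omega))).r2 := by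
  rw [A.can'_cell, A.can'_cell, sub_stE_end, sub_r2]
  exact sub_congr _ _ h (by omega) (by omega)

lemma link_W_rev {f g : P.Facet} (h : (A.can f).r2.stE = A.can g) {y : ℕ} (hy : y < k) :
    (A.can' (A.cell f 0 y A.hk hy)).r2.stE =
      A.can' (A.cell g 0 (k - 1 - y) A.hk (by omega)) := by
  rw [A.can'_cell, A.can'_cell, sub_r2]
  have h1 := sub_stE_end (hk := A.hk) (A.can f).r2 (y := k - 1 - y) (by omega)
  have h2 : sub A.hk (A.can f).r2 (k - 1 - 0) (k - 1 - y) (by omega) (by omega) =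
      sub A.hk (A.can f).r2 (k - 1) (k - 1 - y) (by omega) (by omega) :=
    sub_congr _ _ rfl (by omega) rfl
  rw [h2, h1]
  exact sub_congr _ _ h rfl rfl

lemma can_inj {f g : P.Facet} (h : A.can f = A.can g) : f = g := by
  rw [← A.can_facet f, ← A.can_facet g, h]

/-- The northern neighbour exists. -/
lemma north {f : (P.refine k A.hk).Facet} (h : (A.ty f).goN = true ∨ (A.ty f).frN = true) :
    ∃ g, (A.can' f).stN = A.can' g ∧ (A.ty f).goN = (A.ty g).frS ∧
      (A.ty f).frN = (A.ty g).goS := by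
  obtain ⟨F, x, y, hx, hy, rfl⟩ : ∃ F x y, ∃ (hx : x < k) (hy : y < k), f = A.cell F x y hx hy :=
    ⟨_, _, _, _, _, A.cell_surj f⟩
  rw [A.ty_cell] at h ⊢
  by_cases hy' : y + 1 < k
  · exact ⟨A.cell F x (y + 1) hx hy', A.link_N_mid F hx hy', by rw [A.ty_cell, A.vN F x y hx hy'],
      by rw [A.ty_cell, A.vS F x y hx hy']⟩
  · have hy1 : y = k - 1 := by omega
    subst hy1
    by_cases hg : ∃ g, (A.can F).stN = A.can g
    · obtain ⟨g, hg⟩ := hg
      exact ⟨A.cell g x 0 hx A.hk, A.link_N_end hg hx, by rw [A.ty_cell, A.bN F g hg x hx],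
        by rw [A.ty_cell, A.bS F g hg x hx]⟩
    · push Not at hg
      have := A.bN' F hg x hx
      rw [this.1, this.2] at h
      simp at h

/-- The southern neighbour exists. -/
lemma south {f : (P.refine k A.hk).Facet} (h : (A.ty f).frS = true ∨ (A.ty f).goS = true) :
    ∃ g, (A.can' g).stN = A.can' f ∧ (A.ty g).goN = (A.ty f).frS ∧
      (A.ty g).frN = (A.ty f).goS := by
  obtain ⟨F, x, y, hx, hy, rfl⟩ : ∃ F x y, ∃ (hx : x < k) (hy : y < k), f = A.cell F x y hx hy :=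
    ⟨_, _, _, _, _, A.cell_surj f⟩
  rw [A.ty_cell] at h ⊢
  by_cases hy' : y = 0
  · subst hy'
    by_cases hg : ∃ g, (A.can g).stN = A.can F
    · obtain ⟨g, hg⟩ := hg
      exact ⟨A.cell g x (k - 1) hx (by omega), A.link_N_end hg hx,
        by rw [A.ty_cell, A.bN g F hg x hx], by rw [A.ty_cell, A.bS g F hg x hx]⟩
    · push Not at hg
      have := A.bS' F hg x hx
      rw [this.1, this.2] at h
      simp at h
  · obtain ⟨y, rfl⟩ : ∃ y', y = y' + 1 := ⟨y - 1, by omega⟩
    exact ⟨A.cell F x y hx (by omega), A.link_N_mid F hx hy, by rw [A.ty_cell, A.vN F x y hx hy],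
      by rw [A.ty_cell, A.vS F x y hx hy]⟩

/-- The eastern neighbour exists. -/
lemma east {f : (P.refine k A.hk).Facet} (h : (A.ty f).ep = true) :
    (∃ g, (A.can' f).stE = A.can' g ∧ (A.ty g).wp = true) ∨
      (∃ g, (A.can' f).stE = (A.can' g).r2 ∧ (A.ty g).ep = true) := by
  obtain ⟨F, x, y, hx, hy, rfl⟩ : ∃ F x y, ∃ (hx : x < k) (hy : y < k), f = A.cell F x y hx hy :=
    ⟨_, _, _, _, _, A.cell_surj f⟩
  rw [A.ty_cell] at h
  by_cases hx' : x + 1 < k
  · left
    exact ⟨A.cell F (x + 1) y hx' hy, A.link_E_mid F hx' hy, by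
      rw [A.ty_cell, ← A.hh F x y hx' hy, h]⟩
  · have hx1 : x = k - 1 := by omega
    subst hx1
    by_cases h1 : ∃ g, (A.can F).stE = A.can g
    · obtain ⟨g, hg⟩ := h1
      left
      exact ⟨A.cell g 0 y A.hk hy, A.link_E_end hg hy, by rw [A.ty_cell, ← A.bE F g hg y hy, h]⟩
    · by_cases h2 : ∃ g, (A.can F).stE = (A.can g).r2
      · obtain ⟨g, hg⟩ := h2
        right
        exact ⟨A.cell g (k - 1) (k - 1 - y) (by omega) (by omega), A.link_E_rev hg hy, by
          rw [A.ty_cell, ← A.bEr F g hg y hy, h]⟩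
      · push Not at h1 h2
        have := A.bE' F (fun g => ⟨h1 g, h2 g⟩) y hy
        rw [this] at h
        exact absurd h (by simp)

/-- The western neighbour exists. -/
lemma west {f : (P.refine k A.hk).Facet} (h : (A.ty f).wp = true) :
    (∃ g, (A.can' g).stE = A.can' f ∧ (A.ty g).ep = true) ∨
      (∃ g, (A.can' f).r2.stE = A.can' g ∧ (A.ty g).wp = true) := by
  obtain ⟨F, x, y, hx, hy, rfl⟩ : ∃ F x y, ∃ (hx : x < k) (hy : y < k), f = A.cell F x y hx hy :=
    ⟨_, _, _, _, _, A.cell_surj f⟩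
  rw [A.ty_cell] at h
  by_cases hx' : x = 0
  · subst hx'
    by_cases h1 : ∃ g, (A.can F).r2.stE = A.can g
    · obtain ⟨g, hg⟩ := h1
      right
      exact ⟨A.cell g 0 (k - 1 - y) A.hk (by omega), A.link_W_rev hg hy, by
        rw [A.ty_cell, ← A.bWr F g hg y hy, h]⟩
    · by_cases h2 : ∃ g, (A.can F).r2.stE = (A.can g).r2
      · obtain ⟨g, hg⟩ := h2
        left
        have hg' : (A.can g).stE = A.can F := by
          have h3 := FSt.stE_inv (A.can F).r2
          rw [hg] at h3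
          simpa using h3
        exact ⟨A.cell g (k - 1) y (by omega) hy, A.link_E_end hg' hy, by
          rw [A.ty_cell, A.bE g F hg' y hy, h]⟩
      · push Not at h1 h2
        have := A.bW' F (fun g => ⟨h1 g, h2 g⟩) y hy
        rw [this] at h
        exact absurd h (by simp)
  · obtain ⟨x, rfl⟩ : ∃ x', x = x' + 1 := ⟨x - 1, by omega⟩
    left
    exact ⟨A.cell F x y (by omega) hy, A.link_E_mid F hx hy, by
      rw [A.ty_cell, A.hh F x y hx hy, h]⟩


/-- the data of a lean facet -/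
noncomputable def dat {f : P.Facet} (h : A.L f) : PLean A.can A.L A.T k f :=
  Classical.choice (A.lean f h)

lemma can'_eq_subZ (f : P.Facet) {x y : ℕ} (hx : x < k) (hy : y < k) :
    A.can' (A.cell f x y hx hy) = subZ A.hk (A.can f) x hx (y : ℤ) := by
  rw [A.can'_cell]
  have := subZ_eq A.hk (A.can f) hx hy 0
  simp only [mul_zero, zero_add, zpow_zero, Equiv.Perm.coe_one, id_eq] at this
  exact this.symm

open Classical in
/-- the base of a lean facet of the refinement -/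
noncomputable def lb' (c : (P.refine k A.hk).Facet) : (P.refine k A.hk).Facet :=
  if h : A.L (co A.hk c) then A.cell (A.dat h).f0 (A.X c) (A.dat h).y0 (A.X_lt c) (A.dat h).hy
  else c

open Classical in
noncomputable def lz' (c : (P.refine k A.hk).Facet) : ℕ :=
  if h : A.L (co A.hk c) then k * (A.dat h).n + A.Y c - (A.dat h).y0 else 0

open Classical in
noncomputable def ld' (c : (P.refine k A.hk).Facet) : ℕ :=
  if h : A.L (co A.hk c) then (if (A.dat h).E then k - 1 - A.X c else A.X c) else 0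

lemma dat_congr {f g : P.Facet} (hf : A.L f) (hg : A.L g) (h : f = g) :
    (A.dat hf).f0 = (A.dat hg).f0 ∧ (A.dat hf).g0 = (A.dat hg).g0 ∧ (A.dat hf).n = (A.dat hg).n ∧
      (A.dat hf).y0 = (A.dat hg).y0 ∧ (A.dat hf).E = (A.dat hg).E := by
  subst h
  exact ⟨rfl, rfl, rfl, rfl, rfl⟩

lemma cell_congr {f g : P.Facet} {x x' y y' : ℕ} (hx : x < k) (hy : y < k) (h : f = g)
    (h1 : x = x') (h2 : y = y') :
    A.cell f x y hx hy = A.cell g x' y' (h1 ▸ hx) (h2 ▸ hy) := by
  subst h; subst h1; subst h2; rfl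

lemma lb'_cell {f : P.Facet} (h : A.L f) {x y : ℕ} (hx : x < k) (hy : y < k) :
    A.lb' (A.cell f x y hx hy) = A.cell (A.dat h).f0 x (A.dat h).y0 hx (A.dat h).hy := by
  have hco := A.co_cell f hx hy
  have h' : A.L (co A.hk (A.cell f x y hx hy)) := by rw [hco]; exact h
  unfold lb'
  rw [dif_pos h']
  obtain ⟨d1, d2, d3, d4, d5⟩ := A.dat_congr h' h hco
  exact A.cell_congr _ _ d1 (A.X_cell f hx hy) d4

lemma lz'_cell {f : P.Facet} (h : A.L f) {x y : ℕ} (hx : x < k) (hy : y < k) :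
    A.lz' (A.cell f x y hx hy) = k * (A.dat h).n + y - (A.dat h).y0 := by
  have hco := A.co_cell f hx hy
  have h' : A.L (co A.hk (A.cell f x y hx hy)) := by rw [hco]; exact h
  unfold lz'
  rw [dif_pos h']
  obtain ⟨d1, d2, d3, d4, d5⟩ := A.dat_congr h' h hco
  rw [d3, d4, A.Y_cell]

lemma ld'_cell {f : P.Facet} (h : A.L f) {x y : ℕ} (hx : x < k) (hy : y < k) :
    A.ld' (A.cell f x y hx hy) = if (A.dat h).E then k - 1 - x else x := by
  have hco := A.co_cell f hx hy
  have h' : A.L (co A.hk (A.cell f x y hx hy)) := by rw [hco]; exact h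
  unfold ld'
  rw [dif_pos h']
  obtain ⟨d1, d2, d3, d4, d5⟩ := A.dat_congr h' h hco
  rw [d5, A.X_cell]

/-- the support column -/
lemma sup_col {f : P.Facet} (D : PLean A.can A.L A.T k f) {y : ℕ} (hy : y < k) (sx : ℕ)
    (hsx : sx < k) (hs : (if D.E then 0 else k - 1) = sx) (i : ℕ) (h1 : 1 ≤ i)
    (h2 : i ≤ k * D.n + y - D.y0) :
    ∃ h, ¬ A.L (co A.hk h) ∧
      (pN ^ (i : ℤ)) (A.can' (A.cell D.g0 sx D.y0 hsx D.hy)) = A.can' h ∧ A.ty h = Ty.o := by
  have hk' : (0 : ℤ) < k := by exact_mod_cast A.hk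
  have hyD := D.hy
  rw [A.can'_eq_subZ, subZ_pow]
  set t : ℕ := D.y0 + i with ht
  have ht' : ((D.y0 : ℤ) + (i : ℤ)) = (t : ℤ) := by rw [ht]; push_cast; ring
  rw [ht']
  obtain ⟨q, r, hr, hqr⟩ : ∃ q r : ℕ, r < k ∧ t = k * q + r :=
    ⟨t / k, t % k, Nat.mod_lt _ A.hk, (Nat.div_add_mod t k).symm⟩
  have hts : (t : ℤ) = (k : ℤ) * (q : ℤ) + r := by rw [hqr]; push_cast; ring
  have hqn : q ≤ D.n := by
    by_contra hcon
    push Not at hcon
    have h3 : k * (D.n + 1) ≤ k * q := Nat.mul_le_mul_left k hcon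
    have h4 : k * (D.n + 1) = k * D.n + k := by ring
    omega
  rw [hts, subZ_eq A.hk _ hsx hr]
  rcases Nat.eq_zero_or_pos q with hq | hq
  · subst hq
    refine ⟨A.cell D.g0 sx r hsx hr, ?_, ?_, ?_⟩
    · rw [A.co_cell]
      intro hg
      have := A.hL _ hg _ _ hsx D.hy
      have h0 := D.s0
      rw [hs] at h0
      rw [h0] at this
      exact absurd this (by simp)
    · rw [A.can'_cell]
      exact sub_congr _ _ (by simp) rfl rfl
    · rw [A.ty_cell]
      have := D.s1 r (by omega) hr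
      rw [hs] at this
      exact this
  · obtain ⟨h, k1, k2, k3⟩ := D.s2 q hq hqn
    refine ⟨A.cell h sx r hsx hr, ?_, ?_, ?_⟩
    · rw [A.co_cell]; exact k1
    · rw [A.can'_cell]
      exact sub_congr _ _ k2 rfl rfl
    · rw [A.ty_cell]
      have := k3 r hr
      rw [hs] at this
      exact this

lemma lean_cell {f : P.Facet} (hf : A.L f) {x y : ℕ} (hx : x < k) (hy : y < k) :
    0 < A.lz' (A.cell f x y hx hy) ∧ A.ty (A.lb' (A.cell f x y hx hy)) = Ty.H ∧
    ((pN ^ (A.lz' (A.cell f x y hx hy) : ℤ)) (A.can' (A.lb' (A.cell f x y hx hy)))).facet =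
      A.cell f x y hx hy ∧
    ∃ b', A.ty b' = Ty.H ∧
      ((∀ i : ℕ, i ≤ A.lz' (A.cell f x y hx hy) →
          ((pN ^ (i : ℤ)) (A.can' (A.lb' (A.cell f x y hx hy)))).stE =
            (pN ^ (i : ℤ)) (A.can' b')) ∨
        (∀ i : ℕ, i ≤ A.lz' (A.cell f x y hx hy) → ((pN ^ (i : ℤ)) (A.can' b')).stE =
          (pN ^ (i : ℤ)) (A.can' (A.lb' (A.cell f x y hx hy))))) ∧
      ((∃ g, A.L (co A.hk g) ∧ A.lb' g = b' ∧ A.lz' g = A.lz' (A.cell f x y hx hy) ∧
          A.ld' g < A.ld' (A.cell f x y hx hy)) ∨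
        (∀ i : ℕ, 1 ≤ i → i ≤ A.lz' (A.cell f x y hx hy) →
          ∃ h, ¬ A.L (co A.hk h) ∧ (pN ^ (i : ℤ)) (A.can' b') = A.can' h ∧ A.ty h = Ty.o)) := by
  rw [A.lb'_cell hf hx hy, A.lz'_cell hf hx hy, A.ld'_cell hf hx hy]
  set D := A.dat hf with hD
  have hk := A.hk
  have hk' : (0 : ℤ) < k := by exact_mod_cast A.hk
  have hyD := D.hy
  have hn := D.hn
  have hkn : k ≤ k * D.n := Nat.le_mul_of_pos_right k hn
  have hq : ∀ i : ℕ, i ≤ k * D.n + y - D.y0 → ((D.y0 : ℤ) + i) / (k : ℤ) ≤ D.n ∧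
      0 ≤ ((D.y0 : ℤ) + i) / (k : ℤ) := by
    intro i hi
    constructor
    · have h1 : (D.y0 : ℤ) + i < (k : ℤ) * (D.n + 1) := by
        have : D.y0 + i < k * (D.n + 1) := by rw [mul_add, mul_one]; omega
        exact_mod_cast this
      have := Int.ediv_lt_of_lt_mul hk' (by rw [mul_comm] at h1; exact h1)
      omega
    · exact Int.ediv_nonneg (by positivity) hk'.le
  have parE : D.E = true → ∀ i : ℕ, i ≤ k * D.n + y - D.y0 →
      ((pN ^ (((D.y0 : ℤ) + i) / (k : ℤ))) (A.can D.f0)).stE =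
        (pN ^ (((D.y0 : ℤ) + i) / (k : ℤ))) (A.can D.g0) := by
    intro hE i hi
    obtain ⟨h1, h2⟩ := hq i hi
    have := D.par (((D.y0 : ℤ) + i) / (k : ℤ)).toNat (by omega)
    rw [if_pos hE, Int.toNat_of_nonneg h2] at this
    exact this
  have parW : D.E = false → ∀ i : ℕ, i ≤ k * D.n + y - D.y0 →
      ((pN ^ (((D.y0 : ℤ) + i) / (k : ℤ))) (A.can D.g0)).stE =
        (pN ^ (((D.y0 : ℤ) + i) / (k : ℤ))) (A.can D.f0) := by
    intro hE i hi
    obtain ⟨h1, h2⟩ := hq i hi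
    have := D.par (((D.y0 : ℤ) + i) / (k : ℤ)).toNat (by omega)
    rw [if_neg (by rw [hE]; simp), Int.toNat_of_nonneg h2] at this
    exact this
  refine ⟨by omega, by rw [A.ty_cell]; exact D.row x hx, ?_, ?_⟩
  · rw [A.can'_eq_subZ, subZ_pow]
    have e : (D.y0 : ℤ) + ((k * D.n + y - D.y0 : ℕ) : ℤ) = (k : ℤ) * (D.n : ℤ) + y := by
      have h1 : D.y0 + (k * D.n + y - D.y0) = k * D.n + y := by omega
      have h2 : ((D.y0 + (k * D.n + y - D.y0) : ℕ) : ℤ) = ((k * D.n + y : ℕ) : ℤ) := by rw [h1]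
      push_cast at h2 ⊢
      exact h2
    rw [e, subZ_eq A.hk _ hx hy]
    exact congrArg FSt.facet (sub_congr _ _ D.top rfl rfl)
  · by_cases hE : D.E = true
    · by_cases hx1 : x + 1 < k
      · refine ⟨A.cell D.f0 (x + 1) D.y0 hx1 D.hy, by rw [A.ty_cell]; exact D.row _ hx1,
          Or.inl ?_, Or.inl ⟨A.cell f (x + 1) y hx1 hy, ?_, ?_, ?_, ?_⟩⟩
        · intro i _
          rw [A.can'_eq_subZ, A.can'_eq_subZ, subZ_pow, subZ_pow, subZ_stE_mid]
        · rw [A.co_cell]; exact hf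
        · rw [A.lb'_cell hf hx1 hy]
        · rw [A.lz'_cell hf hx1 hy]
        · rw [A.ld'_cell hf hx1 hy, ← hD, if_pos hE, if_pos hE]
          omega
      · have hxk : x = k - 1 := by omega
        subst hxk
        refine ⟨A.cell D.g0 0 D.y0 hk D.hy, ?_, Or.inl ?_, Or.inr ?_⟩
        · rw [A.ty_cell]
          have := D.s0
          rw [if_pos hE] at this
          exact this
        · intro i hi
          rw [A.can'_eq_subZ, A.can'_eq_subZ, subZ_pow, subZ_pow]
          exact subZ_stE_end A.hk _ _ _ (parE hE i hi)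
        · intro i h1 h2
          exact A.sup_col D hy 0 hk (by rw [if_pos hE]) i h1 h2
    · have hE' : D.E = false := by simpa using hE
      by_cases hx1 : 0 < x
      · obtain ⟨x, rfl⟩ : ∃ x', x = x' + 1 := ⟨x - 1, by omega⟩
        have hx2 : x < k := by omega
        refine ⟨A.cell D.f0 x D.y0 hx2 D.hy, by rw [A.ty_cell]; exact D.row _ hx2,
          Or.inr ?_, Or.inl ⟨A.cell f x y hx2 hy, ?_, ?_, ?_, ?_⟩⟩
        · intro i _
          rw [A.can'_eq_subZ, A.can'_eq_subZ, subZ_pow, subZ_pow, subZ_stE_mid]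
        · rw [A.co_cell]; exact hf
        · rw [A.lb'_cell hf hx2 hy]
        · rw [A.lz'_cell hf hx2 hy]
        · rw [A.ld'_cell hf hx2 hy, ← hD, if_neg hE, if_neg hE]
          omega
      · have hx0 : x = 0 := by omega
        subst hx0
        refine ⟨A.cell D.g0 (k - 1) D.y0 (by omega) D.hy, ?_, Or.inr ?_, Or.inr ?_⟩
        · rw [A.ty_cell]
          have := D.s0
          rw [if_neg hE] at this
          exact this
        · intro i hi
          rw [A.can'_eq_subZ, A.can'_eq_subZ, subZ_pow, subZ_pow]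
          exact subZ_stE_end A.hk _ _ _ (parW hE' i hi)
        · intro i h1 h2
          exact A.sup_col D hy (k - 1) (by omega) (by rw [if_neg hE]) i h1 h2

open Classical in
/-- the cell curve of a pattern curve -/
noncomputable def cellCurve : (P.refine k A.hk).LCurve where
  can := A.can'
  can_facet := A.can'_facet
  τ := A.ty
  hN := fun f h => by
    obtain ⟨g, h1, h2, -⟩ := A.north (Or.inl h)
    exact ⟨g, h1, by rw [← h2, h]⟩
  hN' := fun f h => by
    obtain ⟨g, h1, h2, -⟩ := A.south (Or.inl h)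
    exact ⟨g, h1, by rw [h2, h]⟩
  hS := fun f h => by
    obtain ⟨g, h1, -, h2⟩ := A.north (Or.inr h)
    exact ⟨g, h1, by rw [← h2, h]⟩
  hS' := fun f h => by
    obtain ⟨g, h1, -, h2⟩ := A.south (Or.inr h)
    exact ⟨g, h1, by rw [h2, h]⟩
  hE := fun f h => A.east h
  hW := fun f h => A.west h
  L := fun c => A.L (co A.hk c)
  hL := fun c hc => by
    show A.T (co A.hk c) (A.X c) (A.Y c) = Ty.o
    exact A.hL _ hc _ _ (A.X_lt c) (A.Y_lt c)
  cov := fun f hfL => by
    obtain ⟨F, x, y, hx, hy, rfl⟩ :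
        ∃ F x y, ∃ (hx : x < k) (hy : y < k), f = A.cell F x y hx hy :=
      ⟨_, _, _, _, _, A.cell_surj f⟩
    rw [A.co_cell] at hfL
    obtain ⟨z, h1, g, h2, y', hy', h3⟩ := A.cov F hfL x hx
    have hk' : (0 : ℤ) < k := by exact_mod_cast A.hk
    rw [A.can'_cell]
    have hs : sub A.hk (A.can F) x y hx hy = subZ A.hk (A.can F) x hx (y : ℤ) := by
      have := subZ_eq A.hk (A.can F) hx hy 0
      simp only [mul_zero, zero_add, zpow_zero, Equiv.Perm.coe_one, id_eq] at this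
      exact this.symm
    rw [hs]
    refine ⟨(k : ℤ) * z + y' - y, ?_, A.cell g x y' hx hy', ?_, ?_⟩
    · intro w hw
      rw [subZ_pow]
      set t := (y : ℤ) + w with ht
      have e3 := Int.mul_ediv_add_emod t k
      have e4 := Int.emod_nonneg t hk'.ne'
      have e5 := Int.emod_lt_of_pos t hk'
      have hq : t / (k : ℤ) ∈ Set.uIcc 0 z := by
        rw [Set.mem_uIcc] at hw ⊢
        rcases hw with ⟨a1, a2⟩ | ⟨a1, a2⟩
        · left
          constructor
          · by_contra hlt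
            push Not at hlt
            nlinarith
          · by_contra hlt
            push Not at hlt
            nlinarith
        · right
          constructor
          · by_contra hlt
            push Not at hlt
            nlinarith
          · by_contra hlt
            push Not at hlt
            nlinarith
      obtain ⟨g', hgL, hg'⟩ := h1 _ hq
      obtain ⟨r, hr⟩ : ∃ r : ℕ, (r : ℤ) = t % (k : ℤ) := ⟨(t % (k : ℤ)).toNat, by omega⟩
      have hrk : r < k := by omega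
      have ht' : t = (k : ℤ) * (t / (k : ℤ)) + r := by omega
      refine ⟨A.cell g' x r hx hrk, by rw [A.co_cell]; exact hgL, ?_⟩
      rw [A.can'_cell]
      conv_lhs => rw [ht']
      rw [subZ_eq A.hk _ hx hrk]
      exact sub_congr _ _ hg' rfl rfl
    · rw [subZ_pow, A.can'_cell]
      have : (y : ℤ) + ((k : ℤ) * z + y' - y) = (k : ℤ) * z + y' := by ring
      rw [this, subZ_eq A.hk _ hx hy']
      exact sub_congr _ _ h2 rfl rfl
    · rw [A.ty_cell]; exact h3
  lb := A.lb'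
  lz := A.lz'
  ld := A.ld'
  lean := fun f hf => by
    obtain ⟨F, x, y, hx, hy, rfl⟩ :
        ∃ F x y, ∃ (hx : x < k) (hy : y < k), f = A.cell F x y hx hy :=
      ⟨_, _, _, _, _, A.cell_surj f⟩
    rw [A.co_cell] at hf
    exact A.lean_cell hf hx hy
  cut := fun f hf => by
    obtain ⟨g, x, y, hx, hy, h1, h2⟩ := A.cut _ hf
    exact ⟨A.cell g x y hx hy, by rw [A.ty_cell]; exact h1, by rw [A.ty_cell]; exact h2⟩
  conn := fun φ c1 c2 c3 c4 c5 => by
    have main := A.conn (fun f x y => if h : x < k ∧ y < k then φ (A.cell f x y h.1 h.2) else True)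
      ?_ ?_ ?_ ?_ ?_ ?_ ?_ ?_
    · intro f g hf hg
      obtain ⟨F, x, y, hx, hy, rfl⟩ :
          ∃ F x y, ∃ (hx : x < k) (hy : y < k), f = A.cell F x y hx hy :=
        ⟨_, _, _, _, _, A.cell_surj f⟩
      obtain ⟨G, x', y', hx', hy', rfl⟩ :
          ∃ F x y, ∃ (hx : x < k) (hy : y < k), g = A.cell F x y hx hy :=
        ⟨_, _, _, _, _, A.cell_surj g⟩
      rw [A.ty_cell] at hf hg
      have := main F x y G x' y' hx hy hx' hy' hf hg
      rw [dif_pos ⟨hx, hy⟩, dif_pos ⟨hx', hy'⟩] at this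
      exact this
    · intro f x y hx hy h
      rw [dif_pos ⟨hx, by omega⟩, dif_pos ⟨hx, hy⟩]
      exact c1 _ _ (A.link_N_mid f hx hy) (by rw [A.ty_cell]; exact h)
    · intro f x y hx hy h
      rw [dif_pos ⟨hx, by omega⟩, dif_pos ⟨hx, hy⟩]
      exact c2 _ _ (A.link_N_mid f hx hy) (by rw [A.ty_cell]; exact h)
    · intro f x y hx hy h
      rw [dif_pos ⟨by omega, hy⟩, dif_pos ⟨hx, hy⟩]
      exact c3 _ _ (A.link_E_mid f hx hy) (by rw [A.ty_cell]; exact h)
    · intro f g hfg x hx h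
      have := A.hk
      rw [dif_pos ⟨hx, by omega⟩, dif_pos ⟨hx, A.hk⟩]
      exact c1 _ _ (A.link_N_end hfg hx) (by rw [A.ty_cell]; exact h)
    · intro f g hfg x hx h
      have := A.hk
      rw [dif_pos ⟨hx, by omega⟩, dif_pos ⟨hx, A.hk⟩]
      exact c2 _ _ (A.link_N_end hfg hx) (by rw [A.ty_cell]; exact h)
    · intro f g hfg y hy h
      have := A.hk
      rw [dif_pos ⟨by omega, hy⟩, dif_pos ⟨A.hk, hy⟩]
      exact c3 _ _ (A.link_E_end hfg hy) (by rw [A.ty_cell]; exact h)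
    · intro f g hfg y hy h
      have := A.hk
      rw [dif_pos ⟨by omega, hy⟩, dif_pos ⟨by omega, by omega⟩]
      exact c4 _ _ (A.link_E_rev hfg hy) (by rw [A.ty_cell]; exact h)
    · intro f g hfg y hy h
      have := A.hk
      rw [dif_pos ⟨A.hk, hy⟩, dif_pos ⟨A.hk, by omega⟩]
      exact c5 _ _ (A.link_W_rev hfg hy) (by rw [A.ty_cell]; exact h)
  ne := by
    obtain ⟨f⟩ := A.ne
    exact ⟨A.cell f 0 0 A.hk A.hk⟩

/-- **A pattern curve gives an edge unfolding of the refinement.** -/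
theorem hasEdgeUnfolding (A : P.LPat k) : (P.refine k A.hk).HasEdgeUnfolding :=
  A.cellCurve.hasEdgeUnfolding

end LPat

end GridSolid

end Pool.Agent.Helper55.UNF
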