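import Pool.Agent.Helper55.UNF.Cross

/-!
Tables: every facet is divided into `k` by `k` cells; `pr f x y` tells whether a strand crosses the
vertical unit edge on the line `x` in row `y`, and `la f x y` which lane crosses the horizontal
unit edge in column `x` on the line `y`.
-/

namespace Pool.Agent.Helper55.UNF

/-- the predicate at the sides of a cell -/
def prt (ψ χ : ℕ → ℕ → Prop) (x y : ℕ) : Prt → Prop
  | Prt.W => ψ x y
  | Prt.E => ψ (x + 1) y
  | Prt.S => χ x y
  | Prt.N => χ x (y + 1)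

namespace GridSolid

variable (P : GridSolid) (k : ℕ)

/-- A table of strands and lanes. -/
structure Tab where
  hk : 0 < k
  can : P.Facet → P.FSt
  can_facet : ∀ f, (can f).facet = f
  /-- strands over vertical unit edges -/
  pr : P.Facet → ℕ → ℕ → Bool
  /-- lanes over horizontal unit edges -/
  la : P.Facet → ℕ → ℕ → Ln
  ok : ∀ f x y, x < k → y < k → okc (pr f x y) (pr f (x + 1) y) (la f x (y + 1)) (la f x y) = true
  gN : ∀ f g, (can f).stN = can g → ∀ x < k, la f x k = la g x 0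
  gN' : ∀ f, (∀ g, (can f).stN ≠ can g) → ∀ x < k, la f x k = Ln.z
  gS' : ∀ g, (∀ f, (can f).stN ≠ can g) → ∀ x < k, la g x 0 = Ln.z
  gE : ∀ f g, (can f).stE = can g → ∀ y < k, pr f k y = pr g 0 y
  gEr : ∀ f g, (can f).stE = (can g).r2 → ∀ y < k, pr f k y = pr g k (k - 1 - y)
  gWr : ∀ f g, (can f).r2.stE = can g → ∀ y < k, pr f 0 y = pr g 0 (k - 1 - y)
  gE' : ∀ f, (∀ g, (can f).stE ≠ can g ∧ (can f).stE ≠ (can g).r2) → ∀ y < k, pr f k y = false
  gW' : ∀ f, (∀ g, (can f).r2.stE ≠ can g ∧ (can f).r2.stE ≠ (can g).r2) → ∀ y < k,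
    pr f 0 y = false
  cov : ∀ f, ∀ x < k, ∃ z : ℤ, (∀ y ∈ Set.uIcc 0 z, ∃ g, (pN ^ y) (can f) = can g) ∧
    ∃ g, (pN ^ z) (can f) = can g ∧ ∃ y < k, pr g x y = true ∧ pr g (x + 1) y = true
  conn : ∀ ψ χ : P.Facet → ℕ → ℕ → Prop,
    (∀ f x y, x < k → y < k → ∀ p,
      usd (pr f x y) (pr f (x + 1) y) (la f x (y + 1)) (la f x y) p = true →
      (prt (ψ f) (χ f) x y p ↔ prt (ψ f) (χ f) x y
        (mate (pr f x y) (pr f (x + 1) y) (la f x (y + 1)) (la f x y) p))) →
    (∀ f g, (can f).stN = can g → ∀ x < k, la f x k ≠ Ln.z → (χ f x k ↔ χ g x 0)) →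
    (∀ f g, (can f).stE = can g → ∀ y < k, pr f k y = true → (ψ f k y ↔ ψ g 0 y)) →
    (∀ f g, (can f).stE = (can g).r2 → ∀ y < k, pr f k y = true → (ψ f k y ↔ ψ g k (k - 1 - y))) →
    (∀ f g, (can f).r2.stE = can g → ∀ y < k, pr f 0 y = true → (ψ f 0 y ↔ ψ g 0 (k - 1 - y))) →
    ∃ c : Prop, (∀ f x y, x ≤ k → y < k → pr f x y = true → (ψ f x y ↔ c)) ∧
      (∀ f x y, x < k → y ≤ k → la f x y ≠ Ln.z → (χ f x y ↔ c))
  ne : Nonempty P.Facet

namespace Tab

variable {P k} (A : P.Tab k)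

/-- the pattern table -/
def T (f : P.Facet) (X Y : ℕ) : Ty :=
  pat (A.pr f (X / 5) (Y / 5)) (A.pr f (X / 5 + 1) (Y / 5)) (A.la f (X / 5) (Y / 5 + 1))
    (A.la f (X / 5) (Y / 5)) (X % 5) (Y % 5)

lemma T_eq (f : P.Facet) (x y i j : ℕ) (hi : i < 5) (hj : j < 5) :
    A.T f (5 * x + i) (5 * y + j) =
      pat (A.pr f x y) (A.pr f (x + 1) y) (A.la f x (y + 1)) (A.la f x y) i j := by
  unfold T
  have h1 : (5 * x + i) / 5 = x := by omega
  have h2 : (5 * y + j) / 5 = y := by omega
  have h3 : (5 * x + i) % 5 = i := by omega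
  have h4 : (5 * y + j) % 5 = j := by omega
  rw [h1, h2, h3, h4]

lemma ex5 (X : ℕ) (h : X < 5 * k) : ∃ x i, X = 5 * x + i ∧ i < 5 ∧ x < k :=
  ⟨X / 5, X % 5, by omega, by omega, by omega⟩

/-- the value of a predicate on a vertical unit edge -/
def pv (k : ℕ) (ψ : ℕ → ℕ → Prop) (x y : ℕ) : Prop :=
  if x < k then ψ (5 * x) (5 * y + 2) else ψ (5 * k - 1) (5 * y + 2)

/-- the value of a predicate on a horizontal unit edge -/
def ph (k : ℕ) (ψ : ℕ → ℕ → Prop) (x y : ℕ) : Prop :=
  if y < k then ψ (5 * x + 2) (5 * y) else ψ (5 * x + 2) (5 * k - 1)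

/-- the pattern curve of a table -/
def toPat : P.Pat (5 * k) where
  hk := by have := A.hk; omega
  can := A.can
  can_facet := A.can_facet
  T := A.T
  vN := fun f X Y hX hY => by
    obtain ⟨x, i, rfl, hi, hx⟩ := ex5 X hX
    obtain ⟨y, j, rfl, hj, hy⟩ := ex5 (k := k) Y (by omega)
    rcases Nat.lt_or_ge (j + 1) 5 with h | h
    · rw [show 5 * y + j + 1 = 5 * y + (j + 1) by ring, A.T_eq f x y i j hi hj,
        A.T_eq f x y i (j + 1) hi h]
      exact pat_vN _ _ _ _ (A.ok f x y hx hy) i hi j (by omega)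
    · have hj4 : j = 4 := by omega
      subst hj4
      rw [show 5 * y + 4 + 1 = 5 * (y + 1) + 0 by ring, A.T_eq f x y i 4 hi hj,
        A.T_eq f x (y + 1) i 0 hi (by norm_num),
        (pat_N _ _ _ _ (A.ok f x y hx hy) i hi).1,
        (pat_S _ _ _ _ (A.ok f x (y + 1) hx (by omega)) i hi).1]
  vS := fun f X Y hX hY => by
    obtain ⟨x, i, rfl, hi, hx⟩ := ex5 X hX
    obtain ⟨y, j, rfl, hj, hy⟩ := ex5 (k := k) Y (by omega)
    rcases Nat.lt_or_ge (j + 1) 5 with h | h
    · rw [show 5 * y + j + 1 = 5 * y + (j + 1) by ring, A.T_eq f x y i j hi hj,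
        A.T_eq f x y i (j + 1) hi h]
      exact pat_vS _ _ _ _ (A.ok f x y hx hy) i hi j (by omega)
    · have hj4 : j = 4 := by omega
      subst hj4
      rw [show 5 * y + 4 + 1 = 5 * (y + 1) + 0 by ring, A.T_eq f x y i 4 hi hj,
        A.T_eq f x (y + 1) i 0 hi (by norm_num),
        (pat_N _ _ _ _ (A.ok f x y hx hy) i hi).2,
        (pat_S _ _ _ _ (A.ok f x (y + 1) hx (by omega)) i hi).2]
  hh := fun f X Y hX hY => by
    obtain ⟨x, i, rfl, hi, hx⟩ := ex5 (k := k) X (by omega)
    obtain ⟨y, j, rfl, hj, hy⟩ := ex5 Y hY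
    rcases Nat.lt_or_ge (i + 1) 5 with h | h
    · rw [show 5 * x + i + 1 = 5 * x + (i + 1) by ring, A.T_eq f x y i j hi hj,
        A.T_eq f x y (i + 1) j h hj]
      exact pat_h _ _ _ _ (A.ok f x y hx hy) i (by omega) j hj
    · have hi4 : i = 4 := by omega
      subst hi4
      rw [show 5 * x + 4 + 1 = 5 * (x + 1) + 0 by ring, A.T_eq f x y 4 j hi hj,
        A.T_eq f (x + 1) y 0 j (by norm_num) hj,
        pat_E _ _ _ _ (A.ok f x y hx hy) j hj,
        pat_W _ _ _ _ (A.ok f (x + 1) y (by omega) hy) j hj]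
  bN := fun f g h X hX => by
    have hk := A.hk
    obtain ⟨x, i, rfl, hi, hx⟩ := ex5 X hX
    rw [show 5 * k - 1 = 5 * (k - 1) + 4 by omega, A.T_eq f x (k - 1) i 4 hi (by norm_num),
      show (0 : ℕ) = 5 * 0 + 0 by ring, A.T_eq g x 0 i 0 hi (by norm_num),
      (pat_N _ _ _ _ (A.ok f x (k - 1) hx (by omega)) i hi).1,
      (pat_S _ _ _ _ (A.ok g x 0 hx hk) i hi).1, Nat.sub_add_cancel hk, A.gN f g h x hx]
  bS := fun f g h X hX => by
    have hk := A.hk
    obtain ⟨x, i, rfl, hi, hx⟩ := ex5 X hX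
    rw [show 5 * k - 1 = 5 * (k - 1) + 4 by omega, A.T_eq f x (k - 1) i 4 hi (by norm_num),
      show (0 : ℕ) = 5 * 0 + 0 by ring, A.T_eq g x 0 i 0 hi (by norm_num),
      (pat_N _ _ _ _ (A.ok f x (k - 1) hx (by omega)) i hi).2,
      (pat_S _ _ _ _ (A.ok g x 0 hx hk) i hi).2, Nat.sub_add_cancel hk, A.gN f g h x hx]
  bN' := fun f h X hX => by
    have hk := A.hk
    obtain ⟨x, i, rfl, hi, hx⟩ := ex5 X hX
    rw [show 5 * k - 1 = 5 * (k - 1) + 4 by omega, A.T_eq f x (k - 1) i 4 hi (by norm_num),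
      (pat_N _ _ _ _ (A.ok f x (k - 1) hx (by omega)) i hi).1,
      (pat_N _ _ _ _ (A.ok f x (k - 1) hx (by omega)) i hi).2,
      Nat.sub_add_cancel hk, A.gN' f h x hx]
    simp
  bS' := fun g h X hX => by
    have hk := A.hk
    obtain ⟨x, i, rfl, hi, hx⟩ := ex5 X hX
    rw [show (0 : ℕ) = 5 * 0 + 0 by ring, A.T_eq g x 0 i 0 hi (by norm_num),
      (pat_S _ _ _ _ (A.ok g x 0 hx hk) i hi).1,
      (pat_S _ _ _ _ (A.ok g x 0 hx hk) i hi).2, A.gS' g h x hx]
    simp
  bE := fun f g h Y hY => by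
    have hk := A.hk
    obtain ⟨y, j, rfl, hj, hy⟩ := ex5 Y hY
    rw [show 5 * k - 1 = 5 * (k - 1) + 4 by omega, A.T_eq f (k - 1) y 4 j (by norm_num) hj,
      show (0 : ℕ) = 5 * 0 + 0 by ring, A.T_eq g 0 y 0 j (by norm_num) hj,
      pat_E _ _ _ _ (A.ok f (k - 1) y (by omega) hy) j hj,
      pat_W _ _ _ _ (A.ok g 0 y hk hy) j hj, Nat.sub_add_cancel hk, A.gE f g h y hy]
  bEr := fun f g h Y hY => by
    have hk := A.hk
    obtain ⟨y, j, rfl, hj, hy⟩ := ex5 Y hY
    rw [show 5 * k - 1 - (5 * y + j) = 5 * (k - 1 - y) + (4 - j) by omega,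
      show 5 * k - 1 = 5 * (k - 1) + 4 by omega, A.T_eq f (k - 1) y 4 j (by norm_num) hj,
      A.T_eq g (k - 1) (k - 1 - y) 4 (4 - j) (by norm_num) (by omega),
      pat_E _ _ _ _ (A.ok f (k - 1) y (by omega) hy) j hj,
      pat_E _ _ _ _ (A.ok g (k - 1) (k - 1 - y) (by omega) (by omega)) (4 - j) (by omega),
      Nat.sub_add_cancel hk, A.gEr f g h y hy]
    have : (j = 2) ↔ (4 - j = 2) := by omega
    simp only [this]
  bWr := fun f g h Y hY => by
    have hk := A.hk
    obtain ⟨y, j, rfl, hj, hy⟩ := ex5 Y hY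
    rw [show 5 * k - 1 - (5 * y + j) = 5 * (k - 1 - y) + (4 - j) by omega,
      show (0 : ℕ) = 5 * 0 + 0 by ring, A.T_eq f 0 y 0 j (by norm_num) hj,
      A.T_eq g 0 (k - 1 - y) 0 (4 - j) (by norm_num) (by omega),
      pat_W _ _ _ _ (A.ok f 0 y hk hy) j hj,
      pat_W _ _ _ _ (A.ok g 0 (k - 1 - y) hk (by omega)) (4 - j) (by omega),
      A.gWr f g h y hy]
    have : (j = 2) ↔ (4 - j = 2) := by omega
    simp only [this]
  bE' := fun f h Y hY => by
    have hk := A.hk
    obtain ⟨y, j, rfl, hj, hy⟩ := ex5 Y hY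
    rw [show 5 * k - 1 = 5 * (k - 1) + 4 by omega, A.T_eq f (k - 1) y 4 j (by norm_num) hj,
      pat_E _ _ _ _ (A.ok f (k - 1) y (by omega) hy) j hj, Nat.sub_add_cancel hk,
      A.gE' f h y hy]
    simp
  bW' := fun f h Y hY => by
    have hk := A.hk
    obtain ⟨y, j, rfl, hj, hy⟩ := ex5 Y hY
    rw [show (0 : ℕ) = 5 * 0 + 0 by ring, A.T_eq f 0 y 0 j (by norm_num) hj,
      pat_W _ _ _ _ (A.ok f 0 y hk hy) j hj, A.gW' f h y hy]
    simp
  cov := fun f X hX => by
    obtain ⟨x, i, rfl, hi, hx⟩ := ex5 X hX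
    obtain ⟨z, h1, g, h2, y, hy, h3, h4⟩ := A.cov f x hx
    refine ⟨z, h1, g, h2, ?_⟩
    have hok := A.ok g x y hx hy
    rw [h3, h4] at hok
    obtain ⟨j, hj, h5⟩ := pat_cov _ _ hok i hi
    refine ⟨5 * y + j, by omega, ?_⟩
    rw [A.T_eq g x y i j hi hj, h3, h4]
    exact h5
  conn := fun ψ c1 c2 c3 c4 c5 c6 c7 c8 => by
    have hk := A.hk
    -- links inside a cell
    have hl : ∀ f x y, x < k → y < k →
        (∀ p, usd (A.pr f x y) (A.pr f (x + 1) y) (A.la f x (y + 1)) (A.la f x y) p = true →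
          (ψ f (5 * x + prtX p) (5 * y + prtY p) ↔
          ψ f (5 * x + prtX (mate (A.pr f x y) (A.pr f (x + 1) y) (A.la f x (y + 1)) (A.la f x y) p))
            (5 * y + prtY (mate (A.pr f x y) (A.pr f (x + 1) y) (A.la f x (y + 1))
              (A.la f x y) p)))) ∧
        (∀ i < 5, ∀ j < 5, A.T f (5 * x + i) (5 * y + j) ≠ Ty.o → ∃ p,
          usd (A.pr f x y) (A.pr f (x + 1) y) (A.la f x (y + 1)) (A.la f x y) p = true ∧
          (ψ f (5 * x + i) (5 * y + j) ↔ ψ f (5 * x + prtX p) (5 * y + prtY p))) := by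
      intro f x y hx hy
      have h := pat_links (A.pr f x y) (A.pr f (x + 1) y) (A.la f x (y + 1)) (A.la f x y)
        (A.ok f x y hx hy) (fun i j => ψ f (5 * x + i) (5 * y + j)) ?_ ?_ ?_
      · refine ⟨h.1, ?_⟩
        intro i hi j hj hT
        rw [A.T_eq f x y i j hi hj] at hT
        exact h.2 i hi j hj hT
      · intro i hi j hj hT
        rw [← A.T_eq f x y i j hi (by omega)] at hT
        exact c1 f (5 * x + i) (5 * y + j) (by omega) (by omega) hT
      · intro i hi j hj hT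
        rw [← A.T_eq f x y i j hi (by omega)] at hT
        exact c2 f (5 * x + i) (5 * y + j) (by omega) (by omega) hT
      · intro i hi j hj hT
        rw [← A.T_eq f x y i j (by omega) hj] at hT
        exact c3 f (5 * x + i) (5 * y + j) (by omega) (by omega) hT
    -- the ports of a cell
    have hp : ∀ f x y, x < k → y < k → ∀ p,
        usd (A.pr f x y) (A.pr f (x + 1) y) (A.la f x (y + 1)) (A.la f x y) p = true →
        (ψ f (5 * x + prtX p) (5 * y + prtY p) ↔ prt (pv k (ψ f)) (ph k (ψ f)) x y p) := by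
      intro f x y hx hy p hu
      have hok := A.ok f x y hx hy
      cases p
      · -- west
        show ψ f (5 * x + 0) (5 * y + 2) ↔ pv k (ψ f) x y
        unfold pv
        rw [if_pos hx, Nat.add_zero]
      · -- east
        show ψ f (5 * x + 4) (5 * y + 2) ↔ pv k (ψ f) (x + 1) y
        unfold pv
        by_cases hx1 : x + 1 < k
        · rw [if_pos hx1, show 5 * (x + 1) = 5 * x + 4 + 1 by ring]
          apply c3 f (5 * x + 4) (5 * y + 2) (by omega) (by omega)
          rw [A.T_eq f x y 4 2 (by norm_num) (by norm_num), pat_E _ _ _ _ hok 2 (by norm_num)]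
          have : A.pr f (x + 1) y = true := hu
          rw [this]; simp
        · rw [if_neg hx1, show 5 * k - 1 = 5 * x + 4 by omega]
      · -- north
        show ψ f (5 * x + 2) (5 * y + 4) ↔ ph k (ψ f) x (y + 1)
        unfold ph
        by_cases hy1 : y + 1 < k
        · rw [if_pos hy1, show 5 * (y + 1) = 5 * y + 4 + 1 by ring]
          have hu' : A.la f x (y + 1) ≠ Ln.z := by
            intro h0
            have : usd (A.pr f x y) (A.pr f (x + 1) y) (A.la f x (y + 1)) (A.la f x y) Prt.N =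
              true := hu
            rw [h0] at this
            simp [usd] at this
          have hcase : A.la f x (y + 1) = Ln.n ∨ A.la f x (y + 1) = Ln.s := by
            revert hu'; cases A.la f x (y + 1) <;> simp
          rcases hcase with hc | hc
          · apply c1 f (5 * x + 2) (5 * y + 4) (by omega) (by omega)
            rw [A.T_eq f x y 2 4 (by norm_num) (by norm_num),
              (pat_N _ _ _ _ hok 2 (by norm_num)).1, hc]
            simp
          · apply c2 f (5 * x + 2) (5 * y + 4) (by omega) (by omega)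
            rw [A.T_eq f x y 2 4 (by norm_num) (by norm_num),
              (pat_N _ _ _ _ hok 2 (by norm_num)).2, hc]
            simp
        · rw [if_neg hy1, show 5 * k - 1 = 5 * y + 4 by omega]
      · -- south
        show ψ f (5 * x + 2) (5 * y + 0) ↔ ph k (ψ f) x y
        unfold ph
        rw [if_pos hy]
        exact Iff.rfl
    have hcc := A.conn (fun f => pv k (ψ f)) (fun f => ph k (ψ f)) ?_ ?_ ?_ ?_ ?_
    · -- conclusion
      obtain ⟨c, hc1, hc2⟩ := hcc
      have key : ∀ f X Y, X < 5 * k → Y < 5 * k → A.T f X Y ≠ Ty.o → (ψ f X Y ↔ c) := by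
        intro f X Y hX hY hT
        obtain ⟨x, i, rfl, hi, hx⟩ := ex5 X hX
        obtain ⟨y, j, rfl, hj, hy⟩ := ex5 Y hY
        obtain ⟨p, hu, h1⟩ := (hl f x y hx hy).2 i hi j hj hT
        rw [h1, hp f x y hx hy p hu]
        cases p
        · exact hc1 f x y hx.le hy hu
        · exact hc1 f (x + 1) y hx hy hu
        · apply hc2 f x (y + 1) hx hy
          intro h0
          have h3 : usd (A.pr f x y) (A.pr f (x + 1) y) (A.la f x (y + 1)) (A.la f x y) Prt.N =
            true := hu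
          rw [h0] at h3
          simp [usd] at h3
        · apply hc2 f x y hx hy.le
          intro h0
          have h3 : usd (A.pr f x y) (A.pr f (x + 1) y) (A.la f x (y + 1)) (A.la f x y) Prt.S =
            true := hu
          rw [h0] at h3
          simp [usd] at h3
      intro f x y g x' y' hx hy hx' hy' hf hg
      exact (key f x y hx hy hf).trans (key g x' y' hx' hy' hg).symm
    · intro f x y hx hy p hu
      have hum := (usd_mate _ _ _ _ (A.ok f x y hx hy) p hu).1
      rw [← hp f x y hx hy p hu, ← hp f x y hx hy _ hum]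
      exact (hl f x y hx hy).1 p hu
    · intro f g h x hx hu
      show ph k (ψ f) x k ↔ ph k (ψ g) x 0
      unfold ph
      rw [if_neg (lt_irrefl k), if_pos hk]
      have hok := A.ok f x (k - 1) hx (by omega)
      rw [Nat.sub_add_cancel hk] at hok
      have hcase : A.la f x k = Ln.n ∨ A.la f x k = Ln.s := by
        revert hu; cases A.la f x k <;> simp
      rcases hcase with hc | hc
      · have := c4 f g h (5 * x + 2) (by omega) (by
          rw [show 5 * k - 1 = 5 * (k - 1) + 4 by omega,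
            A.T_eq f x (k - 1) 2 4 (by norm_num) (by norm_num), Nat.sub_add_cancel hk,
            (pat_N _ _ _ _ hok 2 (by norm_num)).1, hc]
          simp)
        simpa using this
      · have := c5 f g h (5 * x + 2) (by omega) (by
          rw [show 5 * k - 1 = 5 * (k - 1) + 4 by omega,
            A.T_eq f x (k - 1) 2 4 (by norm_num) (by norm_num), Nat.sub_add_cancel hk,
            (pat_N _ _ _ _ hok 2 (by norm_num)).2, hc]
          simp)
        simpa using this
    · intro f g h y hy hu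
      show pv k (ψ f) k y ↔ pv k (ψ g) 0 y
      unfold pv
      rw [if_neg (lt_irrefl k), if_pos hk]
      have hok := A.ok f (k - 1) y (by omega) hy
      rw [Nat.sub_add_cancel hk] at hok
      have := c6 f g h (5 * y + 2) (by omega) (by
        rw [show 5 * k - 1 = 5 * (k - 1) + 4 by omega,
          A.T_eq f (k - 1) y 4 2 (by norm_num) (by norm_num), Nat.sub_add_cancel hk,
          pat_E _ _ _ _ hok 2 (by norm_num), hu]
        simp)
      simpa using this
    · intro f g h y hy hu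
      show pv k (ψ f) k y ↔ pv k (ψ g) k (k - 1 - y)
      unfold pv
      rw [if_neg (lt_irrefl k), if_neg (lt_irrefl k)]
      have hok := A.ok f (k - 1) y (by omega) hy
      rw [Nat.sub_add_cancel hk] at hok
      have := c7 f g h (5 * y + 2) (by omega) (by
        rw [show 5 * k - 1 = 5 * (k - 1) + 4 by omega,
          A.T_eq f (k - 1) y 4 2 (by norm_num) (by norm_num), Nat.sub_add_cancel hk,
          pat_E _ _ _ _ hok 2 (by norm_num), hu]
        simp)
      rw [show 5 * k - 1 - (5 * y + 2) = 5 * (k - 1 - y) + 2 by omega] at this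
      exact this
    · intro f g h y hy hu
      show pv k (ψ f) 0 y ↔ pv k (ψ g) 0 (k - 1 - y)
      unfold pv
      rw [if_pos hk, if_pos hk]
      have hok := A.ok f 0 y hk hy
      have := c8 f g h (5 * y + 2) (by omega) (by
        rw [show (0 : ℕ) = 5 * 0 + 0 by ring, A.T_eq f 0 y 0 2 (by norm_num) (by norm_num),
          pat_W _ _ _ _ hok 2 (by norm_num), hu]
        simp)
      rw [show 5 * k - 1 - (5 * y + 2) = 5 * (k - 1 - y) + 2 by omega] at this
      simpa using this
  ne := A.ne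

/-- **A table gives an edge unfolding of the refinement.** -/
theorem hasEdgeUnfolding (A : P.Tab k) :
    (P.refine (5 * k) (by have := A.hk; omega)).HasEdgeUnfolding :=
  A.toPat.hasEdgeUnfolding

end Tab

end GridSolid

end Pool.Agent.Helper55.UNF
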