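import Pool.Agent.Helper55.UNF.LPat
import Pool.Agent.Helper55.UNF.Tab

/-!
Tables with lean facets and with two-sided coverage.

Coverage of a regular column: the canonical line reaches a west port and (maybe at another place)
an east port of this column.  A lean facet carries no strands and no lanes; it is attached to its
eastern or western neighbour (the support line), which hangs on a strand to the south.
-/

namespace Pool.Agent.Helper55.UNF

lemma pat_covW : ∀ b u v, okc true b u v = true → ∀ x < 3, ∃ y < 5,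
    (pat true b u v x y).wp = true := by decide

lemma pat_covE : ∀ a u v, okc a true u v = true → ∀ x < 5, 3 ≤ x → ∃ y < 5,
    (pat a true u v x y).wp = true := by decide

lemma pat_empty_W : ∀ b u v, okc false b u v = true → ∀ y < 5, pat false b u v 0 y = Ty.o := by
  decide

lemma pat_empty_E : ∀ a u v, okc a false u v = true → ∀ y < 5, pat a false u v 4 y = Ty.o := by
  decide

lemma pat_empty : ∀ x < 5, ∀ y < 5, pat false false Ln.z Ln.z x y = Ty.o := by
  decide

lemma pat_row : ∀ x < 5, pat true true Ln.z Ln.z x 2 = Ty.H := by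
  decide

lemma pat_row' : ∀ x < 5, ∀ y < 5, 2 < y → pat true true Ln.z Ln.z x y = Ty.o := by
  decide

lemma pat_laS : ∀ a b u v, okc a b u v = true → v ≠ Ln.z →
    pat a b u v 2 0 ≠ Ty.o ∧ pat a b u v 2 0 ≠ Ty.H := by decide

lemma pat_laN : ∀ a b u v, okc a b u v = true → u ≠ Ln.z →
    pat a b u v 2 4 ≠ Ty.o ∧ pat a b u v 2 4 ≠ Ty.H := by decide

namespace GridSolid

variable (P : GridSolid) (k : ℕ)

/-- The support of a lean facet `f`: `f0` is `n` steps to the south of `f`, its row `y0` is crossed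
by a straight strand that also crosses the first column of the neighbour `g0`; the line over `g0`
is canonical and the side column towards `f` is empty. -/
structure TLean (can : P.Facet → P.FSt) (L : P.Facet → Prop) (pr : P.Facet → ℕ → ℕ → Bool)
    (la : P.Facet → ℕ → ℕ → Ln) (f : P.Facet) where
  f0 : P.Facet
  g0 : P.Facet
  n : ℕ
  y0 : ℕ
  /-- east support or west support -/
  E : Bool
  hn : 0 < n
  hy : y0 < k
  row : ∀ x ≤ k, pr f0 x y0 = true
  rla : ∀ x < k, la f0 x y0 = Ln.z ∧ la f0 x (y0 + 1) = Ln.z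
  top : (pN ^ (n : ℤ)) (can f0) = can f
  par : ∀ i : ℕ, i ≤ n → if E then ((pN ^ (i : ℤ)) (can f0)).stE = (pN ^ (i : ℤ)) (can g0)
    else ((pN ^ (i : ℤ)) (can g0)).stE = (pN ^ (i : ℤ)) (can f0)
  s0 : pr g0 (if E then 0 else k - 1) y0 = true ∧ pr g0 ((if E then 0 else k - 1) + 1) y0 = true ∧
    la g0 (if E then 0 else k - 1) y0 = Ln.z ∧ la g0 (if E then 0 else k - 1) (y0 + 1) = Ln.z
  s1 : ∀ y, y0 < y → y < k → pr g0 (if E then 0 else k) y = false
  s2 : ∀ i : ℕ, 1 ≤ i → i ≤ n → ∃ h, ¬ L h ∧ (pN ^ (i : ℤ)) (can g0) = can h ∧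
    ∀ y < k, pr h (if E then 0 else k) y = false

/-- A table of strands and lanes with lean facets. -/
structure LTab where
  hk : 0 < k
  can : P.Facet → P.FSt
  can_facet : ∀ f, (can f).facet = f
  /-- strands over vertical unit edges -/
  pr : P.Facet → ℕ → ℕ → Bool
  /-- lanes over horizontal unit edges -/
  la : P.Facet → ℕ → ℕ → Ln
  ok : ∀ f x y, x < k → y < k → okc (pr f x y) (pr f (x + 1) y) (la f x (y + 1)) (la f x y) = true
  gN : ∀ f g, (can f).stN = can g → ∀ x < k, la f x k = la g x 0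
  gN' : ∀ f, (∀ g, (can f).stN ≠ can g) → ∀ x < k, la f x k = Ln.z
  gS' : ∀ g, (∀ f, (can f).stN ≠ can g) → ∀ x < k, la g x 0 = Ln.z
  gE : ∀ f g, (can f).stE = can g → ∀ y < k, pr f k y = pr g 0 y
  gEr : ∀ f g, (can f).stE = (can g).r2 → ∀ y < k, pr f k y = pr g k (k - 1 - y)
  gWr : ∀ f g, (can f).r2.stE = can g → ∀ y < k, pr f 0 y = pr g 0 (k - 1 - y)
  gE' : ∀ f, (∀ g, (can f).stE ≠ can g ∧ (can f).stE ≠ (can g).r2) → ∀ y < k, pr f k y = false
  gW' : ∀ f, (∀ g, (can f).r2.stE ≠ can g ∧ (can f).r2.stE ≠ (can g).r2) → ∀ y < k,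
    pr f 0 y = false
  /-- the lean facets -/
  L : P.Facet → Prop
  Lpr : ∀ f, L f → ∀ x y, x ≤ k → y < k → pr f x y = false
  Lla : ∀ f, L f → ∀ x y, x < k → y ≤ k → la f x y = Ln.z
  /-- the line of a regular column reaches a west port and an east port of the column -/
  cov : ∀ f, ¬ L f → ∀ x < k, ∀ w : Bool, ∃ z : ℤ,
    (∀ y ∈ Set.uIcc 0 z, ∃ g, ¬ L g ∧ (pN ^ y) (can f) = can g) ∧
    ∃ g, (pN ^ z) (can f) = can g ∧ ∃ y < k, pr g (if w then x else x + 1) y = true
  lean : ∀ f, L f → Nonempty (P.TLean k can L pr la f)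
  cut : ∀ f, L f → ∃ g x y, x < k ∧ y ≤ k ∧ la g x y ≠ Ln.z
  conn : ∀ ψ χ : P.Facet → ℕ → ℕ → Prop,
    (∀ f x y, x < k → y < k → ∀ p,
      usd (pr f x y) (pr f (x + 1) y) (la f x (y + 1)) (la f x y) p = true →
      (prt (ψ f) (χ f) x y p ↔ prt (ψ f) (χ f) x y
        (mate (pr f x y) (pr f (x + 1) y) (la f x (y + 1)) (la f x y) p))) →
    (∀ f g, (can f).stN = can g → ∀ x < k, la f x k ≠ Ln.z → (χ f x k ↔ χ g x 0)) →
    (∀ f g, (can f).stE = can g → ∀ y < k, pr f k y = true → (ψ f k y ↔ ψ g 0 y)) →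
    (∀ f g, (can f).stE = (can g).r2 → ∀ y < k, pr f k y = true → (ψ f k y ↔ ψ g k (k - 1 - y))) →
    (∀ f g, (can f).r2.stE = can g → ∀ y < k, pr f 0 y = true → (ψ f 0 y ↔ ψ g 0 (k - 1 - y))) →
    ∃ c : Prop, (∀ f x y, x ≤ k → y < k → pr f x y = true → (ψ f x y ↔ c)) ∧
      (∀ f x y, x < k → y ≤ k → la f x y ≠ Ln.z → (χ f x y ↔ c))
  ne : Nonempty P.Facet

namespace LTab

variable {P k} (A : P.LTab k)

/-- the pattern table -/
def T (f : P.Facet) (X Y : ℕ) : Ty :=
  pat (A.pr f (X / 5) (Y / 5)) (A.pr f (X / 5 + 1) (Y / 5)) (A.la f (X / 5) (Y / 5 + 1))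
    (A.la f (X / 5) (Y / 5)) (X % 5) (Y % 5)

lemma T_eq (f : P.Facet) (x y i j : ℕ) (hi : i < 5) (hj : j < 5) :
    A.T f (5 * x + i) (5 * y + j) =
      pat (A.pr f x y) (A.pr f (x + 1) y) (A.la f x (y + 1)) (A.la f x y) i j := by
  unfold T
  have h1 : (5 * x + i) / 5 = x := by omega
  have h2 : (5 * y + j) / 5 = y := by omega
  have h3 : (5 * x + i) % 5 = i := by omega
  have h4 : (5 * y + j) % 5 = j := by omega
  rw [h1, h2, h3, h4]

lemma ex5 (X : ℕ) (h : X < 5 * k) : ∃ x i, X = 5 * x + i ∧ i < 5 ∧ x < k :=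
  ⟨X / 5, X % 5, by omega, by omega, by omega⟩

/-- the lean data of the pattern curve -/
def pLean {f : P.Facet} (D : P.TLean k A.can A.L A.pr A.la f) :
    PLean A.can A.L A.T (5 * k) f where
  f0 := D.f0
  g0 := D.g0
  n := D.n
  y0 := 5 * D.y0 + 2
  E := D.E
  hn := D.hn
  hy := by have := D.hy; omega
  row := fun X hX => by
    obtain ⟨x, i, rfl, hi, hx⟩ := ex5 X hX
    rw [A.T_eq D.f0 x D.y0 i 2 hi (by norm_num), D.row x hx.le, D.row (x + 1) hx,
      (D.rla x hx).1, (D.rla x hx).2]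
    exact pat_row i hi
  top := D.top
  par := D.par
  s0 := by
    have hk := A.hk
    obtain ⟨h1, h2, h3, h4⟩ := D.s0
    by_cases hE : D.E = true
    · rw [if_pos hE] at h1 h2 h3 h4 ⊢
      rw [show (0 : ℕ) = 5 * 0 + 0 by ring, A.T_eq D.g0 0 D.y0 0 2 (by norm_num) (by norm_num),
        h1, h2, h3, h4]
      exact pat_row 0 (by norm_num)
    · rw [if_neg hE] at h1 h2 h3 h4 ⊢
      rw [show 5 * k - 1 = 5 * (k - 1) + 4 by omega,
        A.T_eq D.g0 (k - 1) D.y0 4 2 (by norm_num) (by norm_num), h1, h2, h3, h4]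
      exact pat_row 4 (by norm_num)
  s1 := fun Y h1 h2 => by
    have hk := A.hk
    obtain ⟨y, j, rfl, hj, hy⟩ := ex5 Y h2
    obtain ⟨k1, k2, k3, k4⟩ := D.s0
    have hs := D.s1
    by_cases hE : D.E = true
    · rw [if_pos hE] at k1 k2 k3 k4 ⊢
      simp only [if_pos hE] at hs
      rw [show (0 : ℕ) = 5 * 0 + 0 by ring, A.T_eq D.g0 0 y 0 j (by norm_num) hj]
      by_cases hyy : y = D.y0
      · subst hyy
        rw [k1, k2, k3, k4]
        exact pat_row' 0 (by norm_num) j hj (by omega)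
      · have h3 := hs y (by omega) hy
        have hok := A.ok D.g0 0 y hk hy
        rw [h3] at hok ⊢
        exact pat_empty_W _ _ _ hok j hj
    · rw [if_neg hE] at k1 k2 k3 k4 ⊢
      simp only [if_neg hE] at hs
      rw [show 5 * k - 1 = 5 * (k - 1) + 4 by omega,
        A.T_eq D.g0 (k - 1) y 4 j (by norm_num) hj]
      by_cases hyy : y = D.y0
      · subst hyy
        rw [k1, k2, k3, k4]
        exact pat_row' 4 (by norm_num) j hj (by omega)
      · have h3 := hs y (by omega) hy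
        have hok := A.ok D.g0 (k - 1) y (by omega) hy
        rw [Nat.sub_add_cancel hk] at hok ⊢
        rw [h3] at hok ⊢
        exact pat_empty_E _ _ _ hok j hj
  s2 := fun i h1 h2 => by
    have hk := A.hk
    obtain ⟨h, k1, k2, k3⟩ := D.s2 i h1 h2
    refine ⟨h, k1, k2, fun Y hY => ?_⟩
    obtain ⟨y, j, rfl, hj, hy⟩ := ex5 Y hY
    by_cases hE : D.E = true
    · simp only [if_pos hE] at k3
      rw [if_pos hE, show (0 : ℕ) = 5 * 0 + 0 by ring, A.T_eq h 0 y 0 j (by norm_num) hj]
      have hok := A.ok h 0 y hk hy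
      rw [k3 y hy] at hok ⊢
      exact pat_empty_W _ _ _ hok j hj
    · simp only [if_neg hE] at k3
      rw [if_neg hE, show 5 * k - 1 = 5 * (k - 1) + 4 by omega,
        A.T_eq h (k - 1) y 4 j (by norm_num) hj]
      have hok := A.ok h (k - 1) y (by omega) hy
      rw [Nat.sub_add_cancel hk] at hok ⊢
      rw [k3 y hy] at hok ⊢
      exact pat_empty_E _ _ _ hok j hj

/-- the value of a predicate on a vertical unit edge -/
def pv (k : ℕ) (ψ : ℕ → ℕ → Prop) (x y : ℕ) : Prop :=
  if x < k then ψ (5 * x) (5 * y + 2) else ψ (5 * k - 1) (5 * y + 2)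

/-- the value of a predicate on a horizontal unit edge -/
def ph (k : ℕ) (ψ : ℕ → ℕ → Prop) (x y : ℕ) : Prop :=
  if y < k then ψ (5 * x + 2) (5 * y) else ψ (5 * x + 2) (5 * k - 1)

/-- the pattern curve of a table -/
def toPat : P.LPat (5 * k) where
  hk := by have := A.hk; omega
  can := A.can
  can_facet := A.can_facet
  T := A.T
  vN := fun f X Y hX hY => by
    obtain ⟨x, i, rfl, hi, hx⟩ := ex5 X hX
    obtain ⟨y, j, rfl, hj, hy⟩ := ex5 (k := k) Y (by omega)
    rcases Nat.lt_or_ge (j + 1) 5 with h | h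
    · rw [show 5 * y + j + 1 = 5 * y + (j + 1) by ring, A.T_eq f x y i j hi hj,
        A.T_eq f x y i (j + 1) hi h]
      exact pat_vN _ _ _ _ (A.ok f x y hx hy) i hi j (by omega)
    · have hj4 : j = 4 := by omega
      subst hj4
      rw [show 5 * y + 4 + 1 = 5 * (y + 1) + 0 by ring, A.T_eq f x y i 4 hi hj,
        A.T_eq f x (y + 1) i 0 hi (by norm_num),
        (pat_N _ _ _ _ (A.ok f x y hx hy) i hi).1,
        (pat_S _ _ _ _ (A.ok f x (y + 1) hx (by omega)) i hi).1]
  vS := fun f X Y hX hY => by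
    obtain ⟨x, i, rfl, hi, hx⟩ := ex5 X hX
    obtain ⟨y, j, rfl, hj, hy⟩ := ex5 (k := k) Y (by omega)
    rcases Nat.lt_or_ge (j + 1) 5 with h | h
    · rw [show 5 * y + j + 1 = 5 * y + (j + 1) by ring, A.T_eq f x y i j hi hj,
        A.T_eq f x y i (j + 1) hi h]
      exact pat_vS _ _ _ _ (A.ok f x y hx hy) i hi j (by omega)
    · have hj4 : j = 4 := by omega
      subst hj4
      rw [show 5 * y + 4 + 1 = 5 * (y + 1) + 0 by ring, A.T_eq f x y i 4 hi hj,
        A.T_eq f x (y + 1) i 0 hi (by norm_num),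
        (pat_N _ _ _ _ (A.ok f x y hx hy) i hi).2,
        (pat_S _ _ _ _ (A.ok f x (y + 1) hx (by omega)) i hi).2]
  hh := fun f X Y hX hY => by
    obtain ⟨x, i, rfl, hi, hx⟩ := ex5 (k := k) X (by omega)
    obtain ⟨y, j, rfl, hj, hy⟩ := ex5 Y hY
    rcases Nat.lt_or_ge (i + 1) 5 with h | h
    · rw [show 5 * x + i + 1 = 5 * x + (i + 1) by ring, A.T_eq f x y i j hi hj,
        A.T_eq f x y (i + 1) j h hj]
      exact pat_h _ _ _ _ (A.ok f x y hx hy) i (by omega) j hj
    · have hi4 : i = 4 := by omega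
      subst hi4
      rw [show 5 * x + 4 + 1 = 5 * (x + 1) + 0 by ring, A.T_eq f x y 4 j hi hj,
        A.T_eq f (x + 1) y 0 j (by norm_num) hj,
        pat_E _ _ _ _ (A.ok f x y hx hy) j hj,
        pat_W _ _ _ _ (A.ok f (x + 1) y (by omega) hy) j hj]
  bN := fun f g h X hX => by
    have hk := A.hk
    obtain ⟨x, i, rfl, hi, hx⟩ := ex5 X hX
    rw [show 5 * k - 1 = 5 * (k - 1) + 4 by omega, A.T_eq f x (k - 1) i 4 hi (by norm_num),
      show (0 : ℕ) = 5 * 0 + 0 by ring, A.T_eq g x 0 i 0 hi (by norm_num),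
      (pat_N _ _ _ _ (A.ok f x (k - 1) hx (by omega)) i hi).1,
      (pat_S _ _ _ _ (A.ok g x 0 hx hk) i hi).1, Nat.sub_add_cancel hk, A.gN f g h x hx]
  bS := fun f g h X hX => by
    have hk := A.hk
    obtain ⟨x, i, rfl, hi, hx⟩ := ex5 X hX
    rw [show 5 * k - 1 = 5 * (k - 1) + 4 by omega, A.T_eq f x (k - 1) i 4 hi (by norm_num),
      show (0 : ℕ) = 5 * 0 + 0 by ring, A.T_eq g x 0 i 0 hi (by norm_num),
      (pat_N _ _ _ _ (A.ok f x (k - 1) hx (by omega)) i hi).2,
      (pat_S _ _ _ _ (A.ok g x 0 hx hk) i hi).2, Nat.sub_add_cancel hk, A.gN f g h x hx]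
  bN' := fun f h X hX => by
    have hk := A.hk
    obtain ⟨x, i, rfl, hi, hx⟩ := ex5 X hX
    rw [show 5 * k - 1 = 5 * (k - 1) + 4 by omega, A.T_eq f x (k - 1) i 4 hi (by norm_num),
      (pat_N _ _ _ _ (A.ok f x (k - 1) hx (by omega)) i hi).1,
      (pat_N _ _ _ _ (A.ok f x (k - 1) hx (by omega)) i hi).2,
      Nat.sub_add_cancel hk, A.gN' f h x hx]
    simp
  bS' := fun g h X hX => by
    have hk := A.hk
    obtain ⟨x, i, rfl, hi, hx⟩ := ex5 X hX
    rw [show (0 : ℕ) = 5 * 0 + 0 by ring, A.T_eq g x 0 i 0 hi (by norm_num),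
      (pat_S _ _ _ _ (A.ok g x 0 hx hk) i hi).1,
      (pat_S _ _ _ _ (A.ok g x 0 hx hk) i hi).2, A.gS' g h x hx]
    simp
  bE := fun f g h Y hY => by
    have hk := A.hk
    obtain ⟨y, j, rfl, hj, hy⟩ := ex5 Y hY
    rw [show 5 * k - 1 = 5 * (k - 1) + 4 by omega, A.T_eq f (k - 1) y 4 j (by norm_num) hj,
      show (0 : ℕ) = 5 * 0 + 0 by ring, A.T_eq g 0 y 0 j (by norm_num) hj,
      pat_E _ _ _ _ (A.ok f (k - 1) y (by omega) hy) j hj,
      pat_W _ _ _ _ (A.ok g 0 y hk hy) j hj, Nat.sub_add_cancel hk, A.gE f g h y hy]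
  bEr := fun f g h Y hY => by
    have hk := A.hk
    obtain ⟨y, j, rfl, hj, hy⟩ := ex5 Y hY
    rw [show 5 * k - 1 - (5 * y + j) = 5 * (k - 1 - y) + (4 - j) by omega,
      show 5 * k - 1 = 5 * (k - 1) + 4 by omega, A.T_eq f (k - 1) y 4 j (by norm_num) hj,
      A.T_eq g (k - 1) (k - 1 - y) 4 (4 - j) (by norm_num) (by omega),
      pat_E _ _ _ _ (A.ok f (k - 1) y (by omega) hy) j hj,
      pat_E _ _ _ _ (A.ok g (k - 1) (k - 1 - y) (by omega) (by omega)) (4 - j) (by omega),
      Nat.sub_add_cancel hk, A.gEr f g h y hy]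
    have : (j = 2) ↔ (4 - j = 2) := by omega
    simp only [this]
  bWr := fun f g h Y hY => by
    have hk := A.hk
    obtain ⟨y, j, rfl, hj, hy⟩ := ex5 Y hY
    rw [show 5 * k - 1 - (5 * y + j) = 5 * (k - 1 - y) + (4 - j) by omega,
      show (0 : ℕ) = 5 * 0 + 0 by ring, A.T_eq f 0 y 0 j (by norm_num) hj,
      A.T_eq g 0 (k - 1 - y) 0 (4 - j) (by norm_num) (by omega),
      pat_W _ _ _ _ (A.ok f 0 y hk hy) j hj,
      pat_W _ _ _ _ (A.ok g 0 (k - 1 - y) hk (by omega)) (4 - j) (by omega),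
      A.gWr f g h y hy]
    have : (j = 2) ↔ (4 - j = 2) := by omega
    simp only [this]
  bE' := fun f h Y hY => by
    have hk := A.hk
    obtain ⟨y, j, rfl, hj, hy⟩ := ex5 Y hY
    rw [show 5 * k - 1 = 5 * (k - 1) + 4 by omega, A.T_eq f (k - 1) y 4 j (by norm_num) hj,
      pat_E _ _ _ _ (A.ok f (k - 1) y (by omega) hy) j hj, Nat.sub_add_cancel hk,
      A.gE' f h y hy]
    simp
  bW' := fun f h Y hY => by
    have hk := A.hk
    obtain ⟨y, j, rfl, hj, hy⟩ := ex5 Y hY
    rw [show (0 : ℕ) = 5 * 0 + 0 by ring, A.T_eq f 0 y 0 j (by norm_num) hj,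
      pat_W _ _ _ _ (A.ok f 0 y hk hy) j hj, A.gW' f h y hy]
    simp
  L := A.L
  hL := fun f hf X Y hX hY => by
    obtain ⟨x, i, rfl, hi, hx⟩ := ex5 X hX
    obtain ⟨y, j, rfl, hj, hy⟩ := ex5 Y hY
    rw [A.T_eq f x y i j hi hj, A.Lpr f hf x y hx.le hy, A.Lpr f hf (x + 1) y hx hy,
      A.Lla f hf x y hx hy.le, A.Lla f hf x (y + 1) hx hy]
    exact pat_empty i hi j hj
  cov := fun f hf X hX => by
    obtain ⟨x, i, rfl, hi, hx⟩ := ex5 X hX
    rcases Nat.lt_or_ge i 3 with hi3 | hi3
    · obtain ⟨z, h1, g, h2, y, hy, h3⟩ := A.cov f hf x hx true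
      rw [if_pos rfl] at h3
      refine ⟨z, h1, g, h2, ?_⟩
      have hok := A.ok g x y hx hy
      rw [h3] at hok
      obtain ⟨j, hj, h5⟩ := pat_covW _ _ _ hok i hi3
      refine ⟨5 * y + j, by omega, ?_⟩
      rw [A.T_eq g x y i j hi hj, h3]
      exact h5
    · obtain ⟨z, h1, g, h2, y, hy, h3⟩ := A.cov f hf x hx false
      rw [if_neg (by simp)] at h3
      refine ⟨z, h1, g, h2, ?_⟩
      have hok := A.ok g x y hx hy
      rw [h3] at hok
      obtain ⟨j, hj, h5⟩ := pat_covE _ _ _ hok i hi hi3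
      refine ⟨5 * y + j, by omega, ?_⟩
      rw [A.T_eq g x y i j hi hj, h3]
      exact h5
  lean := fun f hf => ⟨A.pLean (Classical.choice (A.lean f hf))⟩
  cut := fun f hf => by
    obtain ⟨g, x, y, hx, hy, h1⟩ := A.cut f hf
    by_cases hyk : y < k
    · refine ⟨g, 5 * x + 2, 5 * y + 0, by omega, by omega, ?_⟩
      rw [A.T_eq g x y 2 0 (by norm_num) (by norm_num)]
      exact pat_laS _ _ _ _ (A.ok g x y hx hyk) h1
    · have hk := A.hk
      have : y = (k - 1) + 1 := by omega
      rw [this] at h1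
      refine ⟨g, 5 * x + 2, 5 * (k - 1) + 4, by omega, by omega, ?_⟩
      rw [A.T_eq g x (k - 1) 2 4 (by norm_num) (by norm_num)]
      exact pat_laN _ _ _ _ (A.ok g x (k - 1) hx (by omega)) h1
  conn := fun ψ c1 c2 c3 c4 c5 c6 c7 c8 => by
    have hk := A.hk
    -- links inside a cell
    have hl : ∀ f x y, x < k → y < k →
        (∀ p, usd (A.pr f x y) (A.pr f (x + 1) y) (A.la f x (y + 1)) (A.la f x y) p = true →
          (ψ f (5 * x + prtX p) (5 * y + prtY p) ↔
          ψ f (5 * x + prtX (mate (A.pr f x y) (A.pr f (x + 1) y) (A.la f x (y + 1)) (A.la f x y) p))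
            (5 * y + prtY (mate (A.pr f x y) (A.pr f (x + 1) y) (A.la f x (y + 1))
              (A.la f x y) p)))) ∧
        (∀ i < 5, ∀ j < 5, A.T f (5 * x + i) (5 * y + j) ≠ Ty.o → ∃ p,
          usd (A.pr f x y) (A.pr f (x + 1) y) (A.la f x (y + 1)) (A.la f x y) p = true ∧
          (ψ f (5 * x + i) (5 * y + j) ↔ ψ f (5 * x + prtX p) (5 * y + prtY p))) := by
      intro f x y hx hy
      have h := pat_links (A.pr f x y) (A.pr f (x + 1) y) (A.la f x (y + 1)) (A.la f x y)
        (A.ok f x y hx hy) (fun i j => ψ f (5 * x + i) (5 * y + j)) ?_ ?_ ?_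
      · refine ⟨h.1, ?_⟩
        intro i hi j hj hT
        rw [A.T_eq f x y i j hi hj] at hT
        exact h.2 i hi j hj hT
      · intro i hi j hj hT
        rw [← A.T_eq f x y i j hi (by omega)] at hT
        exact c1 f (5 * x + i) (5 * y + j) (by omega) (by omega) hT
      · intro i hi j hj hT
        rw [← A.T_eq f x y i j hi (by omega)] at hT
        exact c2 f (5 * x + i) (5 * y + j) (by omega) (by omega) hT
      · intro i hi j hj hT
        rw [← A.T_eq f x y i j (by omega) hj] at hT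
        exact c3 f (5 * x + i) (5 * y + j) (by omega) (by omega) hT
    -- the ports of a cell
    have hp : ∀ f x y, x < k → y < k → ∀ p,
        usd (A.pr f x y) (A.pr f (x + 1) y) (A.la f x (y + 1)) (A.la f x y) p = true →
        (ψ f (5 * x + prtX p) (5 * y + prtY p) ↔ prt (pv k (ψ f)) (ph k (ψ f)) x y p) := by
      intro f x y hx hy p hu
      have hok := A.ok f x y hx hy
      cases p
      · -- west
        show ψ f (5 * x + 0) (5 * y + 2) ↔ pv k (ψ f) x y
        unfold pv
        rw [if_pos hx, Nat.add_zero]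
      · -- east
        show ψ f (5 * x + 4) (5 * y + 2) ↔ pv k (ψ f) (x + 1) y
        unfold pv
        by_cases hx1 : x + 1 < k
        · rw [if_pos hx1, show 5 * (x + 1) = 5 * x + 4 + 1 by ring]
          apply c3 f (5 * x + 4) (5 * y + 2) (by omega) (by omega)
          rw [A.T_eq f x y 4 2 (by norm_num) (by norm_num), pat_E _ _ _ _ hok 2 (by norm_num)]
          have : A.pr f (x + 1) y = true := hu
          rw [this]; simp
        · rw [if_neg hx1, show 5 * k - 1 = 5 * x + 4 by omega]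
      · -- north
        show ψ f (5 * x + 2) (5 * y + 4) ↔ ph k (ψ f) x (y + 1)
        unfold ph
        by_cases hy1 : y + 1 < k
        · rw [if_pos hy1, show 5 * (y + 1) = 5 * y + 4 + 1 by ring]
          have hu' : A.la f x (y + 1) ≠ Ln.z := by
            intro h0
            have : usd (A.pr f x y) (A.pr f (x + 1) y) (A.la f x (y + 1)) (A.la f x y) Prt.N =
              true := hu
            rw [h0] at this
            simp [usd] at this
          have hcase : A.la f x (y + 1) = Ln.n ∨ A.la f x (y + 1) = Ln.s := by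
            revert hu'; cases A.la f x (y + 1) <;> simp
          rcases hcase with hc | hc
          · apply c1 f (5 * x + 2) (5 * y + 4) (by omega) (by omega)
            rw [A.T_eq f x y 2 4 (by norm_num) (by norm_num),
              (pat_N _ _ _ _ hok 2 (by norm_num)).1, hc]
            simp
          · apply c2 f (5 * x + 2) (5 * y + 4) (by omega) (by omega)
            rw [A.T_eq f x y 2 4 (by norm_num) (by norm_num),
              (pat_N _ _ _ _ hok 2 (by norm_num)).2, hc]
            simp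
        · rw [if_neg hy1, show 5 * k - 1 = 5 * y + 4 by omega]
      · -- south
        show ψ f (5 * x + 2) (5 * y + 0) ↔ ph k (ψ f) x y
        unfold ph
        rw [if_pos hy]
        exact Iff.rfl
    have hcc := A.conn (fun f => pv k (ψ f)) (fun f => ph k (ψ f)) ?_ ?_ ?_ ?_ ?_
    · -- conclusion
      obtain ⟨c, hc1, hc2⟩ := hcc
      have key : ∀ f X Y, X < 5 * k → Y < 5 * k → A.T f X Y ≠ Ty.o → (ψ f X Y ↔ c) := by
        intro f X Y hX hY hT
        obtain ⟨x, i, rfl, hi, hx⟩ := ex5 X hX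
        obtain ⟨y, j, rfl, hj, hy⟩ := ex5 Y hY
        obtain ⟨p, hu, h1⟩ := (hl f x y hx hy).2 i hi j hj hT
        rw [h1, hp f x y hx hy p hu]
        cases p
        · exact hc1 f x y hx.le hy hu
        · exact hc1 f (x + 1) y hx hy hu
        · apply hc2 f x (y + 1) hx hy
          intro h0
          have h3 : usd (A.pr f x y) (A.pr f (x + 1) y) (A.la f x (y + 1)) (A.la f x y) Prt.N =
            true := hu
          rw [h0] at h3
          simp [usd] at h3
        · apply hc2 f x y hx hy.le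
          intro h0
          have h3 : usd (A.pr f x y) (A.pr f (x + 1) y) (A.la f x (y + 1)) (A.la f x y) Prt.S =
            true := hu
          rw [h0] at h3
          simp [usd] at h3
      intro f x y g x' y' hx hy hx' hy' hf hg
      exact (key f x y hx hy hf).trans (key g x' y' hx' hy' hg).symm
    · intro f x y hx hy p hu
      have hum := (usd_mate _ _ _ _ (A.ok f x y hx hy) p hu).1
      rw [← hp f x y hx hy p hu, ← hp f x y hx hy _ hum]
      exact (hl f x y hx hy).1 p hu
    · intro f g h x hx hu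
      show ph k (ψ f) x k ↔ ph k (ψ g) x 0
      unfold ph
      rw [if_neg (lt_irrefl k), if_pos hk]
      have hok := A.ok f x (k - 1) hx (by omega)
      rw [Nat.sub_add_cancel hk] at hok
      have hcase : A.la f x k = Ln.n ∨ A.la f x k = Ln.s := by
        revert hu; cases A.la f x k <;> simp
      rcases hcase with hc | hc
      · have := c4 f g h (5 * x + 2) (by omega) (by
          rw [show 5 * k - 1 = 5 * (k - 1) + 4 by omega,
            A.T_eq f x (k - 1) 2 4 (by norm_num) (by norm_num), Nat.sub_add_cancel hk,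
            (pat_N _ _ _ _ hok 2 (by norm_num)).1, hc]
          simp)
        simpa using this
      · have := c5 f g h (5 * x + 2) (by omega) (by
          rw [show 5 * k - 1 = 5 * (k - 1) + 4 by omega,
            A.T_eq f x (k - 1) 2 4 (by norm_num) (by norm_num), Nat.sub_add_cancel hk,
            (pat_N _ _ _ _ hok 2 (by norm_num)).2, hc]
          simp)
        simpa using this
    · intro f g h y hy hu
      show pv k (ψ f) k y ↔ pv k (ψ g) 0 y
      unfold pv
      rw [if_neg (lt_irrefl k), if_pos hk]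
      have hok := A.ok f (k - 1) y (by omega) hy
      rw [Nat.sub_add_cancel hk] at hok
      have := c6 f g h (5 * y + 2) (by omega) (by
        rw [show 5 * k - 1 = 5 * (k - 1) + 4 by omega,
          A.T_eq f (k - 1) y 4 2 (by norm_num) (by norm_num), Nat.sub_add_cancel hk,
          pat_E _ _ _ _ hok 2 (by norm_num), hu]
        simp)
      simpa using this
    · intro f g h y hy hu
      show pv k (ψ f) k y ↔ pv k (ψ g) k (k - 1 - y)
      unfold pv
      rw [if_neg (lt_irrefl k), if_neg (lt_irrefl k)]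
      have hok := A.ok f (k - 1) y (by omega) hy
      rw [Nat.sub_add_cancel hk] at hok
      have := c7 f g h (5 * y + 2) (by omega) (by
        rw [show 5 * k - 1 = 5 * (k - 1) + 4 by omega,
          A.T_eq f (k - 1) y 4 2 (by norm_num) (by norm_num), Nat.sub_add_cancel hk,
          pat_E _ _ _ _ hok 2 (by norm_num), hu]
        simp)
      rw [show 5 * k - 1 - (5 * y + 2) = 5 * (k - 1 - y) + 2 by omega] at this
      exact this
    · intro f g h y hy hu
      show pv k (ψ f) 0 y ↔ pv k (ψ g) 0 (k - 1 - y)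
      unfold pv
      rw [if_pos hk, if_pos hk]
      have hok := A.ok f 0 y hk hy
      have := c8 f g h (5 * y + 2) (by omega) (by
        rw [show (0 : ℕ) = 5 * 0 + 0 by ring, A.T_eq f 0 y 0 2 (by norm_num) (by norm_num),
          pat_W _ _ _ _ hok 2 (by norm_num), hu]
        simp)
      rw [show 5 * k - 1 - (5 * y + 2) = 5 * (k - 1 - y) + 2 by omega] at this
      simpa using this
  ne := A.ne

/-- **A table gives an edge unfolding of the refinement.** -/
theorem hasEdgeUnfolding (A : P.LTab k) :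
    (P.refine (5 * k) (by have := A.hk; omega)).HasEdgeUnfolding :=
  A.toPat.hasEdgeUnfolding

end LTab

end GridSolid

end Pool.Agent.Helper55.UNF
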