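import Pool.Agent.Helper55.UNF.FSt

/-!
A layout (a sequence of vertical lines glued from west to east, and an assignment of every facet to
one of them) gives an edge unfolding.
-/

namespace Pool.Agent.Helper55.UNF

namespace GridSolid

variable {P : GridSolid}

lemma pN_zpow_succ (s : P.FSt) (z : ℤ) : (pN ^ (z + 1)) s = ((pN ^ z) s).stN := by
  rw [add_comm, zpow_add, zpow_one]; rfl

lemma pN_zpow_e (s : P.FSt) (z : ℤ) : ((pN ^ z) s).1.e = s.1.e := by
  induction z using Int.induction_on with
  | zero => rfl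
  | succ i ih => rw [pN_zpow_succ, FSt.stN_e, ih]
  | pred i ih =>
    have h := pN_zpow_succ s (-(i : ℤ) - 1)
    rw [sub_add_cancel] at h
    rw [← ih, h, FSt.stN_e]

lemma pN_zpow_c (s : P.FSt) (z : ℤ) : ((pN ^ z) s).1.c s.1.e.1 = s.1.c s.1.e.1 := by
  induction z using Int.induction_on with
  | zero => rfl
  | succ i ih =>
    rw [pN_zpow_succ]
    have := FSt.stN_c ((pN ^ (i : ℤ)) s)
    rw [pN_zpow_e] at this
    rw [this, ih]
  | pred i ih =>
    have h := pN_zpow_succ s (-(i : ℤ) - 1)
    rw [sub_add_cancel] at h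
    have := FSt.stN_c ((pN ^ (-(i : ℤ) - 1)) s)
    rw [pN_zpow_e, ← h] at this
    rw [← this, ih]

/-- the length of an oriented facet in its north direction -/
noncomputable def lenN (s : P.FSt) : ℝ := P.len s.1.c s.1.n

lemma lenN_pos (s : P.FSt) : 0 < lenN s := P.len_pos _ _

/-- the height of the `z`-th oriented facet of a vertical line over the `0`-th one -/
noncomputable def hgt (s : P.FSt) (z : ℤ) : ℝ :=
  ∑ i ∈ Finset.Ico 0 z, lenN ((pN ^ i) s) - ∑ i ∈ Finset.Ico z 0, lenN ((pN ^ i) s)

lemma hgt_zero (s : P.FSt) : hgt s 0 = 0 := by simp [hgt]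

lemma hgt_succ (s : P.FSt) (z : ℤ) : hgt s (z + 1) = hgt s z + lenN ((pN ^ z) s) := by
  unfold hgt
  rcases le_or_gt 0 z with h | h
  · have e1 : Finset.Ico z 0 = ∅ := Finset.Ico_eq_empty (by omega)
    have e2 : Finset.Ico (z + 1) 0 = ∅ := Finset.Ico_eq_empty (by omega)
    have e3 : Finset.Ico 0 (z + 1) = insert z (Finset.Ico 0 z) := by
      ext x; simp only [Finset.mem_Ico, Finset.mem_insert]; omega
    rw [e1, e2, e3, Finset.sum_insert (by simp)]
    ring
  · have e1 : Finset.Ico 0 z = ∅ := Finset.Ico_eq_empty (by omega)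
    have e2 : Finset.Ico 0 (z + 1) = ∅ := Finset.Ico_eq_empty (by omega)
    have e3 : Finset.Ico z 0 = insert z (Finset.Ico (z + 1) 0) := by
      ext x; simp only [Finset.mem_Ico, Finset.mem_insert]; omega
    rw [e1, e2, e3, Finset.sum_insert (by simp)]
    ring

lemma hgt_strictMono (s : P.FSt) : StrictMono (hgt s) := by
  apply strictMono_int_of_lt_succ
  intro z
  rw [hgt_succ]
  linarith [lenN_pos ((pN ^ z) s)]

variable (P)

/-- A layout: `n` vertical lines, the `i`-th one is entered from the west at `w i` and left to the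
east at `(pN ^ ex i) (w i)`; every facet `f` lies on the line `b f` at offset `z f`. -/
structure Layout where
  n : ℕ
  pos : 0 < n
  w : ℕ → P.FSt
  ex : ℕ → ℤ
  glue : ∀ i, i + 1 < n → ((pN ^ ex i) (w i)).stE = w (i + 1)
  b : P.Facet → ℕ
  hb : ∀ f, b f < n
  z : P.Facet → ℤ
  hz : ∀ f, ((pN ^ z f) (w (b f))).facet = f
  base : ∀ i < n, b (w i).facet = i ∧ z (w i).facet = 0
  exit : ∀ i < n, b ((pN ^ ex i) (w i)).facet = i ∧ z ((pN ^ ex i) (w i)).facet = ex i
  down : ∀ f, 0 < z f → b ((pN ^ (z f - 1)) (w (b f))).facet = b f ∧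
    z ((pN ^ (z f - 1)) (w (b f))).facet = z f - 1
  up : ∀ f, z f < 0 → b ((pN ^ (z f + 1)) (w (b f))).facet = b f ∧
    z ((pN ^ (z f + 1)) (w (b f))).facet = z f + 1

namespace Layout

variable {P} (A : P.Layout)

/-- the oriented facet of a facet -/
noncomputable def or (f : P.Facet) : P.FSt := (pN ^ A.z f) (A.w (A.b f))

lemma or_facet (f : P.Facet) : (A.or f).facet = f := A.hz f

lemma or_eq {f : P.Facet} {i : ℕ} {z : ℤ} (h1 : A.b f = i) (h2 : A.z f = z) :
    A.or f = (pN ^ z) (A.w i) := by
  unfold or; rw [h1, h2]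

/-- the height of the zeroth facet of a line -/
noncomputable def Y : ℕ → ℝ
  | 0 => 0
  | i + 1 => Y i + hgt (A.w i) (A.ex i)

/-- the width of a line -/
noncomputable def wid (i : ℕ) : ℝ := P.len (A.w i).1.c (A.w i).1.e

lemma or_c (f : P.Facet) : (A.or f).1.c = f.1.1 := congrArg (fun g : P.Facet => g.1.1) (A.hz f)
lemma or_d (f : P.Facet) : (A.or f).1.d = f.1.2 := congrArg (fun g : P.Facet => g.1.2) (A.hz f)
lemma or_e (f : P.Facet) : (A.or f).1.e = (A.w (A.b f)).1.e := pN_zpow_e _ _

lemma or_st (f : P.Facet) : P.st f (A.or f).1.e = (A.or f).1 := by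
  apply St.ext
  · exact (A.or_c f).symm
  · exact (A.or_d f).symm
  · rfl

lemma len_or (f : P.Facet) : P.len f.1.1 (P.st f (A.or f).1.e).n = lenN (A.or f) := by
  rw [or_st]
  unfold lenN
  rw [or_c]

/-- the placement of a layout -/
noncomputable def placement : P.Placement where
  e := fun f => (A.or f).1.e
  perp := fun f => by
    have := (A.or f).2.2
    rw [or_d] at this
    exact this
  col := fun f => (A.b f : ℤ)
  x0 := fun j => ∑ i ∈ Finset.range j.toNat, A.wid i
  x0_mono := by
    intro j k hjk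
    apply Finset.sum_le_sum_of_subset_of_nonneg
    · intro x hx
      simp only [Finset.mem_range] at hx ⊢
      have := Int.toNat_le_toNat hjk
      omega
    · intro i _ _
      exact (P.len_pos _ _).le
  y := fun f => A.Y (A.b f) + hgt (A.w (A.b f)) (A.z f)
  width := fun f => by
    have h1 : ((A.b f : ℤ) + 1).toNat = A.b f + 1 := by omega
    have h2 : ((A.b f : ℤ)).toNat = A.b f := by omega
    rw [h1, h2, Finset.sum_range_succ]
    congr 1
    unfold wid
    rw [A.or_e]
    apply P.len_congr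
    rw [← A.or_c]
    exact (pN_zpow_c (A.w (A.b f)) (A.z f)).symm
  disj := by
    intro f g hfg hcol
    have hb : A.b f = A.b g := by exact_mod_cast hcol
    have hz : A.z f ≠ A.z g := by
      intro h
      apply hfg
      rw [← A.hz f, ← A.hz g, h, hb]
    rw [A.len_or, A.len_or]
    rcases lt_or_gt_of_ne hz with h | h
    · left
      have h1 := hgt_succ (A.w (A.b f)) (A.z f)
      have h2 := (hgt_strictMono (A.w (A.b f))).monotone (show A.z f + 1 ≤ A.z g by omega)
      unfold or
      rw [← hb]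
      linarith
    · right
      have h1 := hgt_succ (A.w (A.b g)) (A.z g)
      have h2 := (hgt_strictMono (A.w (A.b g))).monotone (show A.z g + 1 ≤ A.z f by omega)
      unfold or
      rw [hb]
      linarith

lemma relN {f g : P.Facet} (h1 : A.b g = A.b f) (h2 : A.z g = A.z f + 1) :
    A.placement.RelN f g := by
  have key : (A.or f).stN = A.or g := by
    unfold or
    rw [h1, h2, pN_zpow_succ]
  refine ⟨?_, ?_, ?_⟩
  · show (P.st f (A.or f).1.e).stepN P = P.st g (A.or g).1.e
    rw [or_st, or_st, ← key]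
    rfl
  · show (A.b g : ℤ) = A.b f
    rw [h1]
  · show A.Y (A.b g) + hgt (A.w (A.b g)) (A.z g) = A.Y (A.b f) + hgt (A.w (A.b f)) (A.z f) +
      P.len f.1.1 (P.st f (A.or f).1.e).n
    rw [A.len_or, h1, h2, hgt_succ]
    unfold or
    ring

lemma relE (i : ℕ) (hi : i + 1 < A.n) :
    A.placement.RelE ((pN ^ A.ex i) (A.w i)).facet (A.w (i + 1)).facet := by
  obtain ⟨e1, e2⟩ := A.exit i (by omega)
  obtain ⟨w1, w2⟩ := A.base (i + 1) hi
  set f := ((pN ^ A.ex i) (A.w i)).facet with hf
  set g := (A.w (i + 1)).facet with hg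
  have of : A.or f = (pN ^ A.ex i) (A.w i) := A.or_eq e1 e2
  have og : A.or g = A.w (i + 1) := by
    rw [A.or_eq w1 w2, zpow_zero]; rfl
  refine ⟨?_, ?_, ?_⟩
  · show (P.st f (A.or f).1.e).stepE P = P.st g (A.or g).1.e
    rw [or_st, or_st, og, ← A.glue i hi, of]
    rfl
  · show (A.b g : ℤ) = A.b f + 1
    rw [w1, e1]; push_cast; ring
  · show A.Y (A.b g) + hgt (A.w (A.b g)) (A.z g) = A.Y (A.b f) + hgt (A.w (A.b f)) (A.z f)
    rw [w1, w2, e1, e2, hgt_zero, add_zero]
    rfl

lemma adj_of_relN {f g : P.Facet} (h : A.placement.RelN f g) : A.placement.graph.Adj f g :=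
  ⟨(A.placement.relN_adj h).1, Or.inr (Or.inl h)⟩

lemma adj_of_relE {f g : P.Facet} (h : A.placement.RelE f g) : A.placement.graph.Adj f g :=
  ⟨(A.placement.relE_adj h).1, Or.inl h⟩

lemma reach_base : ∀ (m : ℕ) (f : P.Facet), (A.z f).natAbs = m →
    A.placement.graph.Reachable f (A.w (A.b f)).facet := by
  intro m
  induction m with
  | zero =>
    intro f hf
    have h0 : A.z f = 0 := by omega
    have := A.hz f
    rw [h0, zpow_zero] at this
    have h1 : (A.w (A.b f)).facet = f := this
    rw [h1]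
  | succ m ih =>
    intro f hf
    rcases lt_or_gt_of_ne (show A.z f ≠ 0 by omega) with h | h
    · obtain ⟨u1, u2⟩ := A.up f h
      set g := ((pN ^ (A.z f + 1)) (A.w (A.b f))).facet
      have h1 : A.placement.graph.Adj f g := A.adj_of_relN (A.relN u1 u2)
      have h2 := ih g (by omega)
      rw [u1] at h2
      exact h1.reachable.trans h2
    · obtain ⟨u1, u2⟩ := A.down f h
      set g := ((pN ^ (A.z f - 1)) (A.w (A.b f))).facet
      have h1 : A.placement.graph.Adj g f := A.adj_of_relN (A.relN u1.symm (by omega))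
      have h2 := ih g (by omega)
      rw [u1] at h2
      exact h1.symm.reachable.trans h2

lemma reach_zero : ∀ i, i < A.n → A.placement.graph.Reachable (A.w i).facet (A.w 0).facet := by
  intro i
  induction i with
  | zero => intro _; exact SimpleGraph.Reachable.refl _
  | succ i ih =>
    intro hi
    have h1 := A.adj_of_relE (A.relE i hi)
    have h2 := A.reach_base _ ((pN ^ A.ex i) (A.w i)).facet rfl
    rw [(A.exit i (by omega)).1] at h2
    exact (h1.symm.reachable.trans h2).trans (ih (by omega))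

/-- **A layout gives an edge unfolding.** -/
theorem hasEdgeUnfolding (A : P.Layout) : P.HasEdgeUnfolding := by
  apply A.placement.hasEdgeUnfolding
  haveI : Nonempty P.Facet := ⟨(A.w 0).facet⟩
  refine SimpleGraph.Connected.mk ?_
  intro f g
  have h1 := (A.reach_base _ f rfl).trans (A.reach_zero _ (A.hb f))
  have h2 := (A.reach_base _ g rfl).trans (A.reach_zero _ (A.hb g))
  exact h1.trans h2.symm

end Layout

end GridSolid

end Pool.Agent.Helper55.UNF
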