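import Pool.Agent.Helper55.UNF.Step

/-!
A placement certificate implies an edge unfolding.
-/

namespace Pool.Agent.Helper55.UNF

namespace GridSolid

variable (P : GridSolid)

instance : Finite P.Facet := by
  unfold Facet IsFacet
  have : Set.Finite {t : (Fin 3 → ℤ) × Dir | t.1 ∈ P.cells ∧ shift t.1 t.2 ∉ P.cells} := by
    apply Set.Finite.subset (s := (P.cells : Set (Fin 3 → ℤ)) ×ˢ (Set.univ : Set Dir))
    · exact Set.Finite.prod (Finset.finite_toSet _) (Set.toFinite _)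
    · intro t ht
      exact ⟨ht.1, trivial⟩
  exact this

/-- The oriented facet given by a facet and an east direction. -/
def st (f : P.Facet) (e : Dir) : St := ⟨f.1.1, f.1.2, e⟩

/-- A placement certificate.  Every facet gets an east direction, an integer column and a height
`y` of its south side; all facets of a column have the same width. -/
structure Placement where
  e : P.Facet → Dir
  perp : ∀ f, f.1.2.1 ≠ (e f).1
  col : P.Facet → ℤ
  x0 : ℤ → ℝ
  x0_mono : Monotone x0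
  y : P.Facet → ℝ
  width : ∀ f, x0 (col f + 1) = x0 (col f) + P.len f.1.1 (e f)
  disj : ∀ f g, f ≠ g → col f = col g →
    y f + P.len f.1.1 (P.st f (e f)).n ≤ y g ∨ y g + P.len g.1.1 (P.st g (e g)).n ≤ y f

namespace Placement

variable {P} (A : P.Placement)

/-- `g` is the east neighbour of `f` on the surface and also in the placement. -/
def RelE (f g : P.Facet) : Prop :=
  (P.st f (A.e f)).stepE P = P.st g (A.e g) ∧ A.col g = A.col f + 1 ∧ A.y g = A.y f

/-- `g` is the north neighbour of `f` on the surface and also in the placement. -/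
def RelN (f g : P.Facet) : Prop :=
  (P.st f (A.e f)).stepN P = P.st g (A.e g) ∧ A.col g = A.col f ∧
    A.y g = A.y f + P.len f.1.1 (P.st f (A.e f)).n

/-- The graph of all compatible gluings. -/
def graph : SimpleGraph P.Facet where
  Adj := fun f g => f ≠ g ∧ (A.RelE f g ∨ A.RelN f g ∨ A.RelE g f ∨ A.RelN g f)
  symm := ⟨fun f g h => ⟨h.1.symm, by tauto⟩⟩
  loopless := ⟨fun f h => h.1 rfl⟩

/-- The placement map. -/
noncomputable def u (f : P.Facet) (p : EuclideanSpace ℝ (Fin 3)) : EuclideanSpace ℝ (Fin 2) :=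
  !₂[A.x0 (A.col f) + P.along f.1.1 (A.e f) p, A.y f + P.along f.1.1 (P.st f (A.e f)).n p]

lemma u_zero (f : P.Facet) (p) : A.u f p 0 = A.x0 (A.col f) + P.along f.1.1 (A.e f) p := rfl
lemma u_one (f : P.Facet) (p) :
    A.u f p 1 = A.y f + P.along f.1.1 (P.st f (A.e f)).n p := rfl

lemma n_axis (f : P.Facet) : (P.st f (A.e f)).n.1 ≠ f.1.2.1 ∧ (P.st f (A.e f)).n.1 ≠ (A.e f).1 :=
  ⟨cross_axis_left _ _ (A.perp f), cross_axis_right _ _ (A.perp f)⟩

lemma sum_axes {d e : Dir} (h : d.1 ≠ e.1) (F : Fin 3 → ℝ) :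
    ∑ a, F a = F d.1 + F e.1 + F (cross d e).1 := by
  rw [Fin.sum_univ_three]
  have key : ∀ a b : Fin 3, a ≠ b → (a = 0 ∧ b = 1 ∧ -(a + b) = 2) ∨
      (a = 0 ∧ b = 2 ∧ -(a + b) = 1) ∨ (a = 1 ∧ b = 0 ∧ -(a + b) = 2) ∨
      (a = 1 ∧ b = 2 ∧ -(a + b) = 0) ∨ (a = 2 ∧ b = 0 ∧ -(a + b) = 1) ∨
      (a = 2 ∧ b = 1 ∧ -(a + b) = 0) := by decide
  show _ = F d.1 + F e.1 + F (-(d.1 + e.1))
  rcases key d.1 e.1 h with ⟨h1, h2, h3⟩ | ⟨h1, h2, h3⟩ | ⟨h1, h2, h3⟩ | ⟨h1, h2, h3⟩ |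
    ⟨h1, h2, h3⟩ | ⟨h1, h2, h3⟩ <;> rw [h3, h1, h2] <;> ring

lemma along_sub_sq (c : Fin 3 → ℤ) (w : Dir) (p q : EuclideanSpace ℝ (Fin 3)) :
    (P.along c w p - P.along c w q) ^ 2 = (p w.1 - q w.1) ^ 2 := by
  unfold GridSolid.along
  split_ifs <;> ring

lemma isometry (f : P.Facet) {p q : EuclideanSpace ℝ (Fin 3)} (hp : p ∈ P.rect f.1)
    (hq : q ∈ P.rect f.1) : dist (A.u f p) (A.u f q) = dist p q := by
  rw [EuclideanSpace.dist_eq, EuclideanSpace.dist_eq]
  congr 1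
  rw [Fin.sum_univ_two, sum_axes (A.perp f)]
  have h0 : p f.1.2.1 = q f.1.2.1 := by rw [hp.1, hq.1]
  have e1 : dist (A.u f p 0) (A.u f q 0) ^ 2 = dist (p (A.e f).1) (q (A.e f).1) ^ 2 := by
    rw [u_zero, u_zero, Real.dist_eq, Real.dist_eq, sq_abs, sq_abs, add_sub_add_left_eq_sub,
      along_sub_sq]
  have e2 : dist (A.u f p 1) (A.u f q 1) ^ 2 =
      dist (p (cross f.1.2 (A.e f)).1) (q (cross f.1.2 (A.e f)).1) ^ 2 := by
    rw [u_one, u_one, Real.dist_eq, Real.dist_eq, sq_abs, sq_abs, add_sub_add_left_eq_sub,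
      along_sub_sq]
    rfl
  rw [e1, e2, h0, dist_self]
  ring

lemma mem_box (f : P.Facet) {p : EuclideanSpace ℝ (Fin 3)} (hp : p ∈ P.rect f.1) :
    (A.x0 (A.col f) ≤ A.u f p 0 ∧ A.u f p 0 ≤ A.x0 (A.col f + 1)) ∧
    (A.y f ≤ A.u f p 1 ∧ A.u f p 1 ≤ A.y f + P.len f.1.1 (P.st f (A.e f)).n) := by
  have h1 := P.along_mem (d := f.1.2) (w := A.e f) (A.perp f).symm hp
  have h2 := P.along_mem (d := f.1.2) (w := (P.st f (A.e f)).n) (A.n_axis f).1 hp
  rw [u_zero, u_one, A.width f]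
  exact ⟨⟨by linarith [h1.1], by linarith [h1.2]⟩, by linarith [h2.1], by linarith [h2.2]⟩

lemma relE_eq {f g : P.Facet} (h : A.RelE f g) {p : EuclideanSpace ℝ (Fin 3)}
    (hp : p ∈ P.rect f.1) (hq : p ∈ P.rect g.1) : A.u f p = A.u g p := by
  obtain ⟨h1, h2, h3⟩ := h
  have hperp : (P.st f (A.e f)).d.1 ≠ (P.st f (A.e f)).e.1 := A.perp f
  have hg : p ∈ P.rect (((P.st f (A.e f)).stepE P).c, ((P.st f (A.e f)).stepE P).d) := by
    rw [h1]; exact hq
  have g1 := P.stepE_geom (P.st f (A.e f)) hperp hp hg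
  rw [h1] at g1
  have g2 := P.stepE_third (P.st f (A.e f)) (A.n_axis f).1 (A.n_axis f).2
  rw [h1] at g2
  have g3 := P.stepE_n (P.st f (A.e f)) hperp
  rw [h1] at g3
  ext i
  fin_cases i
  · show A.u f p 0 = A.u g p 0
    rw [u_zero, u_zero, h2, A.width f]
    have a1 : P.along f.1.1 (A.e f) p = P.len f.1.1 (A.e f) := g1.1
    have a2 : P.along g.1.1 (A.e g) p = 0 := g1.2
    rw [a1, a2, add_zero]
  · show A.u f p 1 = A.u g p 1
    rw [u_one, u_one, h3, g3]
    congr 1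
    exact P.along_congr g2.symm p

lemma relN_eq {f g : P.Facet} (h : A.RelN f g) {p : EuclideanSpace ℝ (Fin 3)}
    (hp : p ∈ P.rect f.1) (hq : p ∈ P.rect g.1) : A.u f p = A.u g p := by
  obtain ⟨h1, h2, h3⟩ := h
  have hperp : (P.st f (A.e f)).d.1 ≠ (P.st f (A.e f)).e.1 := A.perp f
  set s := P.st f (A.e f) with hs
  have hperp' : s.rotL.d.1 ≠ s.rotL.e.1 := (cross_axis_left _ _ hperp).symm
  have hc : (s.rotL.stepE P).c = g.1.1 := congrArg St.c h1
  have hd : (s.rotL.stepE P).d = g.1.2 := congrArg St.d h1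
  have he : opp (cross (s.rotL.stepE P).d (s.rotL.stepE P).e) = A.e g := congrArg St.e h1
  have hperp'' := P.stepE_perp s.rotL hperp'
  have hg : p ∈ P.rect ((s.rotL.stepE P).c, (s.rotL.stepE P).d) := by
    rw [hc, hd]; exact hq
  have g1 := P.stepE_geom s.rotL hperp' hp hg
  have g2 := P.stepE_third s.rotL (a := (A.e f).1) hperp.symm (cross_axis_right _ _ hperp).symm
  have g3 := P.stepE_n s.rotL hperp'
  have hn : (P.st g (A.e g)).n = (s.rotL.stepE P).e := by
    show cross g.1.2 (A.e g) = _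
    rw [← he, ← hd]
    exact cross_opp_cross _ _ hperp''
  have heq : A.e g = A.e f := by
    rw [← he]
    have : cross (s.rotL.stepE P).d (s.rotL.stepE P).e = cross s.rotL.d s.rotL.e := g3
    rw [this]
    show opp (cross s.d (cross s.d s.e)) = s.e
    rw [cross_cross _ _ hperp, opp_opp]
  ext i
  fin_cases i
  · show A.u f p 0 = A.u g p 0
    rw [u_zero, u_zero, h2, heq]
    congr 1
    apply P.along_congr
    rw [← hc, g2]
    rfl
  · show A.u f p 1 = A.u g p 1
    rw [u_one, u_one, h3, hn]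
    have a1 : P.along f.1.1 s.n p = P.len f.1.1 s.n := g1.1
    have a2 : P.along g.1.1 (s.rotL.stepE P).e p = 0 := by rw [← hc]; exact g1.2
    rw [a1, a2, add_zero]

lemma relE_adj {f g : P.Facet} (h : A.RelE f g) : P.Adjacent f g := by
  have hperp : (P.st f (A.e f)).d.1 ≠ (P.st f (A.e f)).e.1 := A.perp f
  obtain ⟨h1, a, v, hv⟩ := P.stepE_share (P.st f (A.e f)) hperp
  rw [h.1] at h1 hv
  refine ⟨fun hfg => h1 ?_, a, v, hv⟩
  rw [hfg]

lemma relN_adj {f g : P.Facet} (h : A.RelN f g) : P.Adjacent f g := by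
  have hperp : (P.st f (A.e f)).d.1 ≠ (P.st f (A.e f)).e.1 := A.perp f
  set s := P.st f (A.e f) with hs
  have hperp' : s.rotL.d.1 ≠ s.rotL.e.1 := (cross_axis_left _ _ hperp).symm
  obtain ⟨h1, a, v, hv⟩ := P.stepE_share s.rotL hperp'
  have hc : (s.rotL.stepE P).c = g.1.1 := congrArg St.c h.1
  have hd : (s.rotL.stepE P).d = g.1.2 := congrArg St.d h.1
  rw [hc, hd] at h1 hv
  refine ⟨fun hfg => h1 ?_, a, v, hv⟩
  rw [← hfg]
  rfl

/-- **A placement certificate implies an edge unfolding.** -/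
theorem hasEdgeUnfolding (hconn : A.graph.Connected) : P.HasEdgeUnfolding := by
  obtain ⟨T, hT, hTree⟩ := hconn.exists_isTree_le
  refine ⟨T, A.u, hTree, ?_, ?_, ?_, ?_⟩
  · intro f g hfg
    obtain ⟨-, h | h | h | h⟩ := hT hfg
    · exact A.relE_adj h
    · exact A.relN_adj h
    · exact P.surfaceGraph.symm.symm _ _ (A.relE_adj h)
    · exact P.surfaceGraph.symm.symm _ _ (A.relN_adj h)
  · intro f p hp q hq
    exact A.isometry f hp hq
  · intro f g hfg p hp
    obtain ⟨-, h | h | h | h⟩ := hT hfg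
    · exact A.relE_eq h hp.1 hp.2
    · exact A.relN_eq h hp.1 hp.2
    · exact (A.relE_eq h hp.2 hp.1).symm
    · exact (A.relN_eq h hp.2 hp.1).symm
  · intro f g hfg
    rw [Set.disjoint_left]
    intro z hz1 hz2
    -- open boxes
    have key : ∀ (h : P.Facet) (z : EuclideanSpace ℝ (Fin 2)),
        z ∈ interior (A.u h '' P.rect h.1) →
        (A.x0 (A.col h) < z 0 ∧ z 0 < A.x0 (A.col h + 1)) ∧
        (A.y h < z 1 ∧ z 1 < A.y h + P.len h.1.1 (P.st h (A.e h)).n) := by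
      intro h z hz
      have hsub : A.u h '' P.rect h.1 ⊆ {w | (A.x0 (A.col h) ≤ w 0 ∧ w 0 ≤ A.x0 (A.col h + 1)) ∧
          (A.y h ≤ w 1 ∧ w 1 ≤ A.y h + P.len h.1.1 (P.st h (A.e h)).n)} := by
        rintro _ ⟨p, hp, rfl⟩
        exact A.mem_box h hp
      have hz' := interior_mono hsub hz
      rw [mem_interior_iff_mem_nhds, Metric.mem_nhds_iff] at hz'
      obtain ⟨ε, hε, hball⟩ := hz'
      have shiftmem : ∀ (i : Fin 2) (t : ℝ), |t| < ε →
          (z + EuclideanSpace.single i t) ∈ Metric.ball z ε := by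
        intro i t ht
        rw [Metric.mem_ball, dist_eq_norm, add_sub_cancel_left, EuclideanSpace.norm_single,
          Real.norm_eq_abs]
        exact ht
      have hε2 : |ε / 2| < ε := by rw [abs_of_pos (by linarith)]; linarith
      have hε3 : |(-(ε / 2))| < ε := by rw [abs_neg]; exact hε2
      have m1 := hball (shiftmem 0 (ε / 2) hε2)
      have m2 := hball (shiftmem 0 (-(ε / 2)) hε3)
      have m3 := hball (shiftmem 1 (ε / 2) hε2)
      have m4 := hball (shiftmem 1 (-(ε / 2)) hε3)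
      simp at m1 m2 m3 m4
      refine ⟨⟨?_, ?_⟩, ?_, ?_⟩ <;> linarith [m1.1.2, m2.1.1, m3.2.2, m4.2.1]
    obtain ⟨⟨a1, a2⟩, a3, a4⟩ := key f z hz1
    obtain ⟨⟨b1, b2⟩, b3, b4⟩ := key g z hz2
    rcases lt_trichotomy (A.col f) (A.col g) with h | h | h
    · have := A.x0_mono (show A.col f + 1 ≤ A.col g by omega)
      linarith
    · rcases A.disj f g hfg h with h' | h' <;> linarith
    · have := A.x0_mono (show A.col g + 1 ≤ A.col f by omega)
      linarith

end Placement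

end GridSolid

end Pool.Agent.Helper55.UNF
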