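import Pool.Agent.Helper55.UNF.Cell

/-!
Runs of a cell curve.
-/

namespace Pool.Agent.Helper55.UNF

namespace GridSolid

namespace CellCurve

variable {P : GridSolid} (A : P.CellCurve)

lemma PD_of_frS {f : P.Facet} (hf : (A.τ f).frS = true) : A.PD f := by
  refine ⟨Or.inr hf, ?_⟩
  have key : ∀ j ≤ A.jD (A.can f), ∃ g, ((pN⁻¹ : Equiv.Perm P.FSt) ^ j) (A.can f) = A.can g ∧
      ((A.τ g).frS = true ∨ (A.τ g).goN = true) := by
    intro j
    induction j with
    | zero => intro _; exact ⟨f, by simp, Or.inl hf⟩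
    | succ j ih =>
      intro hj
      obtain ⟨g, g1, g2⟩ := ih (by omega)
      have hns := srch_not (show j < srch (pN⁻¹ : Equiv.Perm P.FSt) A.stopD (A.can f) from
        by unfold jD at hj; omega)
      rw [g1] at hns
      unfold stopD at hns
      rw [not_not, A.ty_can] at hns
      have hfr : (A.τ g).frS = true := by
        rcases hns.2 with h' | h'
        · rw [h'] at g2; simp [Ty.frS, Ty.goN] at g2
        · exact h'
      obtain ⟨g', k1, k2⟩ := A.hN' g hfr
      refine ⟨g', ?_, Or.inr k2⟩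
      rw [pow_succ', Equiv.Perm.mul_apply, g1, ← k1]
      exact (pN : Equiv.Perm P.FSt).symm_apply_apply (A.can g')
  obtain ⟨g, g1, -⟩ := key _ le_rfl
  rw [g1]; exact A.cn_can g

lemma not_PD_of_frN {f : P.Facet} (hf : (A.τ f).frN = true) : ¬ A.PD f := by
  intro h
  exact Ty.frN_not _ hf h.1

lemma wp_of_frN {f : P.Facet} (hf : (A.τ f).frN = true) : (A.τ f).wp = false := by
  revert hf; cases A.τ f <;> simp [Ty.frN, Ty.wp]

lemma ζ_pos_iff (f : P.Facet) : 0 < A.ζ f ↔ A.PD f := by
  constructor
  · intro h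
    by_contra hn
    unfold ζ at h
    rw [if_neg hn] at h
    omega
  · intro h
    have := A.not_stopD h.1
    have hp : 0 < A.jD (A.can f) := srch_pos this (A.ex_stop f).2
    unfold ζ
    rw [if_pos h]
    exact_mod_cast hp

lemma ζ_neg_wp {f : P.Facet} (h : A.ζ f < 0) : (A.τ f).wp = false := by
  by_contra hw
  have : (A.τ f).wp = true := by simpa using hw
  rw [(A.base_of_wp this).2] at h
  omega

/-- northern neighbour of a facet below its base -/
lemma north_of_neg {f : P.Facet} (h : A.ζ f < 0) :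
    ∃ g, (A.can f).stN = A.can g ∧ A.ρ g = A.ρ f ∧ A.ζ g = A.ζ f + 1 := by
  apply A.stepU
  · intro hh
    have := (A.ζ_pos_iff f).2 hh
    omega
  · exact A.ζ_neg_wp h

lemma stN_inj {f g : P.Facet} (h : (A.can f).stN = (A.can g).stN) : f = g :=
  A.can_inj (pN.injective h)

/-- northern neighbour of a facet with `goN` -/
lemma north_of_goN {f : P.Facet} (h : (A.τ f).goN = true) :
    ∃ g, (A.can f).stN = A.can g ∧ (A.τ g).frS = true ∧ A.ρ g = A.ρ f ∧ A.ζ g = A.ζ f + 1 := by
  obtain ⟨g, h1, h2⟩ := A.hN f h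
  obtain ⟨f', k1, k2, k3⟩ := A.stepD (A.PD_of_frS h2)
  have : f' = f := A.stN_inj (by rw [k1, h1])
  subst this
  exact ⟨g, h1, h2, k2.symm, by omega⟩

/-- southern neighbour of a facet with `goS` -/
lemma south_of_goS {f : P.Facet} (h : (A.τ f).goS = true) :
    ∃ g, (A.can g).stN = A.can f ∧ (A.τ g).frN = true ∧ A.ρ g = A.ρ f ∧ A.ζ g = A.ζ f - 1 := by
  obtain ⟨g, h1, h2⟩ := A.hS' f h
  obtain ⟨f', k1, k2, k3⟩ := A.stepU (A.not_PD_of_frN h2) (A.wp_of_frN h2)
  have : f' = f := A.can_inj (by rw [← k1, h1])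
  subst this
  exact ⟨g, h1, h2, k2.symm, by omega⟩

lemma can_eq (f : P.Facet) : A.can f = (pN ^ A.ζ f) (A.can (A.ρ f)) ∧
    (A.τ (A.ρ f)).wp = true := by
  by_cases hP : A.PD f
  · -- go down
    have : ∀ m : ℕ, ∀ f, A.PD f → A.ζ f = m → A.can f = (pN ^ A.ζ f) (A.can (A.ρ f)) ∧
        (A.τ (A.ρ f)).wp = true := by
      intro m
      induction m with
      | zero =>
        intro f hf hm
        have := (A.ζ_pos_iff f).2 hf
        omega
      | succ m ih =>
        intro f hf hm
        obtain ⟨g, g1, g2, g3⟩ := A.stepD hf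
        have hz : A.ζ f = A.ζ g + 1 := by omega
        have hgw : A.can g = (pN ^ A.ζ g) (A.can (A.ρ g)) ∧ (A.τ (A.ρ g)).wp = true := by
          by_cases hg : A.PD g
          · exact ih g hg (by omega)
          · by_cases hw : (A.τ g).wp = true
            · obtain ⟨b1, b2⟩ := A.base_of_wp hw
              rw [b1, b2]; exact ⟨by simp, hw⟩
            · exfalso
              rcases A.below hf.1 g1 with hb | hb
              · -- g of type o or frS but not PD
                have : A.ζ g ≤ 0 := by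
                  by_contra h'
                  exact hg ((A.ζ_pos_iff g).1 (by omega))
                have hz0 : A.ζ g = 0 := by
                  have := (A.ζ_pos_iff f).2 hf
                  omega
                have hj0 : A.jU (A.can g) = 0 := by
                  unfold ζ at hz0
                  rw [if_neg hg] at hz0
                  omega
                have hns : A.stopU (A.can g) := by
                  have h5 := srch_spec (A.ex_stop g).1
                  have h0 : srch (pN : Equiv.Perm P.FSt) A.stopU (A.can g) = 0 := hj0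
                  rw [h0] at h5
                  simpa using h5
                rcases hb with hb | hb
                · exact A.not_stopU (Or.inl hb) hns
                · exact hg (A.PD_of_frS hb)
              · exact hw hb
        rw [hz, pN_zpow_succ, ← g2, ← hgw.1]
        exact ⟨g1.symm, hgw.2⟩
    exact this (A.ζ f).toNat f hP (by have := (A.ζ_pos_iff f).2 hP; omega)
  · have : ∀ m : ℕ, ∀ f, ¬ A.PD f → A.ζ f = -m → A.can f = (pN ^ A.ζ f) (A.can (A.ρ f)) ∧
        (A.τ (A.ρ f)).wp = true := by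
      intro m
      induction m with
      | zero =>
        intro f hf hm
        have hj : A.jU (A.can f) = 0 := by
          unfold ζ at hm
          rw [if_neg hf] at hm
          omega
        by_cases hw : (A.τ f).wp = true
        · obtain ⟨b1, b2⟩ := A.base_of_wp hw
          rw [b1, b2]; exact ⟨by simp, hw⟩
        · obtain ⟨g, g1, g2, g3⟩ := A.stepU hf (by simpa using hw)
          exfalso
          have hns : ¬ A.stopU (A.can f) := by
            by_cases h' : (A.τ f).frS = true
            · exact absurd (A.PD_of_frS h') hf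
            · apply A.not_stopU
              revert h' hw; cases A.τ f <;> simp [Ty.frS, Ty.frN, Ty.wp]
          have hp : 0 < A.jU (A.can f) := srch_pos hns (A.ex_stop f).1
          omega
      | succ m ih =>
        intro f hf hm
        obtain ⟨g, g1, g2, g3⟩ := A.north_of_neg (f := f) (by omega)
        have hgP : ¬ A.PD g := by
          intro h'
          have := (A.ζ_pos_iff g).2 h'
          omega
        obtain ⟨i1, i2⟩ := ih g hgP (by omega)
        rw [← g2]
        refine ⟨?_, i2⟩
        have h3 : (A.can f).stN = (pN ^ (A.ζ f + 1)) (A.can (A.ρ g)) := by rw [g1, i1, g3]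
        rw [pN_zpow_succ] at h3
        exact pN.injective h3
    exact this (-A.ζ f).toNat f hP (by
      have : ¬ 0 < A.ζ f := fun h => hP ((A.ζ_pos_iff f).1 h)
      omega)

/-- facets are determined by base and offset -/
lemma eq_of_ρζ {f g : P.Facet} (h1 : A.ρ f = A.ρ g) (h2 : A.ζ f = A.ζ g) : f = g := by
  apply A.can_inj
  rw [(A.can_eq f).1, (A.can_eq g).1, h1, h2]

/-- where the run to the north stops -/
def stN' (s : P.FSt) : Prop := ¬ (A.cn s ∧ (A.ty s).goN = true)

/-- where the run to the south stops -/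
def stS' (s : P.FSt) : Prop := ¬ (A.cn s ∧ (A.ty s).goS = true)

/-- the length of the run to the north -/
noncomputable def kN (f : P.Facet) : ℕ := srch (pN : Equiv.Perm P.FSt) A.stN' (A.can f)

/-- the length of the run to the south -/
noncomputable def kS (f : P.Facet) : ℕ := srch (pN⁻¹ : Equiv.Perm P.FSt) A.stS' (A.can f)

/-- the offset of the east end of a run -/
noncomputable def x (f : P.Facet) : ℤ := (A.kN f : ℤ) - A.kS f

/-- the east end of a run -/
noncomputable def ex (f : P.Facet) : P.Facet := ((pN ^ A.x f) (A.can f)).facet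

lemma kN_zero {f : P.Facet} (h : (A.τ f).goN = false) : A.kN f = 0 := by
  apply srch_zero
  intro hh
  rw [A.ty_can, h] at hh
  exact absurd hh.2 (by simp)

lemma kS_zero {f : P.Facet} (h : (A.τ f).goS = false) : A.kS f = 0 := by
  apply srch_zero
  intro hh
  rw [A.ty_can, h] at hh
  exact absurd hh.2 (by simp)

lemma run_N {r : P.Facet} (hr : (A.τ r).wp = true) :
    ∀ j : ℕ, (∀ i < j, ¬ A.stN' ((pN ^ i) (A.can r))) →
      ∃ g, (pN ^ j) (A.can r) = A.can g ∧ A.ρ g = r ∧ A.ζ g = j ∧
        (0 < j → (A.τ g).frS = true) := by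
  intro j
  induction j with
  | zero =>
    intro _
    obtain ⟨b1, b2⟩ := A.base_of_wp hr
    exact ⟨r, by simp, b1, by simpa using b2, by simp⟩
  | succ j ih =>
    intro hj
    obtain ⟨g, g1, g2, g3, -⟩ := ih (fun i hi => hj i (by omega))
    have hns := hj j (by omega)
    rw [g1] at hns
    unfold stN' at hns
    rw [not_not, A.ty_can] at hns
    obtain ⟨g', k1, k2, k3, k4⟩ := A.north_of_goN hns.2
    refine ⟨g', ?_, by rw [k3, g2], by rw [k4, g3]; push_cast; ring, fun _ => k2⟩
    rw [pow_succ', Equiv.Perm.mul_apply, g1]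
    exact k1

lemma run_S {r : P.Facet} (hr : (A.τ r).wp = true) :
    ∀ j : ℕ, (∀ i < j, ¬ A.stS' (((pN⁻¹ : Equiv.Perm P.FSt) ^ i) (A.can r))) →
      ∃ g, ((pN⁻¹ : Equiv.Perm P.FSt) ^ j) (A.can r) = A.can g ∧ A.ρ g = r ∧ A.ζ g = -j ∧
        (0 < j → (A.τ g).frN = true) := by
  intro j
  induction j with
  | zero =>
    intro _
    obtain ⟨b1, b2⟩ := A.base_of_wp hr
    exact ⟨r, by simp, b1, by simpa using b2, by simp⟩
  | succ j ih =>
    intro hj
    obtain ⟨g, g1, g2, g3, -⟩ := ih (fun i hi => hj i (by omega))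
    have hns := hj j (by omega)
    rw [g1] at hns
    unfold stS' at hns
    rw [not_not, A.ty_can] at hns
    obtain ⟨g', k1, k2, k3, k4⟩ := A.south_of_goS hns.2
    refine ⟨g', ?_, by rw [k3, g2], by rw [k4, g3]; push_cast; ring, fun _ => k2⟩
    rw [pow_succ', Equiv.Perm.mul_apply, g1, ← k1]
    exact (pN : Equiv.Perm P.FSt).symm_apply_apply (A.can g')

lemma pow_order (s : P.FSt) : (pN ^ orderOf (pN : Equiv.Perm P.FSt)) s = s := by
  rw [pow_orderOf_eq_one]; rfl

lemma stop_N {r : P.Facet} (hr : (A.τ r).wp = true) :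
    ∃ j : ℕ, A.stN' ((pN ^ j) (A.can r)) := by
  by_contra hcon
  push Not at hcon
  have ho : 0 < orderOf (pN : Equiv.Perm P.FSt) := orderOf_pos _
  obtain ⟨g, g1, -, -, g4⟩ := A.run_N hr (orderOf (pN : Equiv.Perm P.FSt)) (fun i _ => hcon i)
  rw [pow_order] at g1
  have : r = g := A.can_inj g1
  subst this
  have := g4 ho
  revert this hr; cases A.τ r <;> simp [Ty.frS, Ty.wp]

lemma stop_S {r : P.Facet} (hr : (A.τ r).wp = true) :
    ∃ j : ℕ, A.stS' (((pN⁻¹ : Equiv.Perm P.FSt) ^ j) (A.can r)) := by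
  by_contra hcon
  push Not at hcon
  have ho : 0 < orderOf (pN : Equiv.Perm P.FSt) := orderOf_pos _
  obtain ⟨g, g1, -, -, g4⟩ := A.run_S hr (orderOf (pN : Equiv.Perm P.FSt)) (fun i _ => hcon i)
  have hinv : ((pN⁻¹ : Equiv.Perm P.FSt) ^ orderOf (pN : Equiv.Perm P.FSt)) (A.can r) =
      A.can r := by
    rw [inv_pow, pow_orderOf_eq_one, inv_one]; rfl
  rw [hinv] at g1
  have : r = g := A.can_inj g1
  subst this
  have := g4 ho
  revert this hr; cases A.τ r <;> simp [Ty.frN, Ty.wp]

/-- The east end of a run. -/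
lemma run_end {r : P.Facet} (hr : (A.τ r).wp = true) :
    (pN ^ A.x r) (A.can r) = A.can (A.ex r) ∧ (A.τ (A.ex r)).ep = true ∧
      A.ρ (A.ex r) = r ∧ A.ζ (A.ex r) = A.x r := by
  by_cases hN : (A.τ r).goN = true
  · have hS : A.kS r = 0 := A.kS_zero (by revert hN; cases A.τ r <;> simp [Ty.goN, Ty.goS])
    have hx : A.x r = A.kN r := by unfold x; rw [hS]; simp
    obtain ⟨g, g1, g2, g3, g4⟩ := A.run_N hr (A.kN r) (fun i hi => srch_not hi)
    have hex : A.ex r = g := by
      unfold ex; rw [hx, zpow_natCast, g1, A.can_facet]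
    have hpos : 0 < A.kN r := by
      apply srch_pos _ (A.stop_N hr)
      intro hh
      exact hh ⟨A.cn_can r, by rw [A.ty_can]; exact hN⟩
    have hst := srch_spec (A.stop_N hr)
    have hst' : A.stN' (A.can g) := by rw [← g1]; exact hst
    have hng : ¬ (A.τ g).goN = true := by
      intro hh
      exact hst' ⟨A.cn_can g, by rw [A.ty_can]; exact hh⟩
    rw [hex, hx, zpow_natCast]
    refine ⟨g1, ?_, g2, g3⟩
    have := g4 hpos
    revert this hng; cases A.τ g <;> simp [Ty.frS, Ty.goN, Ty.ep]
  · have hN' : (A.τ r).goN = false := by simpa using hN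
    by_cases hSS : (A.τ r).goS = true
    · have h0 : A.kN r = 0 := A.kN_zero hN'
      have hx : A.x r = -(A.kS r : ℤ) := by unfold x; rw [h0]; simp
      obtain ⟨g, g1, g2, g3, g4⟩ := A.run_S hr (A.kS r) (fun i hi => srch_not hi)
      have hpow : (pN ^ A.x r) (A.can r) = A.can g := by
        rw [hx, ← inv_zpow', zpow_natCast, g1]
      have hex : A.ex r = g := by
        unfold ex; rw [hpow, A.can_facet]
      have hpos : 0 < A.kS r := by
        apply srch_pos _ (A.stop_S hr)
        intro hh
        exact hh ⟨A.cn_can r, by rw [A.ty_can]; exact hSS⟩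
      have hst := srch_spec (A.stop_S hr)
      have hst' : A.stS' (A.can g) := by rw [← g1]; exact hst
      have hng : ¬ (A.τ g).goS = true := by
        intro hh
        exact hst' ⟨A.cn_can g, by rw [A.ty_can]; exact hh⟩
      rw [hex, hpow]
      refine ⟨rfl, ?_, g2, by rw [g3, hx]⟩
      have := g4 hpos
      revert this hng; cases A.τ g <;> simp [Ty.frN, Ty.goS, Ty.ep]
    · have h0 : A.kN r = 0 := A.kN_zero hN'
      have h1 : A.kS r = 0 := A.kS_zero (by simpa using hSS)
      have hx : A.x r = 0 := by unfold x; rw [h0, h1]; simp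
      have hex : A.ex r = r := by unfold ex; rw [hx, zpow_zero]; exact A.can_facet r
      obtain ⟨b1, b2⟩ := A.base_of_wp hr
      rw [hex, hx]
      refine ⟨by simp, ?_, b1, b2⟩
      revert hr hN hSS; cases A.τ r <;> simp [Ty.wp, Ty.goN, Ty.goS, Ty.ep]

/-- inside a run to the north -/
lemma goN_of {f : P.Facet} (h1 : 0 ≤ A.ζ f) (h2 : A.ζ f < A.x (A.ρ f)) :
    (A.τ f).goN = true := by
  have hr := (A.can_eq f).2
  set r := A.ρ f with hrdef
  have hlt : A.ζ f < A.kN r := by unfold x at h2; omega
  have hns : ¬ A.stN' ((pN ^ (A.ζ f).toNat) (A.can r)) := srch_not (by unfold kN at hlt; omega)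
  have hc := (A.can_eq f).1
  rw [← hrdef] at hc
  rw [← zpow_natCast, Int.toNat_of_nonneg h1, ← hc] at hns
  unfold stN' at hns
  rw [not_not, A.ty_can] at hns
  exact hns.2

/-- inside a run to the south -/
lemma goS_of {f : P.Facet} (h1 : A.ζ f ≤ 0) (h2 : A.x (A.ρ f) < A.ζ f) :
    (A.τ f).goS = true := by
  have hr := (A.can_eq f).2
  set r := A.ρ f with hrdef
  have hlt : -A.ζ f < A.kS r := by unfold x at h2; omega
  have hns : ¬ A.stS' (((pN⁻¹ : Equiv.Perm P.FSt) ^ (-A.ζ f).toNat) (A.can r)) :=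
    srch_not (by unfold kS at hlt; omega)
  have hc := (A.can_eq f).1
  rw [← hrdef] at hc
  rw [← zpow_natCast, Int.toNat_of_nonneg (by omega), inv_zpow', neg_neg, ← hc] at hns
  unfold stS' at hns
  rw [not_not, A.ty_can] at hns
  exact hns.2

/-- the northern neighbour in the same line -/
lemma chain_N {f : P.Facet} (h : A.ζ f < 0 ∨ A.ζ f < A.x (A.ρ f)) :
    ∃ g, (A.can f).stN = A.can g ∧ A.ρ g = A.ρ f ∧ A.ζ g = A.ζ f + 1 := by
  rcases lt_or_ge (A.ζ f) 0 with h0 | h0
  · exact A.north_of_neg h0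
  · obtain ⟨g, g1, -, g3, g4⟩ := A.north_of_goN (A.goN_of h0 (by omega))
    exact ⟨g, g1, g3, g4⟩

/-- the southern neighbour in the same line -/
lemma chain_S {f : P.Facet} (h : 0 < A.ζ f ∨ A.x (A.ρ f) < A.ζ f) :
    ∃ g, (A.can g).stN = A.can f ∧ A.ρ g = A.ρ f ∧ A.ζ g = A.ζ f - 1 := by
  rcases lt_or_ge 0 (A.ζ f) with h0 | h0
  · exact A.stepD ((A.ζ_pos_iff f).1 h0)
  · obtain ⟨g, g1, -, g3, g4⟩ := A.south_of_goS (A.goS_of h0 (by omega))
    exact ⟨g, g1, g3, g4⟩

lemma below_frS : ∀ m : ℕ, ∀ f, (A.τ f).frS = true → A.ζ f = m →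
    ∀ g, A.ρ g = A.ρ f → 0 ≤ A.ζ g → A.ζ g < A.ζ f → (A.τ g).goN = true := by
  intro m
  induction m with
  | zero => intro f _ hm g _ h1 h2; omega
  | succ m ih =>
    intro f hf hm g hg h1 h2
    obtain ⟨f', k1, k2⟩ := A.hN' f hf
    obtain ⟨f'', l1, l2, l3⟩ := A.stepD (A.PD_of_frS hf)
    have : f'' = f' := A.can_inj (pN.injective (by
      show (A.can f'').stN = (A.can f').stN
      rw [l1, k1]))
    subst this
    rcases eq_or_ne (A.ζ g) (A.ζ f'') with he | he
    · have : g = f'' := A.eq_of_ρζ (by rw [hg, l2]) he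
      subst this; exact k2
    · by_cases hfr : (A.τ f'').frS = true
      · exact ih f'' hfr (by omega) g (by rw [hg, l2]) h1 (by omega)
      · exfalso
        have hw : (A.τ f'').wp = true := by
          revert k2 hfr; cases A.τ f'' <;> simp [Ty.goN, Ty.frS, Ty.wp]
        have := (A.base_of_wp hw).2
        omega

lemma above_frN : ∀ m : ℕ, ∀ f, (A.τ f).frN = true → A.ζ f = -m →
    ∀ g, A.ρ g = A.ρ f → A.ζ g ≤ 0 → A.ζ f < A.ζ g → (A.τ g).goS = true := by
  intro m
  induction m with
  | zero => intro f _ hm g _ h1 h2; omega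
  | succ m ih =>
    intro f hf hm g hg h1 h2
    obtain ⟨f', k1, k2⟩ := A.hS f hf
    obtain ⟨f'', l1, l2, l3⟩ := A.stepU (A.not_PD_of_frN hf) (A.wp_of_frN hf)
    have : f'' = f' := A.can_inj (by rw [← l1, k1])
    subst this
    rcases eq_or_ne (A.ζ g) (A.ζ f'') with he | he
    · have : g = f'' := A.eq_of_ρζ (by rw [hg, l2]) he
      subst this; exact k2
    · by_cases hfr : (A.τ f'').frN = true
      · exact ih f'' hfr (by omega) g (by rw [hg, l2]) h1 (by omega)
      · exfalso
        have hw : (A.τ f'').wp = true := by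
          revert k2 hfr; cases A.τ f'' <;> simp [Ty.goS, Ty.frN, Ty.wp]
        have := (A.base_of_wp hw).2
        omega

/-- every facet with an east port is the east end of its run -/
lemma ex_ρ {g : P.Facet} (hg : (A.τ g).ep = true) : A.ex (A.ρ g) = g := by
  obtain ⟨c1, hr⟩ := A.can_eq g
  obtain ⟨e1, e2, e3, e4⟩ := A.run_end hr
  apply A.eq_of_ρζ e3
  rw [e4]
  by_cases hfr : (A.τ g).frS = true
  · -- N3
    have hpos : 0 < A.ζ g := (A.ζ_pos_iff g).2 (A.PD_of_frS hfr)
    have hall := A.below_frS (A.ζ g).toNat g hfr (by omega)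
    have h0 := hall (A.ρ g) (A.base_of_wp hr).1 (by rw [(A.base_of_wp hr).2])
      (by rw [(A.base_of_wp hr).2]; exact hpos)
    have hS : A.kS (A.ρ g) = 0 := A.kS_zero (by
      revert h0; cases A.τ (A.ρ g) <;> simp [Ty.goN, Ty.goS])
    have hx : A.x (A.ρ g) = A.kN (A.ρ g) := by unfold x; rw [hS]; simp
    have hng : (A.τ g).goN = false := by
      revert hg; cases A.τ g <;> simp [Ty.ep, Ty.goN]
    rcases lt_trichotomy (A.x (A.ρ g)) (A.ζ g) with h | h | h
    · exfalso
      have := hall (A.ex (A.ρ g)) e3 (by rw [e4, hx]; positivity) (by rw [e4]; exact h)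
      revert this e2; cases A.τ (A.ex (A.ρ g)) <;> simp [Ty.ep, Ty.goN]
    · exact h
    · exfalso
      have := A.goN_of hpos.le h
      rw [hng] at this
      exact absurd this (by simp)
  · by_cases hfn : (A.τ g).frN = true
    · have hnP := A.not_PD_of_frN hfn
      have hle : A.ζ g ≤ 0 := by
        by_contra h'
        exact hnP ((A.ζ_pos_iff g).1 (by omega))
      have hneg : A.ζ g < 0 := by
        rcases lt_or_eq_of_le hle with h | h
        · exact h
        · exfalso
          obtain ⟨g', g1, g2, g3⟩ := A.stepU hnP (A.wp_of_frN hfn)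
          have hj : A.jU (A.can g) = 0 := by
            unfold ζ at h
            rw [if_neg hnP] at h
            omega
          have hns := A.not_stopU (f := g) (Or.inr hfn)
          have hp : 0 < A.jU (A.can g) := srch_pos hns (A.ex_stop g).1
          omega
      have hall := A.above_frN (-A.ζ g).toNat g hfn (by omega)
      have h0 := hall (A.ρ g) (A.base_of_wp hr).1 (by rw [(A.base_of_wp hr).2])
        (by rw [(A.base_of_wp hr).2]; exact hneg)
      have hN : A.kN (A.ρ g) = 0 := A.kN_zero (by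
        revert h0; cases A.τ (A.ρ g) <;> simp [Ty.goN, Ty.goS])
      have hx : A.x (A.ρ g) = -(A.kS (A.ρ g) : ℤ) := by unfold x; rw [hN]; simp
      have hng : (A.τ g).goS = false := by
        revert hg; cases A.τ g <;> simp [Ty.ep, Ty.goS]
      rcases lt_trichotomy (A.x (A.ρ g)) (A.ζ g) with h | h | h
      · exfalso
        have := A.goS_of hle h
        rw [hng] at this
        exact absurd this (by simp)
      · exact h
      · exfalso
        have := hall (A.ex (A.ρ g)) e3 (by rw [e4, hx]; simp) (by rw [e4]; exact h)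
        revert this e2; cases A.τ (A.ex (A.ρ g)) <;> simp [Ty.ep, Ty.goS]
    · -- H
      have hw : (A.τ g).wp = true := by
        revert hg hfr hfn; cases A.τ g <;> simp [Ty.ep, Ty.frS, Ty.frN, Ty.wp]
      obtain ⟨b1, b2⟩ := A.base_of_wp hw
      rw [b1, b2]
      have h1 : A.kN g = 0 := A.kN_zero (by revert hg; cases A.τ g <;> simp [Ty.ep, Ty.goN])
      have h2 : A.kS g = 0 := A.kS_zero (by revert hg; cases A.τ g <;> simp [Ty.ep, Ty.goS])
      unfold x
      rw [h1, h2]; simp

end CellCurve

end GridSolid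

end Pool.Agent.Helper55.UNF
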