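import Pool.Agent.Helper55.UNF.Defs

/-!
Walking on the surface: oriented facets (states) and the step across an edge.
-/

namespace Pool.Agent.Helper55.UNF

/-- The opposite direction. -/
def opp (d : Dir) : Dir := (d.1, !d.2)

/-- The cross product of two orthogonal axis directions. -/
def cross (d e : Dir) : Dir := (-(d.1 + e.1), (d.2 == e.2) == (e.1 == d.1 + 1))

@[simp] lemma opp_opp (d : Dir) : opp (opp d) = d := by simp [opp]

@[simp] lemma opp_fst (d : Dir) : (opp d).1 = d.1 := rfl

lemma cross_axis_left : ∀ d e : Dir, d.1 ≠ e.1 → (cross d e).1 ≠ d.1 := by decide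
lemma cross_axis_right : ∀ d e : Dir, d.1 ≠ e.1 → (cross d e).1 ≠ e.1 := by decide
lemma cross_cross : ∀ d e : Dir, d.1 ≠ e.1 → cross d (cross d e) = opp e := by decide
lemma cross_opp_cross : ∀ d e : Dir, d.1 ≠ e.1 → cross d (opp (cross d e)) = e := by decide
lemma cross_opp_right : ∀ d e : Dir, d.1 ≠ e.1 → cross d (opp e) = opp (cross d e) := by decide
lemma cross_opp_left : ∀ d e : Dir, d.1 ≠ e.1 → cross (opp d) e = opp (cross d e) := by decide
lemma cross_convex : ∀ d e : Dir, d.1 ≠ e.1 → cross e (opp d) = cross d e := by decide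
lemma cross_concave : ∀ d e : Dir, d.1 ≠ e.1 → cross (opp e) d = cross d e := by decide
lemma axis_eq : ∀ (d e : Dir) (a : Fin 3), d.1 ≠ e.1 → a ≠ d.1 → a ≠ e.1 → a = (cross d e).1 := by
  decide

lemma shift_same (c : Fin 3 → ℤ) (d : Dir) : shift c d d.1 = c d.1 + (if d.2 then 1 else -1) := by
  simp [shift]

lemma shift_ne (c : Fin 3 → ℤ) (d : Dir) {a : Fin 3} (h : a ≠ d.1) : shift c d a = c a := by
  simp [shift, h]

lemma shift_opp (c : Fin 3 → ℤ) (d : Dir) : shift (shift c d) (opp d) = c := by
  funext a
  by_cases h : a = d.1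
  · subst h
    have h1 := shift_same (shift c d) (opp d)
    have h2 := shift_same c d
    rw [opp_fst] at h1
    rw [h1, h2]
    rcases d with ⟨a, s⟩
    cases s <;> simp [opp]
  · rw [shift_ne _ _ (by simpa using h), shift_ne _ _ h]

lemma shift_comm (c : Fin 3 → ℤ) {d e : Dir} (h : d.1 ≠ e.1) :
    shift (shift c d) e = shift (shift c e) d := by
  funext a
  by_cases h1 : a = d.1
  · subst h1
    rw [shift_ne _ _ h, shift_same, shift_same, shift_ne _ _ h]
  · by_cases h2 : a = e.1
    · subst h2
      rw [shift_same, shift_ne _ _ h1, shift_ne _ _ h1, shift_same]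
    · rw [shift_ne _ _ h2, shift_ne _ _ h1, shift_ne _ _ h1, shift_ne _ _ h2]

/-- An oriented facet: a cell, the outward normal `d` and the direction `e` that is called east.
North is `cross d e`. -/
@[ext] structure St where
  c : Fin 3 → ℤ
  d : Dir
  e : Dir

instance : DecidableEq St := fun a b =>
  decidable_of_iff (a.c = b.c ∧ a.d = b.d ∧ a.e = b.e) (by
    constructor
    · rintro ⟨h1, h2, h3⟩; exact St.ext h1 h2 h3
    · rintro rfl; exact ⟨rfl, rfl, rfl⟩)

namespace St

/-- the north direction of a state -/
def n (s : St) : Dir := cross s.d s.e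

/-- turn the frame to the left: the new east is the old north -/
def rotL (s : St) : St := ⟨s.c, s.d, cross s.d s.e⟩

/-- turn the frame to the right: the new north is the old east -/
def rotR (s : St) : St := ⟨s.c, s.d, opp (cross s.d s.e)⟩

/-- turn the frame by a half turn -/
def rot2 (s : St) : St := ⟨s.c, s.d, opp s.e⟩

/-- the step to the east across the edge of the facet -/
def stepE (P : GridSolid) (s : St) : St :=
  if shift (shift s.c s.e) s.d ∈ P.cells then ⟨shift (shift s.c s.e) s.d, opp s.e, s.d⟩
  else if shift s.c s.e ∈ P.cells then ⟨shift s.c s.e, s.d, s.e⟩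
  else ⟨s.c, s.e, opp s.d⟩

/-- the step to the north -/
def stepN (P : GridSolid) (s : St) : St := (s.rotL.stepE P).rotR

/-- the step to the south -/
def stepS (P : GridSolid) (s : St) : St := (s.rotR.stepE P).rotL

/-- the step to the west -/
def stepW (P : GridSolid) (s : St) : St := (s.rot2.stepE P).rot2

end St

namespace GridSolid

variable (P : GridSolid)

/-- The distance of the point `p` from the back side of the box `c` in direction `w`. -/
noncomputable def along (c : Fin 3 → ℤ) (w : Dir) (p : EuclideanSpace ℝ (Fin 3)) : ℝ :=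
  if w.2 then p w.1 - P.crd w.1 (c w.1) else P.crd w.1 (c w.1 + 1) - p w.1

/-- The length of the box `c` in direction `w`. -/
noncomputable def len (c : Fin 3 → ℤ) (w : Dir) : ℝ :=
  P.crd w.1 (c w.1 + 1) - P.crd w.1 (c w.1)

lemma len_pos (c : Fin 3 → ℤ) (w : Dir) : 0 < P.len c w := by
  unfold len
  have := P.mono w.1 (show c w.1 < c w.1 + 1 by omega)
  linarith

lemma along_mem {c : Fin 3 → ℤ} {d w : Dir} (h : w.1 ≠ d.1) {p : EuclideanSpace ℝ (Fin 3)}
    (hp : p ∈ P.rect (c, d)) : 0 ≤ P.along c w p ∧ P.along c w p ≤ P.len c w := by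
  have h1 := hp.2 w.1 h
  unfold along len
  split_ifs <;> constructor <;> linarith [h1.1, h1.2]

lemma along_congr {c c' : Fin 3 → ℤ} {w : Dir} (h : c w.1 = c' w.1)
    (p : EuclideanSpace ℝ (Fin 3)) : P.along c w p = P.along c' w p := by
  unfold along; rw [h]

lemma len_congr {c c' : Fin 3 → ℤ} {w : Dir} (h : c w.1 = c' w.1) : P.len c w = P.len c' w := by
  unfold len; rw [h]

/-- Geometry of the step to the east. -/
lemma stepE_geom (s : St) (hde : s.d.1 ≠ s.e.1) {p : EuclideanSpace ℝ (Fin 3)}
    (hp : p ∈ P.rect (s.c, s.d)) (hp' : p ∈ P.rect ((s.stepE P).c, (s.stepE P).d)) :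
    P.along s.c s.e p = P.len s.c s.e ∧ P.along (s.stepE P).c (s.stepE P).e p = 0 := by
  obtain ⟨c, d, e⟩ := s
  simp only at hde hp
  unfold St.stepE at hp' ⊢
  simp only at hp' ⊢
  have hed : e.1 ≠ d.1 := hde.symm
  split_ifs at hp' ⊢ with h1 h2
  · -- concave
    have a1 := hp'.1
    have a2 := hp.1
    simp only [opp_fst, opp] at a1
    rw [shift_ne _ _ hed, shift_same] at a1
    rcases d with ⟨a, s⟩
    rcases e with ⟨b, t⟩
    simp only at *
    unfold along len
    simp only
    rw [shift_same, shift_ne _ _ hde]
    simp only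
    cases s <;> cases t <;> simp_all
  · -- flat
    have a1 := hp'.2 e.1 hed
    have a2 := hp.2 e.1 hed
    simp only at a1
    rw [shift_same] at a1
    rcases d with ⟨a, s⟩
    rcases e with ⟨b, t⟩
    simp only at *
    unfold along len
    simp only
    rw [shift_same]
    simp only
    cases t
    · simp at *
      constructor <;> linarith [a1.1, a1.2, a2.1, a2.2]
    · simp at *
      constructor <;> linarith [a1.1, a1.2, a2.1, a2.2]
  · -- convex
    have a1 := hp'.1
    have a2 := hp.1
    rcases d with ⟨a, s⟩
    rcases e with ⟨b, t⟩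
    simp only [opp] at *
    unfold along len
    simp only
    cases s <;> cases t <;> simp_all

/-- The third coordinate does not change under the step to the east. -/
lemma stepE_third (s : St) {a : Fin 3} (h1 : a ≠ s.d.1) (h2 : a ≠ s.e.1) :
    (s.stepE P).c a = s.c a := by
  unfold St.stepE
  split_ifs
  · simp only; rw [shift_ne _ _ h1, shift_ne _ _ h2]
  · simp only; rw [shift_ne _ _ h2]
  · rfl

lemma stepE_n (s : St) (hde : s.d.1 ≠ s.e.1) : (s.stepE P).n = s.n := by
  unfold St.stepE St.n
  split_ifs
  · exact cross_concave _ _ hde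
  · rfl
  · exact cross_convex _ _ hde

lemma stepE_perp (s : St) (hde : s.d.1 ≠ s.e.1) : (s.stepE P).d.1 ≠ (s.stepE P).e.1 := by
  unfold St.stepE
  split_ifs
  · exact hde.symm
  · exact hde
  · exact hde.symm

/-- A facet and its east neighbour share a grid edge and are different. -/
lemma stepE_share (s : St) (hde : s.d.1 ≠ s.e.1) :
    ((s.c, s.d) ≠ ((s.stepE P).c, (s.stepE P).d)) ∧ ∃ a v, P.gridEdge a v ⊆
      P.rect (s.c, s.d) ∩ P.rect ((s.stepE P).c, (s.stepE P).d) := by
  obtain ⟨c, d, e⟩ := s
  simp only at hde
  have hed : e.1 ≠ d.1 := hde.symm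
  refine ⟨?_, (cross d e).1, fun a => if a = d.1 then c a + (if d.2 then 1 else 0) else
    if a = e.1 then c a + (if e.2 then 1 else 0) else c a, ?_⟩
  · unfold St.stepE
    split_ifs
    · intro h
      have := congrArg (fun t : (Fin 3 → ℤ) × Dir => t.2.1) h
      exact hde this
    · intro h
      have := congrArg (fun t : (Fin 3 → ℤ) × Dir => t.1 e.1) h
      simp only at this
      rw [shift_same] at this
      split_ifs at this <;> omega
    · intro h
      have := congrArg (fun t : (Fin 3 → ℤ) × Dir => t.2.1) h
      exact hde this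
  · intro p hp
    have hx := hp.1
    have hcd := cross_axis_left d e hde
    have hce := cross_axis_right d e hde
    have pd := hp.2 d.1 hcd.symm
    have pe := hp.2 e.1 hce.symm
    simp only [if_true, if_neg hcd, if_neg hce, if_neg hed] at hx pd pe
    have md : P.crd d.1 (c d.1) ≤ P.crd d.1 (c d.1 + 1) := (P.mono d.1).monotone (by omega)
    have me : P.crd e.1 (c e.1) ≤ P.crd e.1 (c e.1 + 1) := (P.mono e.1).monotone (by omega)
    have me2 : P.crd e.1 (c e.1 + 1) ≤ P.crd e.1 (c e.1 + 1 + 1) :=
      (P.mono e.1).monotone (by omega)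
    have me3 : P.crd e.1 (c e.1 - 1) ≤ P.crd e.1 (c e.1) := (P.mono e.1).monotone (by omega)
    have md2 : P.crd d.1 (c d.1 + 1) ≤ P.crd d.1 (c d.1 + 1 + 1) :=
      (P.mono d.1).monotone (by omega)
    have md3 : P.crd d.1 (c d.1 - 1) ≤ P.crd d.1 (c d.1) := (P.mono d.1).monotone (by omega)
    refine ⟨⟨pd, fun b hb => ?_⟩, ?_⟩
    · by_cases hbe : b = e.1
      · subst hbe
        simp only
        rw [pe]
        split_ifs <;> simp [me]
      · have := axis_eq d e b hde hb hbe
        subst this
        exact hx
    · unfold St.stepE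
      simp only
      split_ifs
      · -- concave
        refine ⟨?_, fun b hb => ?_⟩
        · simp only [opp_fst, opp]
          rw [shift_ne _ _ hed, shift_same, pe]
          rcases e with ⟨b, t⟩
          cases t <;> simp
        · simp only [opp_fst] at hb ⊢
          by_cases hbd : b = d.1
          · subst hbd
            rw [shift_same, shift_ne _ _ hde, pd]
            rcases d with ⟨b, t⟩
            cases t
            · simp at *; exact md3
            · simp at *; exact md2
          · have := axis_eq d e b hde hbd hb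
            subst this
            rw [shift_ne _ _ hcd, shift_ne _ _ hce]
            exact hx
      · -- flat
        refine ⟨?_, fun b hb => ?_⟩
        · simp only
          rw [shift_ne _ _ hde, pd]
        · simp only at hb ⊢
          by_cases hbe : b = e.1
          · subst hbe
            rw [shift_same, pe]
            rcases e with ⟨b, t⟩
            cases t
            · simp at *; exact me3
            · simp at *; exact me2
          · have := axis_eq d e b hde hb hbe
            subst this
            rw [shift_ne _ _ hce]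
            exact hx
      · -- convex
        refine ⟨pe, fun b hb => ?_⟩
        simp only at hb ⊢
        by_cases hbd : b = d.1
        · subst hbd
          rw [pd]
          split_ifs <;> simp [md]
        · have := axis_eq d e b hde hbd hb
          subst this
          exact hx

end GridSolid

end Pool.Agent.Helper55.UNF
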