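import Pool.Agent.Helper55.UNF.Orbit

/-!
Coordinates of the facets of a refinement.
-/

namespace Pool.Agent.Helper55.UNF

namespace GridSolid

variable {P : GridSolid} {k : ℕ}

lemma mem_refine (hk : 0 < k) (c : Fin 3 → ℤ) :
    c ∈ (P.refine k hk).cells ↔ (fun a => c a / (k : ℤ)) ∈ P.cells := by
  have hk' : (0 : ℤ) < k := by exact_mod_cast hk
  unfold refine
  simp only [Finset.mem_biUnion, Fintype.mem_piFinset, Finset.mem_Ico]
  constructor
  · rintro ⟨b, hb, h⟩
    have : (fun a => c a / (k : ℤ)) = b := by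
      funext a
      obtain ⟨h1, h2⟩ := h a
      have h3 := Int.mul_ediv_add_emod (c a) k
      have h4 := Int.emod_nonneg (c a) hk'.ne'
      have h5 := Int.emod_lt_of_pos (c a) hk'
      apply le_antisymm
      · by_contra hlt
        push Not at hlt
        nlinarith
      · by_contra hlt
        push Not at hlt
        nlinarith
    rw [this]; exact hb
  · intro h
    refine ⟨_, h, fun a => ?_⟩
    have h3 := Int.mul_ediv_add_emod (c a) k
    have h4 := Int.emod_nonneg (c a) hk'.ne'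
    have h5 := Int.emod_lt_of_pos (c a) hk'
    constructor <;> omega

/-- the position inside a box of the part with coordinate `x` in direction `w` -/
def pos (k : ℕ) (w : Dir) (x : ℕ) : ℤ := if w.2 then (x : ℤ) else (k : ℤ) - 1 - x

lemma pos_bd {w : Dir} {x : ℕ} (hx : x < k) : 0 ≤ pos k w x ∧ pos k w x < k := by
  unfold pos
  split_ifs <;> omega

lemma pos_opp (w : Dir) {x : ℕ} (hx : x < k) : pos k (opp w) (k - 1 - x) = pos k w x := by
  unfold pos opp
  rcases w with ⟨a, s⟩
  cases s <;> simp <;> omega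

lemma pos_succ (w : Dir) (x : ℕ) :
    pos k w (x + 1) = pos k w x + (if w.2 then 1 else -1) := by
  unfold pos
  split_ifs <;> push_cast <;> ring

/-- the cell of the refinement in the facet of the state `s` with coordinates `x`, `y` -/
def subC (k : ℕ) (s : St) (x y : ℕ) : Fin 3 → ℤ := fun a =>
  (k : ℤ) * s.c a + (if a = s.d.1 then pos k s.d (k - 1) else if a = s.e.1 then pos k s.e x
    else pos k s.n y)

lemma subC_div (s : St) {x y : ℕ} (hx : x < k) (hy : y < k) :
    (fun a => subC k s x y a / (k : ℤ)) = s.c := by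
  funext a
  have hk : (0 : ℤ) < k := by omega
  unfold subC
  have key : ∀ t : ℤ, 0 ≤ t → t < k → ((k : ℤ) * s.c a + t) / (k : ℤ) = s.c a := by
    intro t h1 h2
    rw [Int.add_comm, Int.add_mul_ediv_left _ _ hk.ne', Int.ediv_eq_zero_of_lt h1 h2, zero_add]
  apply key
  · split_ifs
    · exact (pos_bd (by omega)).1
    · exact (pos_bd hx).1
    · exact (pos_bd hy).1
  · split_ifs
    · exact (pos_bd (by omega)).2
    · exact (pos_bd hx).2
    · exact (pos_bd hy).2

lemma subC_d (s : St) (x y : ℕ) :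
    subC k s x y s.d.1 = (k : ℤ) * s.c s.d.1 + pos k s.d (k - 1) := by
  unfold subC; simp

lemma subC_e (s : St) (h : s.d.1 ≠ s.e.1) (x y : ℕ) :
    subC k s x y s.e.1 = (k : ℤ) * s.c s.e.1 + pos k s.e x := by
  unfold subC; simp [h.symm]

lemma subC_n (s : St) (h : s.d.1 ≠ s.e.1) (x y : ℕ) :
    subC k s x y s.n.1 = (k : ℤ) * s.c s.n.1 + pos k s.n y := by
  have h1 : s.n.1 ≠ s.d.1 := cross_axis_left _ _ h
  have h2 : s.n.1 ≠ s.e.1 := cross_axis_right _ _ h
  unfold subC
  rw [if_neg h1, if_neg h2]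

/-- two cells are equal if they agree in the three directions of a frame -/
lemma ext_frame {d e : Dir} (h : d.1 ≠ e.1) {c c' : Fin 3 → ℤ} (h1 : c d.1 = c' d.1)
    (h2 : c e.1 = c' e.1) (h3 : c (cross d e).1 = c' (cross d e).1) : c = c' := by
  funext a
  by_cases ha : a = d.1
  · rw [ha]; exact h1
  · by_cases hb : a = e.1
    · rw [hb]; exact h2
    · rw [axis_eq d e a h ha hb]; exact h3

lemma pos_out (hk : 0 < k) (w : Dir) (m : ℤ) :
    (k : ℤ) * m + pos k w (k - 1) + (if w.2 then 1 else -1) =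
      (k : ℤ) * (m + if w.2 then 1 else -1) + pos k w 0 := by
  unfold pos
  split_ifs
  · push_cast [Nat.cast_sub (show 1 ≤ k by omega)]; ring
  · push_cast [Nat.cast_sub (show 1 ≤ k by omega)]; ring

lemma pos_opp_zero (hk : 0 < k) (w : Dir) : pos k (opp w) (k - 1) = pos k w 0 := by
  have := pos_opp (k := k) w (x := 0) hk
  simpa using this

lemma pos_opp_zero' (hk : 0 < k) (w : Dir) : pos k (opp w) 0 = pos k w (k - 1) := by
  have := pos_opp (k := k) w (x := k - 1) (by omega)
  simpa using this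

/-- Division of a shifted cell, at the end of a box. -/
lemma shift_div_end (hk : 0 < k) (w : Dir) (c : Fin 3 → ℤ) (m : ℤ)
    (hc : c w.1 = (k : ℤ) * m + pos k w (k - 1)) :
    (fun a => shift c w a / (k : ℤ)) = shift (fun a => c a / (k : ℤ)) w := by
  have hk' : (0 : ℤ) < k := by exact_mod_cast hk
  funext a
  by_cases ha : a = w.1
  · subst ha
    rw [shift_same, shift_same, hc, pos_out hk]
    have e1 : ∀ (u : ℤ) (t : ℤ), 0 ≤ t → t < k → ((k : ℤ) * u + t) / (k : ℤ) = u := by
      intro u t h1 h2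
      rw [Int.add_comm, Int.add_mul_ediv_left _ _ hk'.ne', Int.ediv_eq_zero_of_lt h1 h2, zero_add]
    rw [e1 _ _ (pos_bd hk).1 (pos_bd hk).2, e1 _ _ (pos_bd (by omega)).1 (pos_bd (by omega)).2]
  · rw [shift_ne _ _ ha, shift_ne _ _ ha]

/-- Division of a shifted cell, inside a box. -/
lemma shift_div_mid (w : Dir) (c : Fin 3 → ℤ) (m : ℤ) (x : ℕ) (hx : x + 1 < k)
    (hc : c w.1 = (k : ℤ) * m + pos k w x) :
    (fun a => shift c w a / (k : ℤ)) = (fun a => c a / (k : ℤ)) := by
  have hk' : (0 : ℤ) < k := by omega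
  funext a
  by_cases ha : a = w.1
  · subst ha
    rw [shift_same, hc, add_assoc, ← pos_succ]
    have e1 : ∀ (u : ℤ) (t : ℤ), 0 ≤ t → t < k → ((k : ℤ) * u + t) / (k : ℤ) = u := by
      intro u t h1 h2
      rw [Int.add_comm, Int.add_mul_ediv_left _ _ hk'.ne', Int.ediv_eq_zero_of_lt h1 h2, zero_add]
    rw [e1 _ _ (pos_bd hx).1 (pos_bd hx).2, e1 _ _ (pos_bd (by omega)).1 (pos_bd (by omega)).2]
  · rw [shift_ne _ _ ha]

variable (hk : 0 < k)

/-- the oriented facet of the refinement in the facet of `s` with coordinates `x`, `y` -/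
def sub (s : P.FSt) (x y : ℕ) (hx : x < k) (hy : y < k) : (P.refine k hk).FSt :=
  ⟨⟨subC k s.1 x y, s.1.d, s.1.e⟩, by
    refine ⟨⟨?_, ?_⟩, s.2.2⟩
    · simp only
      rw [mem_refine, subC_div _ hx hy]
      exact s.2.1.1
    · simp only
      rw [mem_refine, shift_div_end hk s.1.d _ _ (subC_d _ _ _), subC_div _ hx hy]
      exact s.2.1.2⟩

variable {hk}

lemma subC_r2 (s : St) (h : s.d.1 ≠ s.e.1) {x y : ℕ} (hx : x < k) (hy : y < k) :
    subC k s.rot2 (k - 1 - x) (k - 1 - y) = subC k s x y := by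
  apply ext_frame h
  · rw [subC_d]
    exact subC_d s.rot2 _ _
  · rw [subC_e _ h]
    have := subC_e (k := k) s.rot2 h (k - 1 - x) (k - 1 - y)
    have e : pos k s.rot2.e (k - 1 - x) = pos k s.e x := pos_opp s.e hx
    rw [e] at this
    exact this
  · have h1 := subC_n (k := k) s.rot2 h (k - 1 - x) (k - 1 - y)
    have h2 := subC_n (k := k) s h x y
    have hn : s.rot2.n = opp s.n := cross_opp_right s.d s.e h
    rw [hn] at h1
    have e : pos k (opp s.n) (k - 1 - y) = pos k s.n y := pos_opp s.n hy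
    rw [e] at h1
    have h1' : subC k s.rot2 (k - 1 - x) (k - 1 - y) s.n.1 = (k : ℤ) * s.c s.n.1 + pos k s.n y :=
      h1
    show subC k s.rot2 (k - 1 - x) (k - 1 - y) s.n.1 = subC k s x y s.n.1
    rw [h1', h2]

lemma sub_r2 (s : P.FSt) {x y : ℕ} (hx : x < k) (hy : y < k) :
    (sub hk s x y hx hy).r2 = sub hk s.r2 (k - 1 - x) (k - 1 - y) (by omega) (by omega) := by
  apply FSt.ext'
  show (⟨subC k s.1 x y, s.1.d, opp s.1.e⟩ : St) = ⟨subC k s.1.rot2 _ _, s.1.d, opp s.1.e⟩
  rw [subC_r2 s.1 s.2.2 hx hy]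

lemma subC_rL (s : St) (h : s.d.1 ≠ s.e.1) {x y : ℕ} (hx : x < k) :
    subC k s.rotL y (k - 1 - x) = subC k s x y := by
  have hL : s.rotL.d.1 ≠ s.rotL.e.1 := (cross_axis_left _ _ h).symm
  apply ext_frame h
  · rw [subC_d]
    exact subC_d s.rotL _ _
  · rw [subC_e _ h]
    have h1 := subC_n (k := k) s.rotL hL y (k - 1 - x)
    have hn : s.rotL.n = opp s.e := cross_cross s.d s.e h
    rw [hn, pos_opp _ hx] at h1
    exact h1
  · have h1 := subC_e (k := k) s.rotL hL y (k - 1 - x)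
    have h2 := subC_n (k := k) s h x y
    exact h1.trans h2.symm

lemma sub_rL (s : P.FSt) {x y : ℕ} (hx : x < k) (hy : y < k) :
    (sub hk s x y hx hy).rL = sub hk s.rL y (k - 1 - x) hy (by omega) := by
  apply FSt.ext'
  show (⟨subC k s.1 x y, s.1.d, cross s.1.d s.1.e⟩ : St) =
    ⟨subC k s.1.rotL _ _, s.1.d, cross s.1.d s.1.e⟩
  rw [subC_rL s.1 s.2.2 hx]

lemma sub_congr {s t : P.FSt} {x y x' y' : ℕ} (hx : x < k) (hy : y < k) (hs : s = t)
    (h1 : x = x') (h2 : y = y') :
    sub hk s x y hx hy = sub hk t x' y' (h1 ▸ hx) (h2 ▸ hy) := by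
  subst hs; subst h1; subst h2; rfl

lemma sub_rR (s : P.FSt) {x y : ℕ} (hx : x < k) (hy : y < k) :
    (sub hk s x y hx hy).rR = sub hk s.rR (k - 1 - y) x (by omega) hx := by
  have h := sub_rL (hk := hk) s.rR (x := k - 1 - y) (y := x) (by omega) hx
  have h2 : sub hk s.rR.rL x (k - 1 - (k - 1 - y)) hx (by omega) = sub hk s x y hx hy :=
    sub_congr _ _ (FSt.rR_rL s) rfl (by omega)
  rw [h2] at h
  rw [← h, FSt.rL_rR]

/-- the step to the east inside a facet -/
lemma sub_stE_mid (s : P.FSt) {x y : ℕ} (hx : x + 1 < k) (hy : y < k) :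
    (sub hk s x y (by omega) hy).stE = sub hk s (x + 1) y hx hy := by
  apply FSt.ext'
  have hde := s.2.2
  have hed : s.1.e.1 ≠ s.1.d.1 := hde.symm
  have hx' : x < k := by omega
  have hdiv1 : (fun a => shift (subC k s.1 x y) s.1.e a / (k : ℤ)) = s.1.c := by
    rw [shift_div_mid s.1.e _ _ x hx (subC_e _ hde _ _), subC_div _ hx' hy]
  have hin : shift (subC k s.1 x y) s.1.e ∈ (P.refine k hk).cells := by
    rw [mem_refine, hdiv1]; exact s.2.1.1
  have hout : shift (shift (subC k s.1 x y) s.1.e) s.1.d ∉ (P.refine k hk).cells := by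
    rw [mem_refine, shift_div_end hk s.1.d _ (s.1.c s.1.d.1), hdiv1]
    · exact s.2.1.2
    · rw [shift_ne _ _ hde, subC_d]
  have hc : shift (subC k s.1 x y) s.1.e = subC k s.1 (x + 1) y := by
    apply ext_frame hde
    · rw [shift_ne _ _ hde, subC_d, subC_d]
    · rw [shift_same, subC_e _ hde, subC_e _ hde, pos_succ]; ring
    · rw [shift_ne _ _ (cross_axis_right _ _ hde)]
      exact (subC_n s.1 hde x y).trans (subC_n s.1 hde (x + 1) y).symm
  show St.stepE (P.refine k hk) ⟨subC k s.1 x y, s.1.d, s.1.e⟩ = ⟨subC k s.1 (x + 1) y, s.1.d,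
    s.1.e⟩
  unfold St.stepE
  simp only
  rw [if_neg hout, if_pos hin, hc]

/-- the step to the east at the east side of a facet -/
lemma sub_stE_end (s : P.FSt) {y : ℕ} (hy : y < k) :
    (sub hk s (k - 1) y (by omega) hy).stE = sub hk s.stE 0 y hk hy := by
  apply FSt.ext'
  have hde := s.2.2
  have hed : s.1.e.1 ≠ s.1.d.1 := hde.symm
  have hk1 : k - 1 < k := by omega
  have hdiv1 : (fun a => shift (subC k s.1 (k - 1) y) s.1.e a / (k : ℤ)) = shift s.1.c s.1.e := by
    rw [shift_div_end hk s.1.e _ _ (subC_e _ hde _ _), subC_div _ hk1 hy]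
  have hdiv2 : (fun a => shift (shift (subC k s.1 (k - 1) y) s.1.e) s.1.d a / (k : ℤ)) =
      shift (shift s.1.c s.1.e) s.1.d := by
    rw [shift_div_end hk s.1.d _ (s.1.c s.1.d.1), hdiv1]
    rw [shift_ne _ _ hde, subC_d]
  have m1 : shift (subC k s.1 (k - 1) y) s.1.e ∈ (P.refine k hk).cells ↔
      shift s.1.c s.1.e ∈ P.cells := by rw [mem_refine, hdiv1]
  have m2 : shift (shift (subC k s.1 (k - 1) y) s.1.e) s.1.d ∈ (P.refine k hk).cells ↔
      shift (shift s.1.c s.1.e) s.1.d ∈ P.cells := by rw [mem_refine, hdiv2]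
  have hcd : s.1.n.1 ≠ s.1.d.1 := cross_axis_left _ _ hde
  have hce : s.1.n.1 ≠ s.1.e.1 := cross_axis_right _ _ hde
  show St.stepE (P.refine k hk) ⟨subC k s.1 (k - 1) y, s.1.d, s.1.e⟩ =
    ⟨subC k (s.1.stepE P) 0 y, (s.1.stepE P).d, (s.1.stepE P).e⟩
  have hn : (s.1.stepE P).n = s.1.n := P.stepE_n s.1 hde
  have hperp := P.stepE_perp s.1 hde
  have hC : ∀ c' : Fin 3 → ℤ, c' (s.1.stepE P).d.1 = (k : ℤ) * (s.1.stepE P).c (s.1.stepE P).d.1 +
      pos k (s.1.stepE P).d (k - 1) →
      c' (s.1.stepE P).e.1 = (k : ℤ) * (s.1.stepE P).c (s.1.stepE P).e.1 +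
      pos k (s.1.stepE P).e 0 → c' s.1.n.1 = (k : ℤ) * s.1.c s.1.n.1 + pos k s.1.n y →
      c' = subC k (s.1.stepE P) 0 y := by
    intro c' h1 h2 h3
    apply ext_frame hperp
    · rw [h1, subC_d]
    · rw [h2, subC_e _ hperp]
    · have h4 := subC_n (k := k) (s.1.stepE P) hperp 0 y
      rw [hn, P.stepE_third s.1 hcd hce] at h4
      have h5 : c' (s.1.stepE P).n.1 = subC k (s.1.stepE P) 0 y (s.1.stepE P).n.1 := by
        rw [hn, h3, h4]
      exact h5
  unfold St.stepE at hC ⊢
  simp only at hC ⊢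
  by_cases a : shift (shift s.1.c s.1.e) s.1.d ∈ P.cells
  · simp only [if_pos a, if_pos (m2.2 a)] at hC ⊢
    congr 1
    apply hC
    · simp only [opp_fst]
      rw [shift_ne _ _ hed, shift_same, subC_e _ hde, pos_out hk, shift_ne _ _ hed, shift_same,
        pos_opp_zero hk]
    · rw [shift_same, shift_ne _ _ hde, subC_d, pos_out hk, shift_same, shift_ne _ _ hde]
    · rw [shift_ne _ _ hcd, shift_ne _ _ hce]
      exact subC_n s.1 hde _ _
  · simp only [if_neg a, if_neg (fun h => a (m2.1 h))] at hC ⊢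
    by_cases b : shift s.1.c s.1.e ∈ P.cells
    · simp only [if_pos b, if_pos (m1.2 b)] at hC ⊢
      congr 1
      apply hC
      · rw [shift_ne _ _ hde, subC_d, shift_ne _ _ hde]
      · rw [shift_same, subC_e _ hde, pos_out hk, shift_same]
      · rw [shift_ne _ _ hce]
        exact subC_n s.1 hde _ _
    · simp only [if_neg b, if_neg (fun h => b (m1.1 h))] at hC ⊢
      congr 1
      apply hC
      · exact subC_e s.1 hde _ _
      · simp only [opp_fst]
        rw [subC_d, pos_opp_zero' hk]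
      · exact subC_n s.1 hde _ _

/-- the step to the north inside a facet -/
lemma sub_stN_mid (s : P.FSt) {x y : ℕ} (hx : x < k) (hy : y + 1 < k) :
    (sub hk s x y hx (by omega)).stN = sub hk s x (y + 1) hx hy := by
  have hy' : y < k := by omega
  show (sub hk s x y hx hy').rL.stE.rR = _
  rw [sub_rL, sub_stE_mid _ hy, sub_rR]
  exact sub_congr _ _ (FSt.rL_rR s) (by omega) rfl

/-- the step to the north at the north side of a facet -/
lemma sub_stN_end (s : P.FSt) {x : ℕ} (hx : x < k) :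
    (sub hk s x (k - 1) hx (by omega)).stN = sub hk s.stN x 0 hx hk := by
  have hk1 : k - 1 < k := by omega
  show (sub hk s x (k - 1) hx hk1).rL.stE.rR = _
  rw [sub_rL, sub_stE_end, sub_rR]
  exact sub_congr _ _ rfl (by omega) rfl

end GridSolid

end Pool.Agent.Helper55.UNF
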